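import Mathlib
import Pool.Agent.H84.UC.Basic

/-!
# Random constant terms: definitions (plane orbits, reachable sets, clipped noise)
-/

set_option autoImplicit false

open Pool.Agent.H84.UC

namespace Pool.Agent.H35.ME

/-- kicked maps of the plane -/
def pl (h : ℕ → ℂ → ℂ) (a : ℕ → ℂ) (t : ℕ) (z : ℂ) : ℂ := h t z + a t

/-- points that can be reached from `y` at time `k` with kicks of norm `< ε` -/
def reach (h : ℕ → ℂ → ℂ) (ε : ℝ) (y : ℂ) : ℕ → Set ℂ
  | 0 => {y}
  | k + 1 => {w | ∃ v ∈ reach h ε y k, ‖w - h k v‖ < ε}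

/-- points from which norm `> R` can be reached in exactly `j` steps from time `s` on -/
def esc (h : ℕ → ℂ → ℂ) (ε R : ℝ) : ℕ → ℕ → Set ℂ
  | 0, _ => {y | R < ‖y‖}
  | j + 1, s => {y | ∃ w ∈ esc h ε R j (s + 1), ‖w - h s y‖ < ε}

/-- norm `> R` can be reached within `J` steps from time `s` on -/
def NS (h : ℕ → ℂ → ℂ) (ε R : ℝ) (J s : ℕ) : Set ℂ := {y | ∃ j, 1 ≤ j ∧ j ≤ J ∧ y ∈ esc h ε R j s}

theorem esc_open {h : ℕ → ℂ → ℂ} (hc : ∀ t, Continuous (h t)) (ε R : ℝ) (j s : ℕ) :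
    IsOpen (esc h ε R j s) := by
  induction j generalizing s with
  | zero => exact isOpen_lt continuous_const continuous_norm
  | succ j _ =>
    have : esc h ε R (j + 1) s = h s ⁻¹' (Metric.thickening ε (esc h ε R j (s + 1))) := by
      ext y
      rw [Set.mem_preimage, Metric.mem_thickening_iff]
      constructor
      · rintro ⟨w, hw, hd⟩
        refine ⟨w, hw, ?_⟩
        rw [dist_comm, dist_eq_norm]
        exact hd
      · rintro ⟨w, hw, hd⟩
        refine ⟨w, hw, ?_⟩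
        rw [dist_comm, dist_eq_norm] at hd
        exact hd
    rw [this]
    exact Metric.isOpen_thickening.preimage (hc s)

theorem NS_open {h : ℕ → ℂ → ℂ} (hc : ∀ t, Continuous (h t)) (ε R : ℝ) (J s : ℕ) :
    IsOpen (NS h ε R J s) := by
  have : NS h ε R J s = ⋃ j, ⋃ (_ : 1 ≤ j ∧ j ≤ J), esc h ε R j s := by
    ext y
    simp only [NS, Set.mem_setOf_eq, Set.mem_iUnion, exists_prop, and_assoc]
  rw [this]
  exact isOpen_iUnion fun j => isOpen_iUnion fun _ => esc_open hc ε R j s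

theorem reach_esc {h : ℕ → ℂ → ℂ} {ε R : ℝ} {y : ℂ} {s : ℕ} (k : ℕ) : ∀ (m : ℕ) (w : ℂ),
    w ∈ reach (fun t => h (s + t)) ε y k → w ∈ esc h ε R m (s + k) → y ∈ esc h ε R (k + m) s := by
  induction k with
  | zero =>
    intro m w hw h1
    have : w = y := hw
    subst this
    rw [Nat.zero_add]
    exact h1
  | succ k ih =>
    intro m w hw h1
    obtain ⟨v, hv, hd⟩ := hw
    have h2 : v ∈ esc h ε R (m + 1) (s + k) := ⟨w, h1, hd⟩
    have h3 := ih (m + 1) v hv h2
    have e : k + 1 + m = k + (m + 1) := by omega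
    rw [e]
    exact h3

theorem reach_bdd {h : ℕ → ℂ → ℂ} {ε R : ℝ} {J s : ℕ} {y : ℂ} (hy : y ∉ NS h ε R J s) :
    ∀ k, 1 ≤ k → k ≤ J → ∀ w ∈ reach (fun t => h (s + t)) ε y k, ‖w‖ ≤ R := by
  intro k hk1 hk2 w hw
  by_contra hc
  push Not at hc
  apply hy
  refine ⟨k, hk1, hk2, ?_⟩
  have h1 : w ∈ esc h ε R 0 (s + k) := hc
  exact reach_esc k 0 w hw h1

/-- clipped noise -/
noncomputable def clip (ε : ℝ) (u : ℂ) : ℂ := if ‖u‖ < ε then u else 0

theorem clip_lt {ε : ℝ} (hε : 0 < ε) (u : ℂ) : ‖clip ε u‖ < ε := by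
  unfold clip
  split_ifs with h
  · exact h
  · rw [norm_zero]; exact hε

theorem clip_of_lt {ε : ℝ} {u : ℂ} (h : ‖u‖ < ε) : clip ε u = u := if_pos h

theorem clip_meas (ε : ℝ) : Measurable (clip ε) := by
  unfold clip
  exact Measurable.ite (measurableSet_lt measurable_norm measurable_const) measurable_id
    measurable_const

/-- the sequence of kicks given by a noise vector -/
noncomputable def ex {n : ℕ} (ε : ℝ) (x : Fin n → ℂ) (t : ℕ) : ℂ :=
  if h : t < n then clip ε (x ⟨t, h⟩) else 0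

theorem ex_lt {n : ℕ} {ε : ℝ} (hε : 0 < ε) (x : Fin n → ℂ) (t : ℕ) : ‖ex ε x t‖ < ε := by
  unfold ex
  split_ifs with h
  · exact clip_lt hε _
  · rw [norm_zero]; exact hε

theorem ex_meas {n : ℕ} (ε : ℝ) (t : ℕ) : Measurable (fun x : Fin n → ℂ => ex ε x t) := by
  unfold ex
  by_cases h : t < n
  · simp only [h, dif_pos]
    exact (clip_meas ε).comp (measurable_pi_apply _)
  · simp only [h, dif_neg, not_false_eq_true]
    exact measurable_const

/-- the times `s ≤ t < s'` -/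
def bk (n s s' : ℕ) : Finset (Fin n) := Finset.univ.filter (fun i => s ≤ i.1 ∧ i.1 < s')

theorem mem_bk {n s s' : ℕ} {i : Fin n} : i ∈ bk n s s' ↔ s ≤ i.1 ∧ i.1 < s' := by
  simp [bk]

theorem bk_union {n s s' s'' : ℕ} (h1 : s ≤ s') (h2 : s' ≤ s'') :
    bk n s s'' = bk n s s' ∪ bk n s' s'' := by
  ext i
  simp only [Finset.mem_union, mem_bk]
  omega

theorem bk_disj {n s s' s'' : ℕ} : Disjoint (bk n s s') (bk n s' s'') := by
  rw [Finset.disjoint_left]
  intro i h1 h2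
  rw [mem_bk] at h1 h2
  omega

theorem ex_congr {n : ℕ} {ε : ℝ} {x x' : Fin n → ℂ} {s s' : ℕ}
    (h : ∀ i ∈ bk n s s', x i = x' i) {t : ℕ} (h1 : s ≤ t) (h2 : t < s') :
    ex ε x t = ex ε x' t := by
  unfold ex
  split_ifs with h3
  · rw [h ⟨t, h3⟩ (mem_bk.2 ⟨h1, h2⟩)]
  · rfl

theorem cp_ex_congr {n : ℕ} {ε : ℝ} {h : ℕ → ℂ → ℂ} {x x' : Fin n → ℂ} {s k : ℕ}
    (hx : ∀ i ∈ bk n s (s + k), x i = x' i) (y : ℂ) :
    cp (pl h (ex ε x)) s k y = cp (pl h (ex ε x')) s k y := by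
  apply cp_congr
  intro i hi
  funext z
  unfold pl
  rw [ex_congr hx (Nat.le_add_right s i) (by omega)]

theorem cp_meas {n : ℕ} {ε : ℝ} {h : ℕ → ℂ → ℂ} (hc : ∀ t, Measurable (h t)) (s k : ℕ) :
    Measurable (fun p : (Fin n → ℂ) × ℂ => cp (pl h (ex ε p.1)) s k p.2) := by
  induction k with
  | zero => exact measurable_snd
  | succ k ih =>
    simp only [cp_succ]
    exact ((hc (s + k)).comp ih).add ((ex_meas ε (s + k)).comp measurable_fst)

/-- total count along an orbit -/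
def tot {X S : Type*} (st : ℕ → X → S → S) (ct : ℕ → X → S → ℕ) : ℕ → ℕ → X → S → ℕ
  | 0, _, _, _ => 0
  | b + 1, k, x, y => ct k x y + tot st ct b (k + 1) x (st k x y)

theorem tot_meas {X S : Type*} [MeasurableSpace X] [MeasurableSpace S] {st : ℕ → X → S → S}
    {ct : ℕ → X → S → ℕ} (hst : ∀ k, Measurable (fun p : X × S => st k p.1 p.2))
    (hct : ∀ k, Measurable (fun p : X × S => ct k p.1 p.2)) (b : ℕ) : ∀ k,
    Measurable (fun p : X × S => tot st ct b k p.1 p.2) := by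
  induction b with
  | zero => intro k; exact measurable_const
  | succ b ih =>
    intro k
    simp only [tot]
    exact (hct k).add ((ih (k + 1)).comp (measurable_fst.prodMk (hst k)))

end Pool.Agent.H35.ME
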