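import Mathlib
import Pool.Agent.H35.ME.Defs

/-!
# Non-autonomous Earle-Hamilton contraction in the plane
-/

set_option autoImplicit false

open Pool.Agent.H84.UC

namespace Pool.Agent.H35.ME

theorem contr (h : ℕ → ℂ → ℂ) (hd : ∀ k, Differentiable ℂ (h k)) {ε R σ : ℝ} (hε : 0 < ε)
    (hR : 0 < R) (hσ : 0 < σ) {J : ℕ} (hJ : 1 ≤ J) (a : ℕ → ℂ) (ha : ∀ k, ‖a k‖ < ε)
    (ha0 : ‖a 0‖ + σ ≤ ε) {y : ℂ} (hreach : ∀ k, 1 ≤ k → k ≤ J → ∀ w ∈ reach h ε y k, ‖w‖ ≤ R)
    (Q : Finset ℕ) (hQ : ∀ k ∈ Q, 1 ≤ k ∧ k < J ∧ ‖a k‖ ≤ ε / 2) {x : ℂ}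
    (hx : ‖h 0 x - h 0 y‖ ≤ σ / 2) :
    ‖cp (pl h a) 0 J x - cp (pl h a) 0 J y‖ * (1 + ε / (8 * R)) ^ Q.card ≤
      4 * R / σ * ‖h 0 x - h 0 y‖ := by
  classical
  set θ : ℝ := ε / (8 * R) with hθ
  have hθ0 : 0 < θ := by positivity
  set y1 : ℂ := h 0 y + a 0 with hy1
  set G : ℕ → ℂ → ℂ := cp (pl h a) 1 with hG
  have hGs : ∀ k z, G (k + 1) z = h (1 + k) (G k z) + a (1 + k) := fun k z => rfl
  set V : ℕ → Set ℂ := fun k => reach h ε y (k + 1) with hV
  have hVs : ∀ k v w, v ∈ V k → ‖w - h (1 + k) v‖ < ε → w ∈ V (k + 1) := by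
    intro k v w hv hw
    refine ⟨v, hv, ?_⟩
    rwa [Nat.add_comm k 1]
  have hb : ∀ k, k + 1 ≤ J → ∀ w ∈ V k, ‖w‖ ≤ R := fun k hk w hw =>
    hreach (k + 1) (Nat.succ_le_succ (Nat.zero_le k)) hk w hw
  have hV0 : ∀ z, ‖z - y1‖ < σ → z ∈ V 0 := by
    intro z hz
    refine ⟨y, rfl, ?_⟩
    have e1 : z - h 0 y = (z - y1) + a 0 := by rw [hy1]; ring
    rw [e1]
    have := norm_add_le (z - y1) (a 0)
    linarith
  have hdG : ∀ k, Differentiable ℂ (G k) := by
    intro k
    induction k with
    | zero => exact differentiable_id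
    | succ k ih =>
      have : G (k + 1) = fun z => h (1 + k) (G k z) + a (1 + k) := funext (hGs k)
      rw [this]
      exact ((hd (1 + k)).comp ih).add_const _
  have horb : ∀ k z, ‖z - y1‖ < σ → G k z ∈ V k := by
    intro k
    induction k with
    | zero => intro z hz; exact hV0 z hz
    | succ k ih =>
      intro z hz
      apply hVs k _ _ (ih z hz)
      rw [hGs, add_sub_cancel_left]
      exact ha _
  have claim : ∀ k, k + 1 ≤ J → ∀ z, ‖z - y1‖ < σ → ∀ u : ℂ → ℂ,
      (∀ w ∈ V k, DifferentiableAt ℂ u w) → (∀ w ∈ V k, ‖u w‖ ≤ 1) →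
      ‖deriv (fun z => u (G k z)) z‖ * (1 + θ) ^ (Q.filter (fun i => i ≤ k)).card ≤
        2 / (σ - ‖z - y1‖) := by
    intro k
    induction k with
    | zero =>
      intro _ z hz u hu1 hu2
      have e0 : (Q.filter (fun i => i ≤ 0)) = ∅ := by
        apply Finset.filter_eq_empty_iff.2
        intro i hi h0
        have := (hQ i hi).1
        omega
      rw [e0, Finset.card_empty, pow_zero, mul_one]
      have h1 : (fun z => u (G 0 z)) = u := rfl
      rw [h1]
      have ht : 0 < (σ - ‖z - y1‖) / 2 := by linarith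
      have hsub : Metric.closedBall z ((σ - ‖z - y1‖) / 2) ⊆ V 0 := by
        intro w hw
        rw [mem_closedBall_iff_norm] at hw
        apply hV0
        have h2 : ‖w - y1‖ ≤ ‖w - z‖ + ‖z - y1‖ := by
          calc ‖w - y1‖ = ‖(w - z) + (z - y1)‖ := by ring_nf
            _ ≤ _ := norm_add_le _ _
        linarith
      have h2 := Complex.norm_deriv_le_of_forall_mem_sphere_norm_le (f := u) (c := z) (C := 1) ht
        (by
          apply DifferentiableOn.diffContOnCl
          intro w hw
          exact (hu1 w (hsub (Metric.closure_ball_subset_closedBall hw))).differentiableWithinAt)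
        (fun w hw => hu2 w (hsub (Metric.sphere_subset_closedBall hw)))
      calc ‖deriv u z‖ ≤ 1 / ((σ - ‖z - y1‖) / 2) := h2
        _ = 2 / (σ - ‖z - y1‖) := by rw [one_div_div]
    | succ k ih =>
      intro hk z hz u hu1 hu2
      set c : ℂ := G (k + 1) z with hc
      have hcV : c ∈ V (k + 1) := horb (k + 1) z hz
      have hda : HasDerivAt (G (k + 1)) (deriv (G (k + 1)) z) z := (hdG (k + 1) z).hasDerivAt
      have hdu : HasDerivAt u (deriv u c) c := (hu1 c hcV).hasDerivAt
      have d1 : HasDerivAt (fun z => u (G (k + 1) z)) (deriv u c * deriv (G (k + 1)) z) z :=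
        HasDerivAt.comp z hdu hda
      rw [d1.deriv]
      by_cases hkQ : k + 1 ∈ Q
      · have hak : ‖a (1 + k)‖ ≤ ε / 2 := by
          have := (hQ _ hkQ).2.2
          rwa [Nat.add_comm 1 k]
        have hcard : (Q.filter (fun i => i ≤ k + 1)).card =
            (Q.filter (fun i => i ≤ k)).card + 1 := by
          have : Q.filter (fun i => i ≤ k + 1) = insert (k + 1) (Q.filter (fun i => i ≤ k)) := by
            ext i
            simp only [Finset.mem_filter, Finset.mem_insert]
            constructor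
            · rintro ⟨h1, h2⟩
              by_cases h3 : i = k + 1
              · exact Or.inl h3
              · exact Or.inr ⟨h1, by omega⟩
            · rintro (h1 | ⟨h1, h2⟩)
              · rw [h1]; exact ⟨hkQ, le_rfl⟩
              · exact ⟨h1, by omega⟩
          rw [this, Finset.card_insert_of_notMem]
          simp
        rw [hcard]
        set U : ℂ → ℂ := fun w => u ((h (1 + k) w + a (1 + k)) +
          (θ : ℂ) * ((h (1 + k) w + a (1 + k)) - c)) with hU
        have harg : ∀ w ∈ V k, (h (1 + k) w + a (1 + k)) +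
            (θ : ℂ) * ((h (1 + k) w + a (1 + k)) - c) ∈ V (k + 1) := by
          intro w hw
          apply hVs k w _ hw
          have e1 : h (1 + k) w + a (1 + k) ∈ V (k + 1) := by
            apply hVs k w _ hw
            rw [add_sub_cancel_left]
            exact ha _
          have e2 := hb (k + 1) hk _ e1
          have e3 := hb (k + 1) hk c hcV
          have e4 : (h (1 + k) w + a (1 + k)) + (θ : ℂ) * ((h (1 + k) w + a (1 + k)) - c) -
              h (1 + k) w = a (1 + k) + (θ : ℂ) * ((h (1 + k) w + a (1 + k)) - c) := by ring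
          rw [e4]
          have e5 := norm_add_le (a (1 + k)) ((θ : ℂ) * ((h (1 + k) w + a (1 + k)) - c))
          have e6 : ‖(θ : ℂ) * ((h (1 + k) w + a (1 + k)) - c)‖ ≤ ε / 4 := by
            rw [norm_mul, Complex.norm_real, Real.norm_eq_abs, abs_of_pos hθ0]
            have e7 := norm_sub_le (h (1 + k) w + a (1 + k)) c
            calc θ * ‖(h (1 + k) w + a (1 + k)) - c‖ ≤ θ * (R + R) := by
                  gcongr
                  linarith
              _ = ε / 4 := by rw [hθ]; field_simp; ring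
          linarith
        have h4 := ih (by omega) z hz U (by
          intro w hw
          have e1 : DifferentiableAt ℂ (fun w => h (1 + k) w + a (1 + k)) w :=
            (hd (1 + k) w).add_const _
          have e2 : DifferentiableAt ℂ (fun w => (h (1 + k) w + a (1 + k)) +
              (θ : ℂ) * ((h (1 + k) w + a (1 + k)) - c)) w :=
            e1.add ((e1.sub_const c).const_mul _)
          exact DifferentiableAt.comp w (hu1 _ (harg w hw)) e2)
          (fun w hw => hu2 _ (harg w hw))
        have d2 : HasDerivAt (fun z' => G (k + 1) z' + (θ : ℂ) * (G (k + 1) z' - c))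
            (deriv (G (k + 1)) z + (θ : ℂ) * deriv (G (k + 1)) z) z :=
          hda.add ((hda.sub_const c).const_mul _)
        have hval : G (k + 1) z + (θ : ℂ) * (G (k + 1) z - c) = c := by
          rw [← hc, sub_self, mul_zero, add_zero]
        have d3 : HasDerivAt (fun z' => U (G k z'))
            (deriv u c * (deriv (G (k + 1)) z + (θ : ℂ) * deriv (G (k + 1)) z)) z := by
          have hdu' : HasDerivAt u (deriv u c) (G (k + 1) z + (θ : ℂ) * (G (k + 1) z - c)) := by
            rw [hval]
            exact hdu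
          exact HasDerivAt.comp z hdu' d2
        rw [d3.deriv] at h4
        have e1 : deriv u c * (deriv (G (k + 1)) z + (θ : ℂ) * deriv (G (k + 1)) z)
            = ((1 + θ : ℝ) : ℂ) * (deriv u c * deriv (G (k + 1)) z) := by
          push_cast
          ring
        rw [e1, norm_mul, Complex.norm_real, Real.norm_eq_abs,
          abs_of_pos (by linarith : 0 < 1 + θ)] at h4
        calc ‖deriv u c * deriv (G (k + 1)) z‖ *
              (1 + θ) ^ ((Q.filter (fun i => i ≤ k)).card + 1)
            = (1 + θ) * ‖deriv u c * deriv (G (k + 1)) z‖ *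
              (1 + θ) ^ (Q.filter (fun i => i ≤ k)).card := by ring
          _ ≤ _ := h4
      · have hcard : Q.filter (fun i => i ≤ k + 1) = Q.filter (fun i => i ≤ k) := by
          ext i
          simp only [Finset.mem_filter]
          constructor
          · rintro ⟨h1, h2⟩
            refine ⟨h1, ?_⟩
            by_contra h3
            have : i = k + 1 := by omega
            rw [this] at h1
            exact hkQ h1
          · rintro ⟨h1, h2⟩
            exact ⟨h1, by omega⟩
        rw [hcard]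
        have harg : ∀ w ∈ V k, h (1 + k) w + a (1 + k) ∈ V (k + 1) := by
          intro w hw
          apply hVs k w _ hw
          rw [add_sub_cancel_left]
          exact ha _
        have h4 := ih (by omega) z hz (fun w => u (h (1 + k) w + a (1 + k))) (by
          intro w hw
          have e1 : DifferentiableAt ℂ (fun w => h (1 + k) w + a (1 + k)) w :=
            (hd (1 + k) w).add_const _
          exact DifferentiableAt.comp w (hu1 _ (harg w hw)) e1)
          (fun w hw => hu2 _ (harg w hw))
        have e1 : (fun z => u (h (1 + k) (G k z) + a (1 + k))) = fun z => u (G (k + 1) z) := rfl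
        rw [e1, d1.deriv] at h4
        exact h4
  -- conclusion
  obtain ⟨j, rfl⟩ : ∃ j, J = j + 1 := ⟨J - 1, by omega⟩
  have hQc : Q.filter (fun i => i ≤ j) = Q := by
    apply Finset.filter_true_of_mem
    intro i hi
    have := (hQ i hi).2.1
    omega
  have hder : ∀ z ∈ Metric.closedBall y1 (σ / 2),
      ‖deriv (G j) z‖ ≤ 4 * R / σ / (1 + θ) ^ Q.card := by
    intro z hz
    rw [mem_closedBall_iff_norm] at hz
    have hz' : ‖z - y1‖ < σ := by linarith
    have h1 := claim j le_rfl z hz' (fun w => w * ((R : ℂ))⁻¹) (fun w _ => by fun_prop) (by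
      intro w hw
      rw [norm_mul, norm_inv, Complex.norm_real, Real.norm_eq_abs, abs_of_pos hR]
      rw [← div_eq_mul_inv, div_le_one hR]
      exact hb j le_rfl w hw)
    rw [hQc] at h1
    have h2 : deriv (fun z => G j z * ((R : ℂ))⁻¹) z = deriv (G j) z * ((R : ℂ))⁻¹ :=
      (((hdG j) z).hasDerivAt.mul_const _).deriv
    rw [h2, norm_mul, norm_inv, Complex.norm_real, Real.norm_eq_abs, abs_of_pos hR] at h1
    have h3 : 2 / (σ - ‖z - y1‖) ≤ 4 / σ := by
      rw [div_le_div_iff₀ (by linarith) hσ]
      nlinarith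
    have h4 : ‖deriv (G j) z‖ * R⁻¹ * (1 + θ) ^ Q.card ≤ 4 / σ := h1.trans h3
    have hp1 : (0 : ℝ) < (1 + θ) ^ Q.card := by positivity
    rw [le_div_iff₀ hp1]
    calc ‖deriv (G j) z‖ * (1 + θ) ^ Q.card
        = (‖deriv (G j) z‖ * R⁻¹ * (1 + θ) ^ Q.card) * R := by field_simp
      _ ≤ 4 / σ * R := by gcongr
      _ = 4 * R / σ := by ring
  have e1 : cp (pl h a) 0 (j + 1) x = G j (h 0 x + a 0) := by
    rw [cp_succ']
    rfl
  have e2 : cp (pl h a) 0 (j + 1) y = G j y1 := by
    rw [cp_succ']
    rfl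
  have e3 : (h 0 x + a 0) - y1 = h 0 x - h 0 y := by rw [hy1]; ring
  have hmv := Convex.norm_image_sub_le_of_norm_deriv_le (𝕜 := ℂ) (f := G j)
    (s := Metric.closedBall y1 (σ / 2)) (x := y1) (y := h 0 x + a 0)
    (fun w _ => hdG j w) hder (convex_closedBall _ _)
    (Metric.mem_closedBall_self (by positivity)) (by rw [mem_closedBall_iff_norm, e3]; exact hx)
  rw [e1, e2]
  rw [e3] at hmv
  have hp1 : (0 : ℝ) < (1 + θ) ^ Q.card := by positivity
  calc ‖G j (h 0 x + a 0) - G j y1‖ * (1 + θ) ^ Q.card
      ≤ (4 * R / σ / (1 + θ) ^ Q.card * ‖h 0 x - h 0 y‖) * (1 + θ) ^ Q.card := by gcongr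
    _ = 4 * R / σ * ‖h 0 x - h 0 y‖ := by field_simp

end Pool.Agent.H35.ME
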