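import Mathlib
import Pool.Agent.H35.ME.Defs

/-!
# Following an escaping pseudo-orbit
-/

set_option autoImplicit false

open Pool.Agent.H84.UC

namespace Pool.Agent.H35.ME

/-- a pseudo-orbit for a point of `esc` -/
theorem esc_path {h : ℕ → ℂ → ℂ} {ε R : ℝ} (hε : 0 < ε) (j : ℕ) : ∀ (s : ℕ) (y : ℂ),
    y ∈ esc h ε R j s → ∃ w : ℕ → ℂ, w 0 = y ∧ R < ‖w j‖ ∧
      ∀ i, ‖w (i + 1) - h (s + i) (w i)‖ < ε := by
  induction j with
  | zero =>
    intro s y hy
    refine ⟨fun i => cp h s i y, rfl, hy, fun i => ?_⟩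
    show ‖cp h s (i + 1) y - h (s + i) (cp h s i y)‖ < ε
    rw [cp_succ, sub_self, norm_zero]
    exact hε
  | succ j ih =>
    intro s y hy
    obtain ⟨w1, hw1, hd⟩ := hy
    obtain ⟨w, hw0, hwj, hw⟩ := ih (s + 1) w1 hw1
    refine ⟨fun i => if i = 0 then y else w (i - 1), by simp, ?_, ?_⟩
    · show R < ‖(if j + 1 = 0 then y else w (j + 1 - 1))‖
      rw [if_neg (by omega), Nat.add_sub_cancel]
      exact hwj
    · intro i
      rcases Nat.eq_zero_or_pos i with hi | hi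
      · subst hi
        show ‖(if 0 + 1 = 0 then y else w (0 + 1 - 1)) - h (s + 0) (if 0 = 0 then y else w (0 - 1))‖ < ε
        rw [if_neg (by omega), if_pos rfl, Nat.add_sub_cancel, hw0]
        exact hd
      · obtain ⟨i', rfl⟩ : ∃ i', i = i' + 1 := ⟨i - 1, by omega⟩
        show ‖(if i' + 1 + 1 = 0 then y else w (i' + 1 + 1 - 1)) -
          h (s + (i' + 1)) (if i' + 1 = 0 then y else w (i' + 1 - 1))‖ < ε
        rw [if_neg (by omega), if_neg (by omega), Nat.add_sub_cancel, Nat.add_sub_cancel]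
        have := hw i'
        have e : s + (i' + 1) = s + 1 + i' := by omega
        rw [e]
        exact this

theorem follow (h : ℕ → ℂ → ℂ) {ε R Λ τ : ℝ} {J s : ℕ} (hε : 0 < ε) (hΛ : 1 ≤ Λ)
    (hlip : ∀ t w z, ‖w‖ ≤ R → ‖z - w‖ ≤ 1 → ‖h t z - h t w‖ ≤ Λ * ‖z - w‖) (hτ : 0 < τ)
    (hτε : τ ≤ ε) (hJτ : J * Λ ^ J * τ ≤ 1) {y : ℂ} (hy : ‖y‖ ≤ R) (hNS : y ∈ NS h ε R J s) :
    ∃ (k : ℕ) (c : ℕ → ℂ), 1 ≤ k ∧ k ≤ J ∧ (∀ j, ‖c j‖ + τ / 2 ≤ ε) ∧
      ∀ a : ℕ → ℂ, (∀ j < J, ‖a (s + j) - c j‖ < τ / 2) → R - 1 < ‖cp (pl h a) s k y‖ := by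
  classical
  -- a path that exceeds `R`
  have hex : ∃ k, 1 ≤ k ∧ k ≤ J ∧ ∃ w : ℕ → ℂ, w 0 = y ∧ R < ‖w k‖ ∧
      ∀ i, ‖w (i + 1) - h (s + i) (w i)‖ < ε := by
    obtain ⟨j, hj1, hj2, hj⟩ := hNS
    exact ⟨j, hj1, hj2, esc_path hε j s y hj⟩
  set k := Nat.find hex with hk
  obtain ⟨hk1, hkJ, w, hw0, hwk, hw⟩ := Nat.find_spec hex
  rw [← hk] at hk1 hkJ hwk
  have hmin : ∀ i < k, ‖w i‖ ≤ R := by
    intro i hi
    rcases Nat.eq_zero_or_pos i with h0 | h0
    · rw [h0, hw0]; exact hy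
    · by_contra hc
      push Not at hc
      exact Nat.find_min hex hi ⟨h0, by omega, w, hw0, hc, hw⟩
  set lam : ℝ := 1 - τ / (2 * ε) with hlam
  have hlam0 : 0 ≤ lam := by
    rw [hlam, sub_nonneg, div_le_one (by positivity)]
    linarith
  have hlam1 : lam ≤ 1 := by
    rw [hlam]
    have : 0 < τ / (2 * ε) := by positivity
    linarith
  refine ⟨k, fun j => (lam : ℂ) * (w (j + 1) - h (s + j) (w j)), hk1, hkJ, ?_, ?_⟩
  · intro j
    rw [norm_mul, Complex.norm_real, Real.norm_eq_abs, abs_of_nonneg hlam0]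
    have h1 : lam * ‖w (j + 1) - h (s + j) (w j)‖ ≤ lam * ε :=
      mul_le_mul_of_nonneg_left (hw j).le hlam0
    have h2 : lam * ε = ε - τ / 2 := by
      rw [hlam]
      field_simp
    linarith
  · intro a hha
    -- estimate of the kicks
    have hkick : ∀ j < J, ‖a (s + j) - (w (j + 1) - h (s + j) (w j))‖ < τ := by
      intro j hj
      have h1 := hha j hj
      set c := w (j + 1) - h (s + j) (w j) with hc
      have h2 : a (s + j) - c = (a (s + j) - (lam : ℂ) * c) + ((lam : ℂ) * c - c) := by ring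
      have h3 : ‖(lam : ℂ) * c - c‖ ≤ τ / 2 := by
        have h4 : (lam : ℂ) * c - c = (((lam - 1 : ℝ)) : ℂ) * c := by
          push_cast
          ring
        rw [h4, norm_mul, Complex.norm_real, Real.norm_eq_abs, abs_of_nonpos (by linarith)]
        have h5 : -(lam - 1) = τ / (2 * ε) := by rw [hlam]; ring
        rw [h5]
        calc τ / (2 * ε) * ‖c‖ ≤ τ / (2 * ε) * ε := by
              gcongr
              exact (hw j).le
          _ = τ / 2 := by field_simp
      rw [h2]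
      have := norm_add_le (a (s + j) - (lam : ℂ) * c) ((lam : ℂ) * c - c)
      linarith
    have hΛ0 : 0 < Λ := by linarith
    have hest : ∀ i ≤ k, ‖cp (pl h a) s i y - w i‖ ≤ i * Λ ^ i * τ := by
      intro i
      induction i with
      | zero =>
        intro _
        rw [cp_zero, hw0, sub_self, norm_zero]
        simp
      | succ i ih =>
        intro hi
        have h1 := ih (by omega)
        have h2 : (i : ℝ) * Λ ^ i * τ ≤ 1 := by
          refine le_trans ?_ hJτ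
          have e1 : (i : ℝ) ≤ J := by exact_mod_cast (by omega : i ≤ J)
          have e2 : Λ ^ i ≤ Λ ^ J := pow_le_pow_right₀ hΛ (by omega)
          gcongr
        have h3 := hlip (s + i) (w i) (cp (pl h a) s i y) (hmin i (by omega)) (h1.trans h2)
        have h4 := hkick i (by omega)
        have e1 : cp (pl h a) s (i + 1) y - w (i + 1) =
            (h (s + i) (cp (pl h a) s i y) - h (s + i) (w i)) +
              (a (s + i) - (w (i + 1) - h (s + i) (w i))) := by
          rw [cp_succ]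
          unfold pl
          ring
        rw [e1]
        have h5 := norm_add_le (h (s + i) (cp (pl h a) s i y) - h (s + i) (w i))
          (a (s + i) - (w (i + 1) - h (s + i) (w i)))
        have h6 : Λ * ‖cp (pl h a) s i y - w i‖ ≤ Λ * (i * Λ ^ i * τ) :=
          mul_le_mul_of_nonneg_left h1 hΛ0.le
        have h7 : τ ≤ Λ ^ (i + 1) * τ := by
          have : 1 ≤ Λ ^ (i + 1) := one_le_pow₀ hΛ
          nlinarith
        have h8 : Λ * (i * Λ ^ i * τ) + Λ ^ (i + 1) * τ = ((i + 1 : ℕ) : ℝ) * Λ ^ (i + 1) * τ := by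
          push_cast
          ring
        linarith
    have h1 := hest k le_rfl
    have h2 : (k : ℝ) * Λ ^ k * τ ≤ 1 := by
      refine le_trans ?_ hJτ
      have e1 : (k : ℝ) ≤ J := by exact_mod_cast hkJ
      have e2 : Λ ^ k ≤ Λ ^ J := pow_le_pow_right₀ hΛ hkJ
      gcongr
    have h3 : ‖w k‖ ≤ ‖cp (pl h a) s k y‖ + ‖cp (pl h a) s k y - w k‖ := by
      have e1 : w k = cp (pl h a) s k y - (cp (pl h a) s k y - w k) := by ring
      calc ‖w k‖ = ‖cp (pl h a) s k y - (cp (pl h a) s k y - w k)‖ := by rw [← e1]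
        _ ≤ _ := norm_sub_le _ _
    linarith

end Pool.Agent.H35.ME
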