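import Mathlib
import Pool.Agent.H35.ME.Contr
import Pool.Agent.H35.ME.Follow
import Pool.Agent.H35.UP.Final

/-!
# Blocks of random polynomials: contraction in the chordal metric
-/

set_option autoImplicit false

open Filter Topology OnePoint Polynomial
open Pool.Agent.H44.Fatou
open Pool.Agent.H84.UC
open Pool.Agent.H35.UP (Adm rat_one rat_one_infty half lip_all)
open Pool.Agent.H91.Fatou (nn nn_pos)

namespace Pool.Agent.H35.ME

/-- the kicked polynomials as maps of the sphere -/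
noncomputable def Gm (P : ℕ → Polynomial ℂ) (a : ℕ → ℂ) (t : ℕ) : Sph → Sph :=
  rat (P t + C (a t)) 1

/-- evaluation maps -/
noncomputable def ev (P : ℕ → Polynomial ℂ) (t : ℕ) (z : ℂ) : ℂ := (P t).eval z

theorem ev_diff (P : ℕ → Polynomial ℂ) (t : ℕ) : Differentiable ℂ (ev P t) :=
  (P t).differentiable

theorem cp_coe (P : ℕ → Polynomial ℂ) (a : ℕ → ℂ) (s k : ℕ) (z : ℂ) :
    cp (Gm P a) s k (z : Sph) = ((cp (pl (ev P) a) s k z : ℂ) : Sph) := by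
  induction k with
  | zero => rfl
  | succ k ih =>
    rw [cp_succ, cp_succ, ih]
    unfold Gm
    rw [rat_one]
    unfold pl ev
    simp

theorem adm_add {d : ℕ} {B ε : ℝ} (hB : 1 ≤ B) (hε : 0 < ε) {P : Polynomial ℂ} (hP : Adm d B P)
    {a : ℂ} (ha : ‖a‖ ≤ ε) : Adm d (B + ε) (P + C a) := by
  obtain ⟨h1, h2, h3, h4⟩ := hP
  have hdeg : (P + C a).natDegree = P.natDegree := natDegree_add_C
  have hlc : (P + C a).leadingCoeff = P.leadingCoeff := by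
    rw [leadingCoeff, leadingCoeff, hdeg, coeff_add, coeff_C, if_neg (by omega), add_zero]
  refine ⟨by omega, by omega, ?_, ?_⟩
  · intro i
    rw [coeff_add, coeff_C]
    split_ifs
    · exact (norm_add_le _ _).trans (add_le_add (h3 i) ha)
    · rw [add_zero]
      have := h3 i
      linarith
  · rw [hlc]
    refine le_trans ?_ h4
    apply one_div_le_one_div_of_le <;> linarith

theorem pow_lip {M : ℝ} (hM : 1 ≤ M) {z w : ℂ} (hz : ‖z‖ ≤ M) (hw : ‖w‖ ≤ M) (i : ℕ) :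
    ‖z ^ i - w ^ i‖ ≤ i * M ^ i * ‖z - w‖ := by
  induction i with
  | zero => simp
  | succ i ih =>
    have e1 : z ^ (i + 1) - w ^ (i + 1) = z * (z ^ i - w ^ i) + (z - w) * w ^ i := by ring
    rw [e1]
    have e2 := norm_add_le (z * (z ^ i - w ^ i)) ((z - w) * w ^ i)
    rw [norm_mul, norm_mul, norm_pow] at e2
    have e3 : ‖z‖ * ‖z ^ i - w ^ i‖ ≤ M * (i * M ^ i * ‖z - w‖) := by gcongr
    have e4 : ‖z - w‖ * ‖w‖ ^ i ≤ ‖z - w‖ * M ^ (i + 1) := by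
      gcongr
      calc ‖w‖ ^ i ≤ M ^ i := by gcongr
        _ ≤ M ^ (i + 1) := pow_le_pow_right₀ hM (Nat.le_succ i)
    have e5 : M * (i * M ^ i * ‖z - w‖) + ‖z - w‖ * M ^ (i + 1) =
        ((i + 1 : ℕ) : ℝ) * M ^ (i + 1) * ‖z - w‖ := by
      push_cast
      ring
    linarith

theorem poly_lip (d : ℕ) {B R : ℝ} (hB : 0 ≤ B) (hR : 0 ≤ R) : ∃ Λ : ℝ, 1 ≤ Λ ∧
    ∀ P : Polynomial ℂ, P.natDegree ≤ d → (∀ i, ‖P.coeff i‖ ≤ B) → ∀ w z : ℂ, ‖w‖ ≤ R →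
      ‖z - w‖ ≤ 1 → ‖P.eval z - P.eval w‖ ≤ Λ * ‖z - w‖ := by
  set M : ℝ := R + 1 with hM
  have hM1 : 1 ≤ M := by linarith
  refine ⟨max 1 (∑ i ∈ Finset.range (d + 1), B * (i * M ^ i)), le_max_left _ _, ?_⟩
  intro P hdeg hco w z hw hz
  have hzM : ‖z‖ ≤ M := by
    have : ‖z‖ ≤ ‖z - w‖ + ‖w‖ := by
      calc ‖z‖ = ‖(z - w) + w‖ := by ring_nf
        _ ≤ _ := norm_add_le _ _
    linarith
  rw [eval_eq_sum_range' (show P.natDegree < d + 1 by omega),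
    eval_eq_sum_range' (show P.natDegree < d + 1 by omega), ← Finset.sum_sub_distrib]
  calc ‖∑ i ∈ Finset.range (d + 1), (P.coeff i * z ^ i - P.coeff i * w ^ i)‖
      ≤ ∑ i ∈ Finset.range (d + 1), B * (i * M ^ i) * ‖z - w‖ := by
        refine norm_sum_le_of_le _ (fun i _ => ?_)
        rw [← mul_sub, norm_mul]
        calc ‖P.coeff i‖ * ‖z ^ i - w ^ i‖ ≤ B * (i * M ^ i * ‖z - w‖) :=
              mul_le_mul (hco i) (pow_lip hM1 hzM (by linarith) i) (norm_nonneg _) hB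
          _ = B * (i * M ^ i) * ‖z - w‖ := by ring
    _ = (∑ i ∈ Finset.range (d + 1), B * (i * M ^ i)) * ‖z - w‖ := by rw [Finset.sum_mul]
    _ ≤ _ := by
        apply mul_le_mul_of_nonneg_right (le_max_right _ _) (norm_nonneg _)

theorem near_fin {R δ : ℝ} (hR : 0 ≤ R) (hδ : (1 + R) * δ ≤ 1 / 2) {y : ℂ} (hy : ‖y‖ ≤ R)
    {x : Sph} (hx : dist x (y : Sph) ≤ δ) :
    ∃ z : ℂ, x = (z : Sph) ∧ ‖z - y‖ ≤ 2 * (1 + R) ^ 2 * dist x (y : Sph) := by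
  have hny : nn y 1 ≤ 1 + R := (nn_le y).trans (by linarith)
  have p1 : 0 < nn y 1 := nn_pos (Or.inr one_ne_zero)
  induction x using OnePoint.rec with
  | infty =>
    exfalso
    rw [dist_comm, dist_coe_infty] at hx
    have h1 : 1 / (1 + R) ≤ 1 / nn y 1 := one_div_le_one_div_of_le p1 hny
    have h2 : 1 / (1 + R) ≤ δ := h1.trans hx
    rw [div_le_iff₀ (by linarith)] at h2
    linarith
  | coe z =>
    refine ⟨z, rfl, ?_⟩
    have p2 : 0 < nn z 1 := nn_pos (Or.inr one_ne_zero)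
    set D := dist (z : Sph) (y : Sph) with hD
    have h1 : ‖z - y‖ = D * (nn z 1 * nn y 1) := by
      rw [hD, dist_coe, div_mul_cancel₀ _ (by positivity)]
    have hD0 : 0 ≤ D := dist_nonneg
    have h2 : nn z 1 ≤ 1 + R + ‖z - y‖ := by
      have e1 := nn_le z
      have e2 : ‖z‖ ≤ ‖z - y‖ + ‖y‖ := by
        calc ‖z‖ = ‖(z - y) + y‖ := by ring_nf
          _ ≤ _ := norm_add_le _ _
      linarith
    have h3 : ‖z - y‖ ≤ D * ((1 + R + ‖z - y‖) * (1 + R)) := by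
      calc ‖z - y‖ = D * (nn z 1 * nn y 1) := h1
        _ ≤ D * ((1 + R + ‖z - y‖) * (1 + R)) := by
            gcongr
    have h4 : (1 + R) * D ≤ 1 / 2 := by
      calc (1 + R) * D ≤ (1 + R) * δ := by gcongr
        _ ≤ 1 / 2 := hδ
    have h5 : D * ((1 + R + ‖z - y‖) * (1 + R)) =
        D * (1 + R) ^ 2 + ((1 + R) * D) * ‖z - y‖ := by ring
    have h6 : ((1 + R) * D) * ‖z - y‖ ≤ 1 / 2 * ‖z - y‖ :=
      mul_le_mul_of_nonneg_right h4 (norm_nonneg _)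
    nlinarith

theorem blk_contr {P : ℕ → Polynomial ℂ} {a : ℕ → ℂ} {ε R σ Λ ρL : ℝ} (hε : 0 < ε) (hR : 0 < R)
    (hσ : 0 < σ) (hΛ : 1 ≤ Λ)
    (hlip : ∀ t w z, ‖w‖ ≤ R → ‖z - w‖ ≤ 1 → ‖ev P t z - ev P t w‖ ≤ Λ * ‖z - w‖)
    {J s m : ℕ} (hJ : 1 ≤ J) (ha : ∀ k, ‖a k‖ < ε) (ha0 : ‖a s‖ + σ ≤ ε)
    (Q : Finset ℕ) (hQ : ∀ k ∈ Q, 1 ≤ k ∧ k < J ∧ ‖a (s + k)‖ ≤ ε / 2) (hm : m ≤ Q.card)
    (h1 : 2 * (1 + R) ^ 2 * ρL ≤ 1) (h2 : Λ * (2 * (1 + R) ^ 2 * ρL) ≤ σ / 2)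
    (h3 : 4 * R / σ * (Λ * (2 * (1 + R) ^ 2)) ≤ (1 + ε / (8 * R)) ^ m / 2)
    {y : ℂ} (hy : ‖y‖ ≤ R) (hNS : y ∉ NS (ev P) ε R J s) (x : Sph)
    (hx : dist x (y : Sph) ≤ ρL) :
    dist (cp (Gm P a) s J x) (cp (Gm P a) s J (y : Sph)) ≤ dist x (y : Sph) / 2 := by
  have hρL : 0 ≤ ρL := dist_nonneg.trans hx
  have h5 : (1 + R) * ρL ≤ 1 / 2 := by
    have : (1 + R) * ρL ≤ (1 + R) ^ 2 * ρL := by
      apply mul_le_mul_of_nonneg_right _ hρL
      nlinarith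
    linarith
  obtain ⟨z, rfl, hz⟩ := near_fin hR.le h5 hy hx
  set D := dist (z : Sph) (y : Sph) with hD
  have hD0 : 0 ≤ D := dist_nonneg
  have hz1 : ‖z - y‖ ≤ 2 * (1 + R) ^ 2 * ρL := hz.trans (by gcongr)
  have hst : ‖ev P s z - ev P s y‖ ≤ Λ * ‖z - y‖ := hlip s y z hy (hz1.trans h1)
  have hst2 : ‖ev P s z - ev P s y‖ ≤ σ / 2 := by
    refine hst.trans (le_trans ?_ h2)
    gcongr
  have hc := contr (fun t => ev P (s + t)) (fun t => ev_diff P (s + t)) hε hR hσ hJ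
    (fun t => a (s + t)) (fun k => ha _) ha0 (y := y) (reach_bdd hNS) Q hQ (x := z) hst2
  have e1 : ∀ w, cp (pl (fun t => ev P (s + t)) (fun t => a (s + t))) 0 J w =
      cp (pl (ev P) a) s J w := fun w => cp_shift (pl (ev P) a) s 0 J w
  rw [e1, e1] at hc
  rw [cp_coe, cp_coe]
  refine (dist_coe_le _ _).trans ?_
  have hθ : (1 : ℝ) ≤ 1 + ε / (8 * R) := by
    have : 0 < ε / (8 * R) := by positivity
    linarith
  have hp : (1 + ε / (8 * R)) ^ m ≤ (1 + ε / (8 * R)) ^ Q.card := pow_le_pow_right₀ hθ hm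
  have hp0 : (0 : ℝ) < (1 + ε / (8 * R)) ^ m := by positivity
  set X := ‖cp (pl (ev P) a) s J z - cp (pl (ev P) a) s J y‖ with hX
  have hX0 : 0 ≤ X := norm_nonneg _
  have h6 : X * (1 + ε / (8 * R)) ^ m ≤ D / 2 * (1 + ε / (8 * R)) ^ m := by
    calc X * (1 + ε / (8 * R)) ^ m ≤ X * (1 + ε / (8 * R)) ^ Q.card := by gcongr
      _ ≤ 4 * R / σ * ‖ev P s z - ev P s y‖ := hc
      _ ≤ 4 * R / σ * (Λ * (2 * (1 + R) ^ 2 * D)) := by
          gcongr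
          exact hst.trans (by gcongr)
      _ = 4 * R / σ * (Λ * (2 * (1 + R) ^ 2)) * D := by ring
      _ ≤ (1 + ε / (8 * R)) ^ m / 2 * D := by gcongr
      _ = D / 2 * (1 + ε / (8 * R)) ^ m := by ring
  exact le_of_mul_le_mul_right h6 hp0

end Pool.Agent.H35.ME
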