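import Mathlib
import Pool.Agent.H35.ME.Blk

/-!
# Words of admissible polynomials are admissible
-/

set_option autoImplicit false

open Polynomial OnePoint
open Pool.Agent.H44.Fatou
open Pool.Agent.H84.UC
open Pool.Agent.H35.UP (Adm rat_one rat_one_infty)

namespace Pool.Agent.H35.ME

theorem coeff_mul_le {P Q : Polynomial ℂ} {e : ℕ} {K B : ℝ} (hK : 0 ≤ K) (hB : 0 ≤ B)
    (hQ : Q.natDegree ≤ e) (h1 : ∀ j, ‖P.coeff j‖ ≤ K) (h2 : ∀ j, ‖Q.coeff j‖ ≤ B) (j : ℕ) :
    ‖(Q * P).coeff j‖ ≤ ((e : ℝ) + 1) * B * K := by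
  rw [coeff_mul, Finset.Nat.sum_antidiagonal_eq_sum_range_succ_mk]
  calc ‖∑ k ∈ Finset.range j.succ, Q.coeff k * P.coeff (j - k)‖
      ≤ ∑ k ∈ Finset.range j.succ, (if k < e + 1 then B * K else 0) := by
        refine norm_sum_le_of_le _ (fun k _ => ?_)
        rw [norm_mul]
        split_ifs with hk
        · exact mul_le_mul (h2 k) (h1 _) (norm_nonneg _) hB
        · rw [coeff_eq_zero_of_natDegree_lt (by omega), norm_zero, zero_mul]
    _ = ((Finset.range j.succ).filter (fun k => k < e + 1)).card * (B * K) := by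
        rw [← Finset.sum_filter, Finset.sum_const, nsmul_eq_mul]
    _ ≤ ((e : ℝ) + 1) * (B * K) := by
        apply mul_le_mul_of_nonneg_right _ (by positivity)
        have h3 : ((Finset.range j.succ).filter (fun k => k < e + 1)).card ≤ e + 1 := by
          calc _ ≤ (Finset.range (e + 1)).card := by
                apply Finset.card_le_card
                intro k hk
                rw [Finset.mem_filter] at hk
                exact Finset.mem_range.2 hk.2
            _ = e + 1 := Finset.card_range _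
        exact_mod_cast h3
    _ = ((e : ℝ) + 1) * B * K := by ring

theorem coeff_pow_le {Q : Polynomial ℂ} {e : ℕ} {B : ℝ} (hB : 0 ≤ B)
    (hQ : Q.natDegree ≤ e) (h2 : ∀ j, ‖Q.coeff j‖ ≤ B) (i : ℕ) : ∀ j,
    ‖(Q ^ i).coeff j‖ ≤ (((e : ℝ) + 1) * B) ^ i := by
  induction i with
  | zero =>
    intro j
    rw [pow_zero, pow_zero, coeff_one]
    split_ifs <;> simp
  | succ i ih =>
    intro j
    rw [pow_succ', pow_succ']
    exact coeff_mul_le (by positivity) hB hQ ih h2 j

theorem adm_comp {d e : ℕ} {B B' : ℝ} (hB : 1 ≤ B) (hB' : 1 ≤ B') {P Q : Polynomial ℂ}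
    (hP : Adm d B P) (hQ : Adm e B' Q) :
    Adm (d * e) (((d : ℝ) + 1) * B * (((e : ℝ) + 1) * B') ^ d) (P.comp Q) := by
  obtain ⟨p1, p2, p3, p4⟩ := hP
  obtain ⟨q1, q2, q3, q4⟩ := hQ
  have he : (1 : ℝ) ≤ (e : ℝ) + 1 := by
    have : (0 : ℝ) ≤ e := Nat.cast_nonneg e
    linarith
  have hd : (1 : ℝ) ≤ (d : ℝ) + 1 := by
    have : (0 : ℝ) ≤ d := Nat.cast_nonneg d
    linarith
  have hK : 1 ≤ ((e : ℝ) + 1) * B' := by nlinarith
  refine ⟨?_, ?_, ?_, ?_⟩
  · rw [natDegree_comp]
    nlinarith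
  · rw [natDegree_comp]
    exact Nat.mul_le_mul p2 q2
  · intro j
    rw [comp, eval₂_eq_sum_range, finset_sum_coeff]
    calc ‖∑ i ∈ Finset.range (P.natDegree + 1), (C (P.coeff i) * Q ^ i).coeff j‖
        ≤ ∑ i ∈ Finset.range (P.natDegree + 1), B * (((e : ℝ) + 1) * B') ^ d := by
          refine norm_sum_le_of_le _ (fun i hi => ?_)
          rw [coeff_C_mul, norm_mul]
          have hi' : i ≤ d := by
            have := Finset.mem_range.1 hi
            omega
          refine mul_le_mul (p3 i) ?_ (norm_nonneg _) (by linarith)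
          exact (coeff_pow_le (by linarith) q2 q3 i j).trans (pow_le_pow_right₀ hK hi')
      _ = ((P.natDegree + 1 : ℕ) : ℝ) * (B * (((e : ℝ) + 1) * B') ^ d) := by
          rw [Finset.sum_const, Finset.card_range, nsmul_eq_mul]
      _ ≤ ((d : ℝ) + 1) * (B * (((e : ℝ) + 1) * B') ^ d) := by
          apply mul_le_mul_of_nonneg_right _ (by positivity)
          exact_mod_cast Nat.succ_le_succ p2
      _ = _ := by ring
  · rw [leadingCoeff_comp (by omega), norm_mul, norm_pow]
    have h1 : (1 / B') ^ d ≤ ‖Q.leadingCoeff‖ ^ P.natDegree := by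
      calc (1 / B') ^ d ≤ (1 / B') ^ P.natDegree := by
            apply pow_le_pow_of_le_one (by positivity) _ p2
            rw [div_le_one (by linarith)]
            exact hB'
        _ ≤ ‖Q.leadingCoeff‖ ^ P.natDegree := by gcongr
    have h2 : 1 / B * (1 / B') ^ d ≤ ‖P.leadingCoeff‖ * ‖Q.leadingCoeff‖ ^ P.natDegree :=
      mul_le_mul p4 h1 (by positivity) (norm_nonneg _)
    refine le_trans ?_ h2
    rw [one_div_pow, one_div_mul_one_div]
    apply one_div_le_one_div_of_le (by positivity)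
    calc B * B' ^ d = 1 * B * (1 * B') ^ d := by ring
      _ ≤ ((d : ℝ) + 1) * B * (((e : ℝ) + 1) * B') ^ d := by gcongr

theorem adm_mono {d d' : ℕ} {B B' : ℝ} (hB : 1 ≤ B) (hd : d ≤ d') (hBB : B ≤ B')
    {P : Polynomial ℂ} (hP : Adm d B P) : Adm d' B' P := by
  obtain ⟨p1, p2, p3, p4⟩ := hP
  refine ⟨p1, p2.trans hd, fun i => (p3 i).trans hBB, le_trans ?_ p4⟩
  apply one_div_le_one_div_of_le (by linarith) hBB

/-- the word `P (s+j-1) ∘ ... ∘ P s` -/
noncomputable def wd (P : ℕ → Polynomial ℂ) (s : ℕ) : ℕ → Polynomial ℂ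
  | 0 => X
  | j + 1 => (P (s + j)).comp (wd P s j)

theorem adm_wd {d : ℕ} {B : ℝ} (hB : 1 ≤ B) (M : ℕ) : ∃ (D : ℕ) (B' : ℝ), 1 ≤ B' ∧
    ∀ P : ℕ → Polynomial ℂ, (∀ j, Adm d B (P j)) → ∀ s j : ℕ, 1 ≤ j → j ≤ M →
      Adm D B' (wd P s j) := by
  induction M with
  | zero => exact ⟨0, 1, le_rfl, fun P _ s j h1 h2 => by omega⟩
  | succ M ih =>
    obtain ⟨D, B', hB', h⟩ := ih
    set B2 : ℝ := ((d : ℝ) + 1) * B * (((D : ℝ) + 1) * B') ^ d with hB2
    refine ⟨max (max D d) (d * D), max (max B' B) B2, le_max_of_le_left (le_max_of_le_left hB'), ?_⟩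
    intro P hP s j h1 h2
    rcases Nat.lt_or_ge j (M + 1) with hj | hj
    · exact adm_mono hB' ((le_max_left _ _).trans (le_max_left _ _))
        ((le_max_left _ _).trans (le_max_left _ _)) (h P hP s j h1 (by omega))
    · have hjM : j = M + 1 := by omega
      subst hjM
      rcases Nat.eq_zero_or_pos M with hM | hM
      · subst hM
        have h3 : wd P s (0 + 1) = P s := by
          show (P (s + 0)).comp X = P s
          rw [comp_X, Nat.add_zero]
        rw [h3]
        exact adm_mono hB ((le_max_right _ _).trans (le_max_left _ _))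
          ((le_max_right _ _).trans (le_max_left _ _)) (hP s)
      · have h3 := adm_comp hB hB' (hP (s + M)) (h P hP s M hM le_rfl)
        have hB21 : 1 ≤ B2 := by
          have e1 : (1 : ℝ) ≤ (d : ℝ) + 1 := by
            have : (0 : ℝ) ≤ d := Nat.cast_nonneg d
            linarith
          have e2 : (1 : ℝ) ≤ (D : ℝ) + 1 := by
            have : (0 : ℝ) ≤ D := Nat.cast_nonneg D
            linarith
          have e3 : (1 : ℝ) ≤ (((D : ℝ) + 1) * B') ^ d := one_le_pow₀ (by nlinarith)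
          have e4 : (1 : ℝ) ≤ ((d : ℝ) + 1) * B := by nlinarith
          rw [hB2]
          nlinarith
        exact adm_mono hB21 (le_max_right _ _) (le_max_right _ _) h3

theorem rat_comp {A Q : Polynomial ℂ} (hA : 1 ≤ A.natDegree) (hQ : 1 ≤ Q.natDegree) (x : Sph) :
    rat (A.comp Q) 1 x = rat A 1 (rat Q 1 x) := by
  induction x using OnePoint.rec with
  | infty =>
    rw [rat_one_infty hQ, rat_one_infty hA, rat_one_infty]
    rw [natDegree_comp]
    exact Nat.mul_pos hA hQ
  | coe z => rw [rat_one, rat_one, rat_one, eval_comp]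

theorem rat_X (x : Sph) : rat X 1 x = x := by
  induction x using OnePoint.rec with
  | infty => rw [rat_one_infty (by simp)]
  | coe z => rw [rat_one, eval_X]

/-- a word with a kick at the end only -/
theorem cp_wd {P : ℕ → Polynomial ℂ} (hP : ∀ j, 2 ≤ (P j).natDegree) (b : ℕ → ℂ) (s j : ℕ)
    (hb : ∀ i < j, b (s + i) = 0) (x : Sph) : 1 ≤ (wd P s j).natDegree ∧
    cp (Gm P b) s j x = rat (wd P s j) 1 x := by
  induction j with
  | zero =>
    constructor
    · show 1 ≤ (X : Polynomial ℂ).natDegree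
      simp
    · show x = rat X 1 x
      rw [rat_X]
  | succ j ih =>
    obtain ⟨h1, h2⟩ := ih (fun i hi => hb i (by omega))
    have hPj := hP (s + j)
    constructor
    · show 1 ≤ ((P (s + j)).comp (wd P s j)).natDegree
      rw [natDegree_comp]
      exact Nat.mul_pos (by omega) h1
    · rw [cp_succ, h2]
      show rat (P (s + j) + C (b (s + j))) 1 _ = rat ((P (s + j)).comp (wd P s j)) 1 x
      rw [hb j (Nat.lt_succ_self j), C_0, add_zero, rat_comp (by omega) h1]

theorem cp_wd_kick {P : ℕ → Polynomial ℂ} (hP : ∀ j, 2 ≤ (P j).natDegree) (b : ℕ → ℂ) (s j : ℕ)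
    (hb : ∀ i < j, b (s + i) = 0) (x : Sph) :
    cp (Gm P b) s (j + 1) x = rat (wd P s (j + 1) + C (b (s + j))) 1 x := by
  obtain ⟨h1, h2⟩ := cp_wd hP b s j hb x
  rw [cp_succ, h2]
  have hPj := hP (s + j)
  show rat (P (s + j) + C (b (s + j))) 1 _ =
    rat ((P (s + j)).comp (wd P s j) + C (b (s + j))) 1 x
  have e1 : (P (s + j)).comp (wd P s j) + C (b (s + j)) =
      (P (s + j) + C (b (s + j))).comp (wd P s j) := by
    rw [add_comp, C_comp]
  rw [e1, rat_comp (by rw [natDegree_add_C]; omega) h1]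

end Pool.Agent.H35.ME
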