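import Mathlib

/-!
# Numerical lemmas
-/

set_option autoImplicit false

open Filter Topology

namespace Pool.Agent.H35.ME

theorem consts (l : ℕ) {c θ : ℝ} (hc : 0 ≤ c) (hθ : 0 < θ) : ∃ m : ℕ, 1 ≤ m ∧
    (m : ℝ) * (3 / 4) ^ m * (16 * ((((1 + m * m) * l : ℕ) : ℝ) + 1) *
      ((((1 + m * m) * l : ℕ) : ℝ) + 2)) ≤ 1 ∧
    c * ((((1 + m * m) * l : ℕ) : ℝ) + 1) * ((((1 + m * m) * l : ℕ) : ℝ) + 2) ≤ (1 + θ) ^ m := by
  set K : ℝ := 4 * ((l : ℝ) + 2) ^ 2 with hK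
  have hK0 : 0 < K := by positivity
  have t1 : Tendsto (fun m : ℕ => (m : ℝ) ^ 5 * (3 / 4 : ℝ) ^ m) atTop (𝓝 0) :=
    tendsto_pow_const_mul_const_pow_of_abs_lt_one 5 (by rw [abs_lt]; constructor <;> norm_num)
  have t2 : Tendsto (fun m : ℕ => (m : ℝ) ^ 4 * (1 / (1 + θ)) ^ m) atTop (𝓝 0) :=
    tendsto_pow_const_mul_const_pow_of_abs_lt_one 4 (by
      rw [abs_of_pos (by positivity), div_lt_one (by positivity)]
      linarith)
  have e1 := t1.eventually (gt_mem_nhds (show (0 : ℝ) < 1 / (16 * K) by positivity))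
  have e2 := t2.eventually (gt_mem_nhds (show (0 : ℝ) < 1 / (c * K + 1) by positivity))
  obtain ⟨m, ⟨h1, h2⟩, hm⟩ := ((e1.and e2).and (eventually_ge_atTop 1)).exists
  have hm1 : (1 : ℝ) ≤ m := by exact_mod_cast hm
  have hl : (0 : ℝ) ≤ l := Nat.cast_nonneg l
  set a : ℝ := (((1 + m * m) * l : ℕ) : ℝ) with ha
  have ha' : a = (1 + (m : ℝ) * m) * l := by rw [ha]; push_cast; ring
  have ha0 : 0 ≤ a := Nat.cast_nonneg _
  have hm2 : (1 : ℝ) ≤ m * m := by nlinarith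
  have b1 : a + 1 ≤ 2 * (m : ℝ) ^ 2 * (l + 2) := by
    rw [ha']
    nlinarith [mul_nonneg hl (by linarith : (0 : ℝ) ≤ m * m - 1)]
  have b2 : a + 2 ≤ 2 * (m : ℝ) ^ 2 * (l + 2) := by
    rw [ha']
    nlinarith [mul_nonneg hl (by linarith : (0 : ℝ) ≤ m * m - 1)]
  have b3 : (a + 1) * (a + 2) ≤ K * (m : ℝ) ^ 4 := by
    calc (a + 1) * (a + 2) ≤ (2 * (m : ℝ) ^ 2 * (l + 2)) * (2 * (m : ℝ) ^ 2 * (l + 2)) := by
          gcongr
      _ = K * (m : ℝ) ^ 4 := by rw [hK]; ring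
  refine ⟨m, hm, ?_, ?_⟩
  · have h3 : (m : ℝ) * (3 / 4) ^ m * (16 * (a + 1) * (a + 2)) ≤
        16 * K * ((m : ℝ) ^ 5 * (3 / 4) ^ m) := by
      calc (m : ℝ) * (3 / 4) ^ m * (16 * (a + 1) * (a + 2))
          = 16 * ((m : ℝ) * (3 / 4) ^ m) * ((a + 1) * (a + 2)) := by ring
        _ ≤ 16 * ((m : ℝ) * (3 / 4) ^ m) * (K * (m : ℝ) ^ 4) := by gcongr
        _ = _ := by ring
    refine h3.trans ?_
    calc 16 * K * ((m : ℝ) ^ 5 * (3 / 4) ^ m) ≤ 16 * K * (1 / (16 * K)) := by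
          gcongr
      _ = 1 := by field_simp
  · have h3 : c * (a + 1) * (a + 2) ≤ c * (K * (m : ℝ) ^ 4) := by
      rw [mul_assoc]
      gcongr
    refine h3.trans ?_
    have h4 : (0 : ℝ) < (1 + θ) ^ m := by positivity
    have h5 : (m : ℝ) ^ 4 * (1 / (1 + θ)) ^ m = (m : ℝ) ^ 4 / (1 + θ) ^ m := by
      rw [one_div_pow]; ring
    rw [h5, div_lt_div_iff₀ h4 (by positivity), one_mul] at h2
    have h6 : c * (K * (m : ℝ) ^ 4) = (m : ℝ) ^ 4 * (c * K) := by ring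
    rw [h6]
    have h7 : (0 : ℝ) ≤ (m : ℝ) ^ 4 := by positivity
    nlinarith

theorem num1 {lam : ℝ} (h0 : 0 < lam) (h1 : lam < 1) : ∃ μ C : ℝ, 0 < μ ∧ μ < 1 ∧ 0 < C ∧
    ∀ q : ℕ, ((q : ℝ) + 1) * lam ^ q ≤ C * μ ^ (q + 1) := by
  set μ : ℝ := (1 + lam) / 2 with hμ
  have hμ0 : 0 < μ := by positivity
  have hμ1 : μ < 1 := by rw [hμ]; linarith
  have hlm : lam < μ := by rw [hμ]; linarith
  set ρ : ℝ := lam / μ with hρ
  have hρ0 : 0 < ρ := by positivity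
  have hρ1 : ρ < 1 := by rw [hρ, div_lt_one hμ0]; exact hlm
  have t1 : Tendsto (fun q : ℕ => (q : ℝ) ^ 1 * ρ ^ q) atTop (𝓝 0) :=
    tendsto_pow_const_mul_const_pow_of_abs_lt_one 1 (by rw [abs_of_pos hρ0]; exact hρ1)
  have t2 : Tendsto (fun q : ℕ => ρ ^ q) atTop (𝓝 0) :=
    tendsto_pow_atTop_nhds_zero_of_lt_one hρ0.le hρ1
  have t3 := t1.add t2
  obtain ⟨C, hC⟩ := t3.bddAbove_range
  have hC' : ∀ q : ℕ, (q : ℝ) ^ 1 * ρ ^ q + ρ ^ q ≤ C := fun q => hC ⟨q, rfl⟩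
  have hC0 : 0 < C := by
    have := hC' 0
    simp at this
    linarith
  refine ⟨μ, C / μ, hμ0, hμ1, by positivity, fun q => ?_⟩
  have e1 : lam ^ q = ρ ^ q * μ ^ q := by
    rw [hρ, div_pow, div_mul_cancel₀ _ (by positivity)]
  rw [e1]
  calc ((q : ℝ) + 1) * (ρ ^ q * μ ^ q) = ((q : ℝ) ^ 1 * ρ ^ q + ρ ^ q) * μ ^ q := by ring
    _ ≤ C * μ ^ q := by
        gcongr
        exact hC' q
    _ = C / μ * μ ^ (q + 1) := by rw [pow_succ]; field_simp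

theorem num2 (A cb K1 M : ℕ) (hA : 1 ≤ A) (hM : 1 ≤ M) {p η : ℝ} (hp : 0 < p) (hp1 : p ≤ 1)
    (hη0 : 0 ≤ η) (hη : η * (4 * A) ≤ 1) : ∃ C θ : ℝ, 0 < C ∧ 0 < θ ∧ θ < 1 ∧
    ∀ n q : ℕ, n ≤ M * (q + 1) →
      2 * ((1 + η) ^ (A * q + cb) * (1 / 2) ^ q) + ((n : ℝ) + 2) * K1 * (1 - p) ^ q ≤ C * θ ^ n := by
  set lam : ℝ := max (2 / 3) (1 - p) with hlam
  have hl0 : 0 < lam := lt_of_lt_of_le (by norm_num) (le_max_left _ _)
  have hl1 : lam < 1 := max_lt (by norm_num) (by linarith)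
  obtain ⟨μ, C, hμ0, hμ1, hC, hq⟩ := num1 hl0 hl1
  set C1 : ℝ := 2 * (1 + η) ^ cb + (M + 2) * K1 with hC1
  have hC10 : 0 < C1 := by positivity
  have hMpos : (0 : ℝ) < M := by exact_mod_cast hM
  set θ : ℝ := μ ^ ((M : ℝ)⁻¹) with hθ
  have hθ0 : 0 < θ := Real.rpow_pos_of_pos hμ0 _
  have hθ1 : θ < 1 := Real.rpow_lt_one hμ0.le hμ1 (by positivity)
  have hθM : θ ^ M = μ := Real.rpow_inv_natCast_pow hμ0.le (by omega)
  refine ⟨C1 * C, θ, by positivity, hθ0, hθ1, fun n q hn => ?_⟩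
  have hAη : (1 + η) ^ A ≤ 4 / 3 := by
    have hApos : (0 : ℝ) < A := by exact_mod_cast hA
    have h1 : 1 + η ≤ Real.exp η := by
      have := Real.add_one_le_exp η
      linarith
    calc (1 + η) ^ A ≤ (Real.exp η) ^ A := by gcongr
      _ = Real.exp (A * η) := (Real.exp_nat_mul η A).symm
      _ ≤ Real.exp (1 / 4) := by
          apply Real.exp_le_exp.2
          linarith
      _ ≤ 4 / 3 := by
          have h2 : (Real.exp (1 / 4)) ^ 4 = Real.exp 1 := by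
            rw [← Real.exp_nat_mul]
            norm_num
          have h3 := Real.exp_one_lt_d9
          by_contra hcon
          push Not at hcon
          have h4 : (4 / 3 : ℝ) ^ 4 < (Real.exp (1 / 4)) ^ 4 := by gcongr
          rw [h2] at h4
          norm_num at h4
          linarith
  have e1 : (1 + η) ^ (A * q + cb) * (1 / 2) ^ q ≤ (1 + η) ^ cb * lam ^ q := by
    have h1 : (1 + η) ^ (A * q + cb) = ((1 + η) ^ A) ^ q * (1 + η) ^ cb := by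
      rw [pow_add, pow_mul]
    rw [h1]
    calc ((1 + η) ^ A) ^ q * (1 + η) ^ cb * (1 / 2) ^ q
        ≤ (4 / 3) ^ q * (1 + η) ^ cb * (1 / 2) ^ q := by gcongr
      _ = (1 + η) ^ cb * ((4 / 3 : ℝ) * (1 / 2)) ^ q := by rw [mul_pow]; ring
      _ ≤ (1 + η) ^ cb * lam ^ q := by
          gcongr
          calc (4 / 3 : ℝ) * (1 / 2) = 2 / 3 := by norm_num
            _ ≤ lam := le_max_left _ _
  have e2 : (1 - p) ^ q ≤ lam ^ q := by
    apply pow_le_pow_left₀ (by linarith)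
    exact le_max_right _ _
  have hn' : (n : ℝ) ≤ M * (q + 1) := by exact_mod_cast hn
  have hq0 : (0 : ℝ) ≤ q := Nat.cast_nonneg q
  have e3 : ((n : ℝ) + 2) * K1 ≤ ((M + 2) * K1) * (q + 1) := by
    have hK : (0 : ℝ) ≤ K1 := Nat.cast_nonneg K1
    have : (n : ℝ) + 2 ≤ (M + 2) * (q + 1) := by nlinarith
    calc ((n : ℝ) + 2) * K1 ≤ ((M + 2) * (q + 1)) * K1 := by gcongr
      _ = _ := by ring
  have hlq : 0 < lam ^ q := by positivity
  have e4 : 2 * ((1 + η) ^ (A * q + cb) * (1 / 2) ^ q) + ((n : ℝ) + 2) * K1 * (1 - p) ^ q ≤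
      C1 * (((q : ℝ) + 1) * lam ^ q) := by
    have h1 : ((n : ℝ) + 2) * K1 * (1 - p) ^ q ≤ ((M + 2) * K1) * (q + 1) * lam ^ q := by
      have h2 : (0 : ℝ) ≤ ((n : ℝ) + 2) * K1 := by positivity
      have h3 : (0 : ℝ) ≤ (1 - p) ^ q := by
        apply pow_nonneg
        linarith
      exact mul_le_mul e3 e2 h3 (h2.trans e3)
    have h2 : (1 + η) ^ cb * lam ^ q ≤ (1 + η) ^ cb * ((q + 1) * lam ^ q) := by
      have h4 : lam ^ q ≤ ((q : ℝ) + 1) * lam ^ q := by nlinarith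
      gcongr
    rw [hC1]
    nlinarith
  have e5 : μ ^ (q + 1) ≤ θ ^ n := by
    rw [← hθM, ← pow_mul]
    exact pow_le_pow_of_le_one hθ0.le hθ1.le hn
  calc _ ≤ C1 * (((q : ℝ) + 1) * lam ^ q) := e4
    _ ≤ C1 * (C * μ ^ (q + 1)) := mul_le_mul_of_nonneg_left (hq q) hC10.le
    _ ≤ C1 * (C * θ ^ n) := by gcongr
    _ = C1 * C * θ ^ n := by ring

end Pool.Agent.H35.ME
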