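import Mathlib
import Pool.Agent.H84.UC.Sink

/-!
# Cyclic rearrangement of a composition
-/

set_option autoImplicit false

open Filter Topology OnePoint
open Pool.Agent.H44.Fatou
open Pool.Agent.H84.UC
open Pool.Agent.H35.NA (Attr attr_of_iterate)

namespace Pool.Agent.H35.ME

theorem semi_iter (G T : Sph → Sph) (k : ℕ) (x : Sph) :
    (fun x => T (G x))^[k] (T x) = T ((fun x => G (T x))^[k] x) := by
  induction k generalizing x with
  | zero => rfl
  | succ k ih =>
    rw [Function.iterate_succ_apply, Function.iterate_succ_apply]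
    exact ih (G (T x))

theorem attr_cyc {G T : Sph → Sph} (hG : Continuous G) (hT : Continuous T) {y : Sph}
    (h : Attr (fun x => G (T x)) y) : Attr (fun x => T (G x)) (T y) := by
  obtain ⟨z, n, hn, hz, ⟨U, hU, hconv⟩, ht⟩ := h
  set A : Sph → Sph := fun x => G (T x) with hA
  set B : Sph → Sph := fun x => T (G x) with hB
  have hAc : Continuous A := hG.comp hT
  have hBA : ∀ k x, B^[k] (T x) = T (A^[k] x) := fun k x => semi_iter G T k x
  refine ⟨T z, n, hn, ?_, ?_, ?_⟩
  · rw [hBA, hz]
  · refine ⟨{w | A^[n - 1] (G w) ∈ U}, ?_, ?_⟩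
    · have hc : Continuous (fun w => A^[n - 1] (G w)) := (hAc.iterate (n - 1)).comp hG
      have hval : A^[n - 1] (G (T z)) = z := by
        have h1 : A^[n - 1] (A z) = A^[n - 1 + 1] z := (Function.iterate_succ_apply A (n - 1) z).symm
        rw [Nat.sub_add_cancel hn, hz] at h1
        exact h1
      apply hc.continuousAt.preimage_mem_nhds
      rw [hval]
      exact hU
    · intro w hw
      have h1 := (hT.tendsto z).comp (hconv _ hw)
      rw [← tendsto_add_atTop_iff_nat 1]
      refine h1.congr (fun k => ?_)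
      show T (A^[n * k] (A^[n - 1] (G w))) = B^[n * (k + 1)] w
      have h2 : n * (k + 1) = (n * k + (n - 1)) + 1 := by
        have : n * (k + 1) = n * k + n := by ring
        omega
      rw [h2, Function.iterate_succ_apply, ← Function.iterate_add_apply]
      exact (hBA _ _).symm
  · have h1 := (hT.tendsto z).comp ht
    refine h1.congr (fun k => ?_)
    exact (hBA _ _).symm

theorem crit_cyc {G T : Sph → Sph} (hG : Continuous G) (hT : Continuous T) (hTo : IsOpenMap T)
    (hTs : Function.Surjective T)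
    (hall : ∀ y : Sph, (¬ ∃ U ∈ 𝓝 y, Set.InjOn (fun x => G (T x)) U) →
      Attr (fun x => G (T x)) y)
    {c : Sph} (hc : ¬ ∃ U ∈ 𝓝 c, Set.InjOn (fun x => T (G x)) U) :
    Attr (fun x => T (G x)) c := by
  by_cases h1 : ∃ U ∈ 𝓝 (G c), Set.InjOn T U
  · obtain ⟨w, rfl⟩ := hTs c
    apply attr_cyc hG hT
    apply hall
    rintro ⟨U, hU, hinj⟩
    obtain ⟨U2, hU2, hinj2⟩ := h1
    apply hc
    refine ⟨T '' U ∩ G ⁻¹' U2, inter_mem (hTo.image_mem_nhds hU)
      (hG.continuousAt.preimage_mem_nhds hU2), ?_⟩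
    rintro a ⟨⟨u, hu, rfl⟩, ha⟩ b ⟨⟨v, hv, rfl⟩, hb⟩ hab
    have h2 : G (T u) = G (T v) := hinj2 ha hb hab
    rw [hinj hu hv h2]
  · have h2 := attr_cyc hG hT (hall (G c) (by
      rintro ⟨U, hU, hinj⟩
      apply h1
      refine ⟨U, hU, fun a ha b hb hab => hinj ha hb ?_⟩
      show G (T a) = G (T b)
      rw [hab]))
    exact attr_of_iterate (f := fun x => T (G x)) (hT.comp hG) 1 h2

end Pool.Agent.H35.ME
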