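import Mathlib
import Pool.Agent.H35.ME.Defs

/-!
# A supermartingale estimate for counts along random orbits
-/

set_option autoImplicit false

open MeasureTheory
open scoped ENNReal
open Pool.Agent.H84.UC

namespace Pool.Agent.H35.ME

variable {n : ℕ} {ν : Measure ℂ} [IsProbabilityMeasure ν]

theorem lm_const (s : Finset (Fin n)) (c : ℝ≥0∞) (x : Fin n → ℂ) :
    (∫⋯∫⁻_s, (fun _ => c) ∂(fun _ => ν)) x = c := by
  unfold lmarginal
  rw [lintegral_const, measure_univ, mul_one]

theorem lm_le_const {s : Finset (Fin n)} {f : (Fin n → ℂ) → ℝ≥0∞} {c : ℝ≥0∞} (h : ∀ x, f x ≤ c)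
    (x : Fin n → ℂ) : (∫⋯∫⁻_s, f ∂(fun _ => ν)) x ≤ c := by
  calc (∫⋯∫⁻_s, f ∂(fun _ => ν)) x ≤ (∫⋯∫⁻_s, (fun _ => c) ∂(fun _ => ν)) x :=
        lmarginal_mono (fun x => h x) x
    _ = c := lm_const s c x

/-- bound of the integrand at the points that agree with `x` outside `s` -/
theorem lm_mono_at {s : Finset (Fin n)} {f g : (Fin n → ℂ) → ℝ≥0∞} {x : Fin n → ℂ}
    (h : ∀ x', (∀ i ∉ s, x' i = x i) → f x' ≤ g x') :
    (∫⋯∫⁻_s, f ∂(fun _ => ν)) x ≤ (∫⋯∫⁻_s, g ∂(fun _ => ν)) x := by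
  unfold lmarginal
  apply lintegral_mono
  intro y
  apply h
  intro i hi
  simp [Function.updateFinset, hi]

theorem sm {S : Type} [MeasurableSpace S]
    (st : ℕ → (Fin n → ℂ) → S → S) (ct : ℕ → (Fin n → ℂ) → S → ℕ) (s J : ℕ)
    (hst : ∀ k, Measurable (fun p : (Fin n → ℂ) × S => st k p.1 p.2))
    (hct : ∀ k, Measurable (fun p : (Fin n → ℂ) × S => ct k p.1 p.2))
    (hst' : ∀ k x x' y, (∀ i ∈ bk n (s + k * J) (s + (k + 1) * J), x i = x' i) →
      st k x y = st k x' y)
    (hct' : ∀ k x x' y, (∀ i ∈ bk n (s + k * J) (s + (k + 1) * J), x i = x' i) →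
      ct k x y = ct k x' y)
    (Φ : ℕ → ℕ → S → ℕ → ℝ≥0∞) (h0 : ∀ k y, 1 ≤ Φ 0 k y 0)
    (hΦ : ∀ b k y q x, s + (k + 1) * J ≤ n →
      (∫⋯∫⁻_(bk n (s + k * J) (s + (k + 1) * J)),
        (fun x' => Φ b (k + 1) (st k x' y) (q - ct k x' y)) ∂(fun _ => ν)) x ≤ Φ (b + 1) k y q)
    (b : ℕ) : ∀ (k : ℕ), s + (k + b) * J ≤ n → ∀ (y : S) (q : ℕ) (x : Fin n → ℂ),
    (∫⋯∫⁻_(bk n (s + k * J) (s + (k + b) * J)),
      ({x' | q ≤ tot st ct b k x' y}.indicator 1) ∂(fun _ => ν)) x ≤ Φ b k y q := by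
  induction b with
  | zero =>
    intro k _ y q x
    rcases Nat.eq_zero_or_pos q with hq | hq
    · subst hq
      refine (lm_le_const (c := 1) (fun x => ?_) x).trans (h0 k y)
      exact Set.indicator_le_self' (fun _ _ => zero_le) x
    · refine (lm_le_const (c := 0) (fun x => ?_) x).trans (zero_le)
      rw [Set.indicator_of_notMem]
      intro h
      have h1 : q ≤ 0 := h
      omega
  | succ b ih =>
    intro k hk y q x
    have e1 : s + k * J ≤ s + (k + 1) * J := by
      have : (k + 1) * J = k * J + J := by ring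
      omega
    have e2 : s + (k + 1) * J ≤ s + (k + (b + 1)) * J := by
      have : (k + (b + 1)) * J = (k + 1) * J + b * J := by ring
      omega
    have e3 : k + 1 + b = k + (b + 1) := by omega
    have hmeas : Measurable (({x' | q ≤ tot st ct (b + 1) k x' y} : Set (Fin n → ℂ)).indicator
        (1 : (Fin n → ℂ) → ℝ≥0∞)) := by
      apply Measurable.indicator measurable_one
      exact measurableSet_le measurable_const
        ((tot_meas hst hct (b + 1) k).comp (measurable_id.prodMk measurable_const))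
    rw [bk_union e1 e2, lmarginal_union _ _ hmeas bk_disj]
    refine le_trans ?_ (hΦ b k y q x (e2.trans hk))
    refine lmarginal_mono (fun x' => ?_) x
    have h1 := ih (k + 1) (by rw [e3]; exact hk) (st k x' y) (q - ct k x' y) x'
    rw [e3] at h1
    refine le_trans (lm_mono_at (fun x'' hx'' => ?_)) h1
    have h2 : ∀ i ∈ bk n (s + k * J) (s + (k + 1) * J), x'' i = x' i := by
      intro i hi
      apply hx''
      intro h3
      exact (Finset.disjoint_left.1 bk_disj) hi h3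
    have h3 : tot st ct (b + 1) k x'' y = ct k x' y + tot st ct b (k + 1) x'' (st k x' y) := by
      rw [tot, hct' k x'' x' y h2, hst' k x'' x' y h2]
    by_cases h4 : q ≤ tot st ct (b + 1) k x'' y
    · have h5 : q - ct k x' y ≤ tot st ct b (k + 1) x'' (st k x' y) := by omega
      rw [Set.indicator_of_mem (show x'' ∈ {x' | q ≤ tot st ct (b + 1) k x' y} from h4),
        Set.indicator_of_mem (show x'' ∈ {x_1 | q - ct k x' y ≤ tot st ct b (k + 1) x_1 (st k x' y)}
          from h5)]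
    · rw [Set.indicator_of_notMem (show x'' ∉ {x' | q ≤ tot st ct (b + 1) k x' y} from h4)]
      exact zero_le

/-- counts of visits to `N` before capture in `C` -/
theorem smA {S : Type} [MeasurableSpace S]
    (st : ℕ → (Fin n → ℂ) → S → S) (ct : ℕ → (Fin n → ℂ) → S → ℕ) (s J : ℕ)
    (hst : ∀ k, Measurable (fun p : (Fin n → ℂ) × S => st k p.1 p.2))
    (hct : ∀ k, Measurable (fun p : (Fin n → ℂ) × S => ct k p.1 p.2))
    (hst' : ∀ k x x' y, (∀ i ∈ bk n (s + k * J) (s + (k + 1) * J), x i = x' i) →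
      st k x y = st k x' y)
    (hct' : ∀ k x x' y, (∀ i ∈ bk n (s + k * J) (s + (k + 1) * J), x i = x' i) →
      ct k x y = ct k x' y)
    (C N : ℕ → Set S) (hct1 : ∀ k x y, y ∉ C k → y ∈ N k → ct k x y = 1)
    (hct0 : ∀ k x y, (y ∈ C k ∨ y ∉ N k) → ct k x y = 0)
    (hC : ∀ k x y, y ∈ C k → st k x y ∈ C (k + 1)) (σ : ℝ≥0∞) (hσ : σ ≤ 1)
    (hN : ∀ k x y, s + (k + 1) * J ≤ n → y ∉ C k → y ∈ N k →
      (∫⋯∫⁻_(bk n (s + k * J) (s + (k + 1) * J)),
        ({x' | st k x' y ∉ C (k + 1)}.indicator 1) ∂(fun _ => ν)) x ≤ σ)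
    (b k : ℕ) (hk : s + (k + b) * J ≤ n) (y : S) (q : ℕ) (x : Fin n → ℂ) :
    (∫⋯∫⁻_(bk n (s + k * J) (s + (k + b) * J)),
      ({x' | q + 1 ≤ tot st ct b k x' y}.indicator 1) ∂(fun _ => ν)) x ≤ σ ^ q := by
  classical
  set Φ : ℕ → ℕ → S → ℕ → ℝ≥0∞ := fun _ k y q =>
    if q = 0 then 1 else if y ∈ C k then 0 else σ ^ (q - 1) with hΦd
  have hΦ1 : ∀ b k y q, Φ b k y q ≤ 1 := by
    intro b k y q
    simp only [hΦd]
    split_ifs
    · exact le_rfl
    · exact zero_le
    · exact pow_le_one₀ (zero_le) hσ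
  have hΦ2 : ∀ b k y q, Φ b k y q ≤ σ ^ (q - 1) := by
    intro b k y q
    simp only [hΦd]
    split_ifs with h
    · rw [h]; simp
    · exact zero_le
    · exact le_rfl
  have key := sm st ct s J hst hct hst' hct' (ν := ν) Φ (fun k y => by simp [hΦd]) ?_ b k hk y
    (q + 1) x
  · refine key.trans ((hΦ2 b k y (q + 1)).trans (le_of_eq ?_))
    rw [Nat.add_sub_cancel]
  · intro b k y q x hkn
    by_cases hq : q = 0
    · have h1 : Φ (b + 1) k y q = 1 := by simp only [hΦd]; rw [if_pos hq]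
      rw [h1]
      exact lm_le_const (f := fun x' => Φ b (k + 1) (st k x' y) (q - ct k x' y))
        (fun x' => hΦ1 b (k + 1) _ _) x
    have hq1 : 1 ≤ q := Nat.one_le_iff_ne_zero.2 hq
    by_cases hy : y ∈ C k
    · refine (lm_le_const (c := 0) (fun x' => ?_) x).trans (zero_le)
      have h2 : ct k x' y = 0 := hct0 k x' y (Or.inl hy)
      rw [h2, Nat.sub_zero]
      simp only [hΦd]
      rw [if_neg hq, if_pos (hC k x' y hy)]
    have h3 : Φ (b + 1) k y q = σ ^ (q - 1) := by
      simp only [hΦd]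
      rw [if_neg hq, if_neg hy]
    rw [h3]
    by_cases hyN : y ∈ N k
    · have h4 : ∀ x', Φ b (k + 1) (st k x' y) (q - ct k x' y) ≤
          if q = 1 then 1 else
            ({x' | st k x' y ∉ C (k + 1)}.indicator 1 x') * σ ^ (q - 2) := by
        intro x'
        rw [hct1 k x' y hy hyN]
        split_ifs with h5
        · exact hΦ1 b (k + 1) _ _
        · simp only [hΦd]
          rw [if_neg (by omega)]
          by_cases h6 : st k x' y ∈ C (k + 1)
          · rw [if_pos h6]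
            exact zero_le
          · rw [if_neg h6, Set.indicator_of_mem (show x' ∈ {x' | st k x' y ∉ C (k + 1)} from h6),
              Pi.one_apply, one_mul]
            exact le_of_eq (by congr 1)
      refine (lmarginal_mono (fun x' => h4 x') x).trans ?_
      split_ifs with h5
      · rw [h5, Nat.sub_self, pow_zero]
        exact le_of_eq (lm_const _ _ _)
      · have h6 : (∫⋯∫⁻_(bk n (s + k * J) (s + (k + 1) * J)),
            (fun x' => ({x' | st k x' y ∉ C (k + 1)}.indicator 1 x') * σ ^ (q - 2))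
              ∂(fun _ => ν)) x =
            (∫⋯∫⁻_(bk n (s + k * J) (s + (k + 1) * J)),
              ({x' | st k x' y ∉ C (k + 1)}.indicator 1) ∂(fun _ => ν)) x * σ ^ (q - 2) := by
          unfold lmarginal
          rw [lintegral_mul_const']
          exact ENNReal.pow_ne_top (ne_top_of_le_ne_top ENNReal.one_ne_top hσ)
        rw [h6]
        calc _ ≤ σ * σ ^ (q - 2) := mul_le_mul_left (hN k x y hkn hy hyN) _
          _ = σ ^ (q - 1) := by
              rw [← pow_succ']
              congr 1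
              omega
    · refine lm_le_const (fun x' => ?_) x
      rw [hct0 k x' y (Or.inr hyN), Nat.sub_zero]
      exact hΦ2 b (k + 1) _ _

/-- counts of rare events -/
theorem smB (I : ℕ → Set (Fin n → ℂ)) (ct : ℕ → (Fin n → ℂ) → Unit → ℕ) (s J : ℕ)
    (hI : ∀ k, MeasurableSet (I k))
    (hI' : ∀ k x x', (∀ i ∈ bk n (s + k * J) (s + (k + 1) * J), x i = x' i) →
      (x ∈ I k ↔ x' ∈ I k))
    (hct1 : ∀ k x y, x ∈ I k → ct k x y = 1) (hct0 : ∀ k x y, x ∉ I k → ct k x y = 0)
    (η : ℝ≥0∞)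
    (hN : ∀ k x, s + (k + 1) * J ≤ n →
      (∫⋯∫⁻_(bk n (s + k * J) (s + (k + 1) * J)), ((I k).indicator 1) ∂(fun _ => ν)) x ≤ η)
    (b k : ℕ) (hk : s + (k + b) * J ≤ n) (q : ℕ) (x : Fin n → ℂ) :
    (∫⋯∫⁻_(bk n (s + k * J) (s + (k + b) * J)),
      ({x' | q ≤ tot (fun _ _ y => y) ct b k x' ()}.indicator 1) ∂(fun _ => ν)) x ≤
      (1 + η) ^ b * 2⁻¹ ^ q := by
  classical
  refine sm (fun _ _ y => y) ct s J (fun k => measurable_snd) ?_ (fun _ _ _ _ _ => rfl) ?_
    (ν := ν) (fun b _ _ q => (1 + η) ^ b * 2⁻¹ ^ q) (fun k y => by simp) ?_ b k hk () q x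
  · intro k
    have : (fun p : (Fin n → ℂ) × Unit => ct k p.1 p.2) =
        fun p => (I k).indicator (fun _ => 1) p.1 := by
      funext p
      by_cases hp : p.1 ∈ I k
      · rw [hct1 k _ _ hp, Set.indicator_of_mem hp]
      · rw [hct0 k _ _ hp, Set.indicator_of_notMem hp]
    rw [this]
    exact (measurable_const.indicator (hI k)).comp measurable_fst
  · intro k x x' y h
    by_cases hx : x ∈ I k
    · rw [hct1 k x y hx, hct1 k x' y ((hI' k x x' h).1 hx)]
    · rw [hct0 k x y hx, hct0 k x' y (fun h' => hx ((hI' k x x' h).2 h'))]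
  · intro b k y q x hkn
    have h1 : ∀ x', (1 + η) ^ b * (2⁻¹ : ℝ≥0∞) ^ (q - ct k x' y) ≤
        ((1 + η) ^ b * 2⁻¹ ^ q) * (1 + (I k).indicator 1 x') := by
      intro x'
      rw [mul_assoc]
      gcongr
      by_cases hx : x' ∈ I k
      · rw [hct1 k x' y hx, Set.indicator_of_mem hx, Pi.one_apply]
        rcases Nat.eq_zero_or_pos q with hq | hq
        · rw [hq]; norm_num
        · obtain ⟨c, rfl⟩ : ∃ c, q = c + 1 := ⟨q - 1, by omega⟩
          rw [Nat.add_sub_cancel, pow_succ, one_add_one_eq_two, mul_assoc,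
            ENNReal.inv_mul_cancel (by norm_num) (by norm_num), mul_one]
      · rw [hct0 k x' y hx, Set.indicator_of_notMem hx, add_zero, mul_one, Nat.sub_zero]
    refine (lmarginal_mono (fun x' => h1 x') x).trans ?_
    have h2 : (∫⋯∫⁻_(bk n (s + k * J) (s + (k + 1) * J)),
          (fun x' => ((1 + η) ^ b * 2⁻¹ ^ q) * (1 + (I k).indicator 1 x')) ∂(fun _ => ν)) x ≤
        ((1 + η) ^ b * 2⁻¹ ^ q) * (1 + (∫⋯∫⁻_(bk n (s + k * J) (s + (k + 1) * J)),
          ((I k).indicator 1) ∂(fun _ => ν)) x) := by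
      unfold lmarginal
      rw [lintegral_const_mul]
      · gcongr
        rw [lintegral_add_left measurable_const, lintegral_const, measure_univ, mul_one]
      · apply Measurable.const_add
        exact (measurable_one.indicator (hI k)).comp measurable_updateFinset
    refine h2.trans ?_
    calc _ ≤ ((1 + η) ^ b * 2⁻¹ ^ q) * (1 + η) := by
          gcongr
          exact hN k x hkn
      _ = (1 + η) ^ (b + 1) * 2⁻¹ ^ q := by ring

end Pool.Agent.H35.ME
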