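import Mathlib
import Pool.Agent.H35.ME.SM

/-!
# The uniform distribution on a disc; probabilities of product events
-/

set_option autoImplicit false

open MeasureTheory
open scoped ENNReal
open Pool.Agent.H84.UC

namespace Pool.Agent.H35.ME

/-- the uniform distribution on the disc of radius `ε` -/
noncomputable def nu (ε : ℝ) : Measure ℂ :=
  (volume (Metric.ball (0 : ℂ) ε))⁻¹ • volume.restrict (Metric.ball (0 : ℂ) ε)

theorem vol_pos {ε : ℝ} (hε : 0 < ε) : volume (Metric.ball (0 : ℂ) ε) ≠ 0 :=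
  (Metric.measure_ball_pos volume (0 : ℂ) hε).ne'

theorem vol_top {ε : ℝ} : volume (Metric.ball (0 : ℂ) ε) ≠ ⊤ := measure_ball_lt_top.ne

theorem nu_prob {ε : ℝ} (hε : 0 < ε) : IsProbabilityMeasure (nu ε) := by
  constructor
  unfold nu
  rw [Measure.smul_apply, Measure.restrict_apply MeasurableSet.univ, Set.univ_inter, smul_eq_mul,
    ENNReal.inv_mul_cancel (vol_pos hε) vol_top]

theorem nu_ball {ε ρ : ℝ} {c : ℂ} (hε : 0 < ε) (hρ : 0 < ρ) (h : ‖c‖ + ρ ≤ ε) :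
    nu ε (Metric.ball c ρ) = ENNReal.ofReal ((ρ / ε) ^ 2) := by
  have hsub : Metric.ball c ρ ⊆ Metric.ball (0 : ℂ) ε := by
    intro z hz
    rw [mem_ball_iff_norm] at hz
    rw [mem_ball_zero_iff]
    have : ‖z‖ ≤ ‖z - c‖ + ‖c‖ := by
      calc ‖z‖ = ‖(z - c) + c‖ := by ring_nf
        _ ≤ _ := norm_add_le _ _
    linarith
  unfold nu
  rw [Measure.smul_apply, Measure.restrict_apply Metric.isOpen_ball.measurableSet,
    Set.inter_eq_self_of_subset_left hsub, smul_eq_mul, Complex.volume_ball, Complex.volume_ball]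
  have hpi : (NNReal.pi : ℝ≥0∞) ≠ 0 := by
    have := NNReal.pi_pos
    exact_mod_cast this.ne'
  have hpt : (NNReal.pi : ℝ≥0∞) ≠ ⊤ := ENNReal.coe_ne_top
  have e1 : ENNReal.ofReal ρ ^ 2 = ENNReal.ofReal (ρ ^ 2) := (ENNReal.ofReal_pow hρ.le 2).symm
  have e2 : ENNReal.ofReal ε ^ 2 = ENNReal.ofReal (ε ^ 2) := (ENNReal.ofReal_pow hε.le 2).symm
  rw [e1, e2, div_pow, ENNReal.ofReal_div_of_pos (by positivity), ENNReal.div_eq_inv_mul,
    ENNReal.mul_inv (Or.inr hpt) (Or.inr hpi)]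
  calc (ENNReal.ofReal (ε ^ 2))⁻¹ * (NNReal.pi : ℝ≥0∞)⁻¹ * (ENNReal.ofReal (ρ ^ 2) * NNReal.pi)
      = (ENNReal.ofReal (ε ^ 2))⁻¹ * ENNReal.ofReal (ρ ^ 2) *
        ((NNReal.pi : ℝ≥0∞)⁻¹ * NNReal.pi) := by ring
    _ = _ := by rw [ENNReal.inv_mul_cancel hpi hpt, mul_one]

theorem nu_far {ε ρ : ℝ} (hε : 0 < ε) (hρ : 0 < ρ) (h : ρ ≤ ε) :
    nu ε {u | ρ < ‖u‖} ≤ ENNReal.ofReal (1 - (ρ / ε) ^ 2) := by
  have := nu_prob hε
  have h1 : {u : ℂ | ρ < ‖u‖} ⊆ (Metric.ball (0 : ℂ) ρ)ᶜ := by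
    intro u hu
    rw [Set.mem_compl_iff, mem_ball_zero_iff, not_lt]
    exact le_of_lt hu
  refine (measure_mono h1).trans ?_
  rw [prob_compl_eq_one_sub Metric.isOpen_ball.measurableSet, nu_ball hε hρ (by simpa using h),
    ENNReal.ofReal_sub _ (by positivity), ENNReal.ofReal_one]

variable {n : ℕ} {ν : Measure ℂ} [IsProbabilityMeasure ν]

theorem lm_ind {s : Finset (Fin n)} {A : Set (Fin n → ℂ)} (hA : MeasurableSet A)
    (x : Fin n → ℂ) : (∫⋯∫⁻_s, (A.indicator 1) ∂(fun _ => ν)) x =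
      (Measure.pi fun _ : s => ν) (Function.updateFinset x s ⁻¹' A) := by
  unfold lmarginal
  have h1 : (fun y => A.indicator (1 : (Fin n → ℂ) → ℝ≥0∞) (Function.updateFinset x s y)) =
      (Function.updateFinset x s ⁻¹' A).indicator 1 := by
    funext y
    by_cases h : Function.updateFinset x s y ∈ A
    · rw [Set.indicator_of_mem h, Set.indicator_of_mem (by exact h)]
      rfl
    · rw [Set.indicator_of_notMem h, Set.indicator_of_notMem (by exact h)]
  rw [h1, lintegral_indicator_one]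
  exact measurable_updateFinset hA

theorem lm_prod {s : Finset (Fin n)} {A : Fin n → Set ℂ} (hA : ∀ i, MeasurableSet (A i))
    (x : Fin n → ℂ) :
    (∫⋯∫⁻_s, ({x | ∀ i ∈ s, x i ∈ A i}.indicator 1) ∂(fun _ => ν)) x = ∏ i ∈ s, ν (A i) := by
  have hm : MeasurableSet {x : Fin n → ℂ | ∀ i ∈ s, x i ∈ A i} := by
    have : {x : Fin n → ℂ | ∀ i ∈ s, x i ∈ A i} = ⋂ i ∈ s, (fun x => x i) ⁻¹' (A i) := by
      ext x
      simp
    rw [this]
    exact Finset.measurableSet_biInter s (fun i _ => (measurable_pi_apply i) (hA i))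
  rw [lm_ind hm]
  have h1 : Function.updateFinset x s ⁻¹' {x | ∀ i ∈ s, x i ∈ A i} =
      Set.univ.pi (fun i : s => A i) := by
    ext y
    simp only [Set.mem_preimage, Set.mem_pi, Set.mem_univ, forall_const, Subtype.forall]
    constructor
    · intro h i hi
      have := h i hi
      simp only [Function.updateFinset, hi, dif_pos] at this
      exact this
    · intro h i hi
      simp only [Function.updateFinset, hi, dif_pos]
      exact h i hi
  rw [h1, Measure.pi_pi]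
  exact Finset.prod_coe_sort s (fun i => ν (A i))

theorem lm_le_of_subset {s t : Finset (Fin n)} (hts : t ⊆ s) {f : (Fin n → ℂ) → ℝ≥0∞}
    (hf : Measurable f) {c : ℝ≥0∞} (h : ∀ x, (∫⋯∫⁻_t, f ∂(fun _ => ν)) x ≤ c) (x : Fin n → ℂ) :
    (∫⋯∫⁻_s, f ∂(fun _ => ν)) x ≤ c := by
  have h1 : ∫⋯∫⁻_t, f ∂(fun _ => ν) ≤ ∫⋯∫⁻_t, (fun _ => c) ∂(fun _ => ν) := by
    intro x
    rw [lm_const]
    exact h x
  calc (∫⋯∫⁻_s, f ∂(fun _ => ν)) x ≤ (∫⋯∫⁻_s, (fun _ => c) ∂(fun _ => ν)) x :=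
        lmarginal_le_of_subset hts hf measurable_const h1 x
    _ = c := lm_const s c x

theorem lm_union {s : Finset (Fin n)} {A B : Set (Fin n → ℂ)} (hA : MeasurableSet A)
    (hB : MeasurableSet B) (x : Fin n → ℂ) :
    (∫⋯∫⁻_s, ((A ∪ B).indicator 1) ∂(fun _ => ν)) x ≤
      (∫⋯∫⁻_s, (A.indicator 1) ∂(fun _ => ν)) x + (∫⋯∫⁻_s, (B.indicator 1) ∂(fun _ => ν)) x := by
  rw [lm_ind (hA.union hB), lm_ind hA, lm_ind hB, Set.preimage_union]
  exact measure_union_le _ _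

theorem lm_iUnion {s : Finset (Fin n)} {m : ℕ} {A : ℕ → Set (Fin n → ℂ)}
    (hA : ∀ j, MeasurableSet (A j)) {c : ℝ≥0∞} (x : Fin n → ℂ)
    (h : ∀ j < m, (∫⋯∫⁻_s, ((A j).indicator 1) ∂(fun _ => ν)) x ≤ c) :
    (∫⋯∫⁻_s, ({x | ∃ j < m, x ∈ A j}.indicator 1) ∂(fun _ => ν)) x ≤ m * c := by
  have e1 : {x | ∃ j < m, x ∈ A j} = ⋃ j ∈ Finset.range m, A j := by
    ext x
    simp
  have hm : MeasurableSet {x | ∃ j < m, x ∈ A j} := by
    rw [e1]
    exact Finset.measurableSet_biUnion _ (fun j _ => hA j)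
  rw [lm_ind hm, e1, Set.preimage_iUnion₂]
  refine (measure_biUnion_finset_le _ _).trans ?_
  calc _ ≤ ∑ _j ∈ Finset.range m, c := by
        apply Finset.sum_le_sum
        intro j hj
        rw [← lm_ind (hA j)]
        exact h j (Finset.mem_range.1 hj)
    _ = m * c := by rw [Finset.sum_const, Finset.card_range, nsmul_eq_mul]

theorem lm_compl {s : Finset (Fin n)} {A B : Set (Fin n → ℂ)} (hA : MeasurableSet A)
    (hB : MeasurableSet B) (hAB : B ⊆ Aᶜ) {p : ℝ≥0∞} (x : Fin n → ℂ)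
    (h : p ≤ (∫⋯∫⁻_s, (A.indicator 1) ∂(fun _ => ν)) x) :
    (∫⋯∫⁻_s, (B.indicator 1) ∂(fun _ => ν)) x ≤ 1 - p := by
  rw [lm_ind hA] at h
  rw [lm_ind hB]
  calc (Measure.pi fun _ : s => ν) (Function.updateFinset x s ⁻¹' B)
      ≤ (Measure.pi fun _ : s => ν) (Function.updateFinset x s ⁻¹' A)ᶜ :=
        measure_mono (fun y hy => hAB hy)
    _ = 1 - (Measure.pi fun _ : s => ν) (Function.updateFinset x s ⁻¹' A) :=
        prob_compl_eq_one_sub (measurable_updateFinset hA)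
    _ ≤ 1 - p := tsub_le_tsub_left h _

theorem bk_card {s s' : ℕ} (h1 : s ≤ s') (h2 : s' ≤ n) : (bk n s s').card = s' - s := by
  have hinj : Function.Injective (fun i : Fin (s' - s) => (⟨s + i.1, by omega⟩ : Fin n)) := by
    intro i j hij
    have h3 : s + i.1 = s + j.1 := congrArg Fin.val hij
    apply Fin.ext
    omega
  have : bk n s s' = (Finset.univ : Finset (Fin (s' - s))).map ⟨_, hinj⟩ := by
    ext i
    rw [mem_bk, Finset.mem_map]
    constructor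
    · rintro ⟨h3, h4⟩
      refine ⟨⟨i.1 - s, by omega⟩, Finset.mem_univ _, ?_⟩
      apply Fin.ext
      show s + (i.1 - s) = i.1
      omega
    · rintro ⟨j, -, rfl⟩
      show s ≤ s + j.1 ∧ s + j.1 < s'
      omega
  rw [this, Finset.card_map, Finset.card_univ, Fintype.card_fin]

end Pool.Agent.H35.ME
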