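import Mathlib
import Pool.Agent.H35.ME.Nu
import Pool.Agent.H35.ME.Blk

/-!
# Probabilities of capture and of irregular blocks
-/

set_option autoImplicit false

open MeasureTheory Filter Topology OnePoint Polynomial
open scoped ENNReal
open Pool.Agent.H44.Fatou
open Pool.Agent.H84.UC
open Pool.Agent.H91.Fatou (nn nn_pos)

namespace Pool.Agent.H35.ME

/-- captured points -/
def capt (r : ℝ) : Set ℂ := {z | dist (z : Sph) ∞ ≤ 3 / 4 * r}

theorem capt_meas (r : ℝ) : MeasurableSet (capt r) := by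
  apply IsClosed.measurableSet
  exact isClosed_le (OnePoint.continuous_coe.dist continuous_const) continuous_const

theorem capt_of_norm {r R : ℝ} (hr : 0 < r) (hR : 4 / (3 * r) ≤ R - 1) {z : ℂ}
    (h : R - 1 < ‖z‖) : z ∈ capt r := by
  show dist (z : Sph) ∞ ≤ 3 / 4 * r
  rw [dist_coe_infty]
  have p1 : 0 < nn z 1 := nn_pos (Or.inr one_ne_zero)
  have h1 := norm_le_nn z
  rw [div_le_iff₀ p1]
  have h2 : 4 / (3 * r) ≤ nn z 1 := by linarith
  rw [div_le_iff₀ (by positivity)] at h2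
  nlinarith

theorem norm_of_not_capt {r R : ℝ} (hr : 0 < r) (hR : 4 / (3 * r) ≤ R - 1) {z : ℂ}
    (h : z ∉ capt r) : ‖z‖ ≤ R := by
  by_contra hc
  push Not at hc
  exact h (capt_of_norm hr hR (by linarith))

theorem capt_stay {P : ℕ → Polynomial ℂ} {a : ℕ → ℂ} {r : ℝ} (hr : 0 < r)
    (hX : ∀ t x, dist x (∞ : Sph) ≤ r → dist (Gm P a t x) (∞ : Sph) ≤ dist x (∞ : Sph) / 2)
    (s : ℕ) {y : ℂ}
    (hy : y ∈ capt r) (k : ℕ) : cp (pl (ev P) a) s k y ∈ capt r := by
  show dist ((cp (pl (ev P) a) s k y : ℂ) : Sph) ∞ ≤ 3 / 4 * r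
  have hy' : dist (y : Sph) ∞ ≤ 3 / 4 * r := hy
  rw [← cp_coe]
  induction k with
  | zero => exact hy'
  | succ k ih =>
    rw [cp_succ]
    have h1 := hX (s + k) _ (show dist (cp (Gm P a) s k (y : Sph)) ∞ ≤ r by linarith)
    have h2 : 0 ≤ dist (cp (Gm P a) s k (y : Sph)) ∞ := dist_nonneg
    linarith

theorem capture_prob {n : ℕ} {P : ℕ → Polynomial ℂ} {ε R r Λ τ : ℝ} (hε : 0 < ε) (hr : 0 < r)
    (hR : 4 / (3 * r) ≤ R - 1) (hΛ : 1 ≤ Λ)
    (hlip : ∀ t w z, ‖w‖ ≤ R → ‖z - w‖ ≤ 1 → ‖ev P t z - ev P t w‖ ≤ Λ * ‖z - w‖)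
    (hX : ∀ a : ℕ → ℂ, (∀ t, ‖a t‖ < ε) → ∀ t x, dist x (∞ : Sph) ≤ r →
      dist (Gm P a t x) (∞ : Sph) ≤ dist x (∞ : Sph) / 2)
    {J s : ℕ} (hτ : 0 < τ) (hτε : τ ≤ ε) (hJτ : J * Λ ^ J * τ ≤ 1) (hn : s + J ≤ n)
    {y : ℂ} (hy : y ∉ capt r) (hNS : y ∈ NS (ev P) ε R J s) (x : Fin n → ℂ) :
    (∫⋯∫⁻_(bk n s (s + J)),
      ({x' | cp (pl (ev P) (ex ε x')) s J y ∉ capt r}.indicator 1) ∂(fun _ => nu ε)) x ≤
      1 - ENNReal.ofReal ((τ / 2 / ε) ^ 2) ^ J := by
  have := nu_prob hε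
  obtain ⟨k, c, hk1, hkJ, hc, hfol⟩ := follow (ev P) hε hΛ hlip hτ hτε hJτ
    (norm_of_not_capt hr hR hy) hNS
  set A : Set (Fin n → ℂ) :=
    {x' | ∀ i ∈ bk n s (s + J), x' i ∈ Metric.ball (c (i.1 - s)) (τ / 2)} with hA
  have hAm : MeasurableSet A := by
    have : A = ⋂ i ∈ bk n s (s + J), (fun x => x i) ⁻¹' (Metric.ball (c (i.1 - s)) (τ / 2)) := by
      ext x
      simp [hA]
    rw [this]
    exact Finset.measurableSet_biInter _
      (fun i _ => (measurable_pi_apply i) Metric.isOpen_ball.measurableSet)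
  have hmeas : Measurable (fun x' : Fin n → ℂ => cp (pl (ev P) (ex ε x')) s J y) :=
    (cp_meas (fun t => (ev_diff P t).continuous.measurable) s J).comp
      (measurable_id.prodMk measurable_const)
  have hBm : MeasurableSet {x' : Fin n → ℂ | cp (pl (ev P) (ex ε x')) s J y ∉ capt r} :=
    hmeas (capt_meas r).compl
  refine lm_compl hAm hBm ?_ x ?_
  · intro x' hx' hxA
    apply hx'
    have hexx : ∀ j < J, ‖ex ε x' (s + j) - c j‖ < τ / 2 := by
      intro j hj
      have hlt : s + j < n := by omega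
      have h1 := hxA ⟨s + j, hlt⟩ (mem_bk.2 ⟨Nat.le_add_right _ _, by
        show s + j < s + J
        omega⟩)
      have h2 : s + j - s = j := by omega
      rw [h2, mem_ball_iff_norm] at h1
      have h3 : ‖x' ⟨s + j, hlt⟩‖ < ε := by
        have h4 : ‖x' ⟨s + j, hlt⟩‖ ≤ ‖x' ⟨s + j, hlt⟩ - c j‖ + ‖c j‖ := by
          calc ‖x' ⟨s + j, hlt⟩‖ = ‖(x' ⟨s + j, hlt⟩ - c j) + c j‖ := by ring_nf
            _ ≤ _ := norm_add_le _ _
        have := hc j
        linarith
      have h4 : ex ε x' (s + j) = x' ⟨s + j, hlt⟩ := by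
        unfold ex
        rw [dif_pos hlt, clip_of_lt h3]
      rw [h4]
      exact h1
    have h5 := capt_of_norm hr hR (hfol (ex ε x') hexx)
    have h6 := capt_stay hr (hX (ex ε x') (fun t => ex_lt hε x' t)) (s + k) h5 (J - k)
    rw [← cp_add] at h6
    have h7 : k + (J - k) = J := by omega
    rwa [h7] at h6
  · have h1 := lm_prod (ν := nu ε) (s := bk n s (s + J))
      (A := fun i => Metric.ball (c (i.1 - s)) (τ / 2))
      (fun i => Metric.isOpen_ball.measurableSet) x
    have h2 : ∀ i ∈ bk n s (s + J), nu ε (Metric.ball (c (i.1 - s)) (τ / 2)) =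
        ENNReal.ofReal ((τ / 2 / ε) ^ 2) := by
      intro i _
      exact nu_ball hε (by positivity) (hc _)
    rw [Finset.prod_congr rfl h2, Finset.prod_const, bk_card (Nat.le_add_right _ _) hn,
      Nat.add_sub_cancel_left] at h1
    exact le_of_eq h1.symm

/-- irregular blocks -/
def irr {n : ℕ} (ε κ : ℝ) (m s : ℕ) : Set (Fin n → ℂ) :=
  {x | ε < ‖ex ε x s‖ + κ * ε} ∪ {x | ∃ j < m, x ∈ {x | ∀ i < m,
    ε / 2 < ‖ex ε x (s + 1 + j * m + i)‖}}

theorem sub_meas {n : ℕ} (ε : ℝ) (s m : ℕ) :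
    MeasurableSet {x : Fin n → ℂ | ∀ i < m, ε / 2 < ‖ex ε x (s + i)‖} := by
  have : {x : Fin n → ℂ | ∀ i < m, ε / 2 < ‖ex ε x (s + i)‖} =
      ⋂ i ∈ Finset.range m, {x : Fin n → ℂ | ε / 2 < ‖ex ε x (s + i)‖} := by
    ext x
    simp
  rw [this]
  exact Finset.measurableSet_biInter _
    (fun i _ => measurableSet_lt measurable_const (ex_meas ε (s + i)).norm)

theorem irr_meas {n : ℕ} (ε κ : ℝ) (m s : ℕ) : MeasurableSet (irr (n := n) ε κ m s) := by
  apply MeasurableSet.union
  · exact measurableSet_lt measurable_const ((ex_meas ε s).norm.add_const _)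
  · have : {x : Fin n → ℂ | ∃ j < m, x ∈ {x : Fin n → ℂ | ∀ i < m,
        ε / 2 < ‖ex ε x (s + 1 + j * m + i)‖}} =
        ⋃ j ∈ Finset.range m, {x : Fin n → ℂ | ∀ i < m,
          ε / 2 < ‖ex ε x (s + 1 + j * m + i)‖} := by
      ext x
      simp
    rw [this]
    exact Finset.measurableSet_biUnion _ (fun j _ => sub_meas ε (s + 1 + j * m) m)

theorem irr_congr {n : ℕ} {ε κ : ℝ} {m s : ℕ} {x x' : Fin n → ℂ}
    (h : ∀ i ∈ bk n s (s + (1 + m * m)), x i = x' i) : x ∈ irr ε κ m s ↔ x' ∈ irr ε κ m s := by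
  have h1 : ∀ i < 1 + m * m, ex ε x (s + i) = ex ε x' (s + i) := fun i hi =>
    ex_congr h (Nat.le_add_right _ _) (by omega)
  have h0 : ex ε x s = ex ε x' s := by
    have := h1 0 (by omega)
    rwa [Nat.add_zero] at this
  have h2 : ∀ j < m, ∀ i < m, ex ε x (s + 1 + j * m + i) = ex ε x' (s + 1 + j * m + i) := by
    intro j hj i hi
    have h3 : j * m + i < m * m := by
      calc j * m + i < j * m + m := by omega
        _ = (j + 1) * m := by ring
        _ ≤ m * m := Nat.mul_le_mul_right _ hj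
    have h4 := h1 (1 + (j * m + i)) (by omega)
    have h5 : s + (1 + (j * m + i)) = s + 1 + j * m + i := by omega
    rwa [h5] at h4
  unfold irr
  simp only [Set.mem_union, Set.mem_setOf_eq]
  rw [h0]
  apply or_congr Iff.rfl
  constructor
  · rintro ⟨j, hj, hi⟩
    exact ⟨j, hj, fun i him => by rw [← h2 j hj i him]; exact hi i him⟩
  · rintro ⟨j, hj, hi⟩
    exact ⟨j, hj, fun i him => by rw [h2 j hj i him]; exact hi i him⟩

theorem irr_prob {n : ℕ} {ε κ : ℝ} (hε : 0 < ε) (hκ : 0 < κ) (hκ1 : κ < 1) {m s : ℕ}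
    (hn : s + (1 + m * m) ≤ n) (x : Fin n → ℂ) :
    (∫⋯∫⁻_(bk n s (s + (1 + m * m))), ((irr ε κ m s).indicator 1) ∂(fun _ => nu ε)) x ≤
      ENNReal.ofReal (2 * κ) + m * ENNReal.ofReal (3 / 4) ^ m := by
  have := nu_prob hε
  have hm1 : MeasurableSet {x : Fin n → ℂ | ε < ‖ex ε x s‖ + κ * ε} :=
    measurableSet_lt measurable_const ((ex_meas ε s).norm.add_const _)
  have hm2 : MeasurableSet {x : Fin n → ℂ | ∃ j < m, x ∈ {x : Fin n → ℂ | ∀ i < m,
        ε / 2 < ‖ex ε x (s + 1 + j * m + i)‖}} := by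
    have : {x : Fin n → ℂ | ∃ j < m, x ∈ {x : Fin n → ℂ | ∀ i < m,
        ε / 2 < ‖ex ε x (s + 1 + j * m + i)‖}} =
        ⋃ j ∈ Finset.range m, {x : Fin n → ℂ | ∀ i < m,
          ε / 2 < ‖ex ε x (s + 1 + j * m + i)‖} := by
      ext x
      simp
    rw [this]
    exact Finset.measurableSet_biUnion _ (fun j _ => sub_meas ε (s + 1 + j * m) m)
  refine (lm_union hm1 hm2 x).trans (add_le_add ?_ ?_)
  · -- first kick
    refine lm_le_of_subset (t := bk n s (s + 1)) ?_ (measurable_one.indicator hm1) (fun x => ?_) x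
    · intro i hi
      rw [mem_bk] at hi ⊢
      omega
    · have h1 : ∀ x' : Fin n → ℂ, ({x : Fin n → ℂ | ε < ‖ex ε x s‖ + κ * ε}.indicator
          (1 : (Fin n → ℂ) → ℝ≥0∞)) x' ≤
          ({x : Fin n → ℂ | ∀ i ∈ bk n s (s + 1), x i ∈ {u : ℂ | (1 - κ) * ε < ‖u‖}}.indicator 1) x' := by
        intro x'
        by_cases hx' : x' ∈ {x : Fin n → ℂ | ε < ‖ex ε x s‖ + κ * ε}
        · have h2 : x' ∈ {x : Fin n → ℂ | ∀ i ∈ bk n s (s + 1), x i ∈ {u : ℂ | (1 - κ) * ε < ‖u‖}} := by
            intro i hi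
            rw [mem_bk] at hi
            have hi' : i.1 = s := by omega
            have hx'' : ε < ‖ex ε x' s‖ + κ * ε := hx'
            have hsn : s < n := by omega
            have h3 : i = ⟨s, hsn⟩ := Fin.ext hi'
            unfold ex at hx''
            rw [dif_pos hsn, ← h3] at hx''
            show (1 - κ) * ε < ‖x' i‖
            unfold clip at hx''
            split_ifs at hx'' with h4
            · linarith
            · rw [norm_zero] at hx''
              nlinarith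
          rw [Set.indicator_of_mem hx', Set.indicator_of_mem h2]
        · rw [Set.indicator_of_notMem hx']
          exact zero_le
      refine (lmarginal_mono (fun x' => h1 x') x).trans ?_
      rw [lm_prod (fun i => measurableSet_lt measurable_const measurable_norm)]
      have h2 : nu ε {u : ℂ | (1 - κ) * ε < ‖u‖} ≤ ENNReal.ofReal (2 * κ) := by
        refine (nu_far hε (by nlinarith) (by nlinarith)).trans (ENNReal.ofReal_le_ofReal ?_)
        rw [mul_div_assoc, div_self hε.ne', mul_one]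
        nlinarith
      rw [Finset.prod_const, bk_card (Nat.le_add_right s 1) (by omega), Nat.add_sub_cancel_left, pow_one]
      exact h2
  · refine lm_iUnion (fun j => sub_meas ε (s + 1 + j * m) m) x (fun j hj => ?_)
    have hjm : j * m + m ≤ m * m := by
      calc j * m + m = (j + 1) * m := by ring
        _ ≤ m * m := Nat.mul_le_mul_right _ hj
    refine lm_le_of_subset (t := bk n (s + 1 + j * m) (s + 1 + j * m + m)) ?_
      (measurable_one.indicator (sub_meas ε (s + 1 + j * m) m)) (fun x => ?_) x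
    · intro i hi
      rw [mem_bk] at hi ⊢
      omega
    · have h1 : ∀ x' : Fin n → ℂ, ({x : Fin n → ℂ | ∀ i < m,
          ε / 2 < ‖ex ε x (s + 1 + j * m + i)‖}.indicator (1 : (Fin n → ℂ) → ℝ≥0∞)) x' ≤
          ({x : Fin n → ℂ | ∀ i ∈ bk n (s + 1 + j * m) (s + 1 + j * m + m),
            x i ∈ {u : ℂ | ε / 2 < ‖u‖}}.indicator 1) x' := by
        intro x'
        by_cases hx' : x' ∈ {x : Fin n → ℂ | ∀ i < m, ε / 2 < ‖ex ε x (s + 1 + j * m + i)‖}
        · have h2 : x' ∈ {x : Fin n → ℂ | ∀ i ∈ bk n (s + 1 + j * m) (s + 1 + j * m + m),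
              x i ∈ {u : ℂ | ε / 2 < ‖u‖}} := by
            intro i hi
            rw [mem_bk] at hi
            have hx'' := hx' (i.1 - (s + 1 + j * m)) (by omega)
            have e1 : s + 1 + j * m + (i.1 - (s + 1 + j * m)) = i.1 := by omega
            rw [e1] at hx''
            unfold ex at hx''
            rw [dif_pos i.2] at hx''
            show ε / 2 < ‖x' i‖
            unfold clip at hx''
            split_ifs at hx'' with h4
            · exact hx''
            · rw [norm_zero] at hx''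
              linarith
          rw [Set.indicator_of_mem hx', Set.indicator_of_mem h2]
        · rw [Set.indicator_of_notMem hx']
          exact zero_le
      refine (lmarginal_mono (fun x' => h1 x') x).trans ?_
      rw [lm_prod (fun i => measurableSet_lt measurable_const measurable_norm)]
      have h2 : nu ε {u : ℂ | ε / 2 < ‖u‖} ≤ ENNReal.ofReal (3 / 4) := by
        refine (nu_far hε (by positivity) (by linarith)).trans (ENNReal.ofReal_le_ofReal ?_)
        rw [div_div, mul_comm 2 ε, ← div_div, div_self hε.ne']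
        norm_num
      rw [Finset.prod_const, bk_card (Nat.le_add_right _ _) (by omega), Nat.add_sub_cancel_left]
      gcongr

end Pool.Agent.H35.ME
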