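import Mathlib
import Pool.Agent.H84.UC.Record

/-!
# Segments: deterministic part (compare H35/UP/SegG)
-/

set_option autoImplicit false

open Pool.Agent.H84.UC

namespace Pool.Agent.H35.ME

theorem cp_blocksA {S : Type} (G : ℕ → S → S) (s J i k : ℕ) (x : S) :
    cp (fun i x => cp G (s + i * J) J x) i k x = cp G (s + i * J) (k * J) x := by
  induction k with
  | zero => simp
  | succ k ih =>
    rw [cp_succ, ih, Nat.succ_mul, cp_add, Nat.add_mul, Nat.add_assoc]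

theorem half_iter {S : Type} [MetricSpace S] {G : ℕ → S → S} {X : S} {r : ℝ}
    (hX : ∀ t x, dist x X ≤ r → dist (G t x) X ≤ dist x X / 2) (s : ℕ) {x : S}
    (hx : dist x X ≤ r) (k : ℕ) : dist (cp G s k x) X ≤ dist x X / 2 ^ k := by
  have h0 : 0 ≤ dist x X := dist_nonneg
  induction k with
  | zero => simp
  | succ k ih =>
    rw [cp_succ]
    have h1 : dist x X / 2 ^ k ≤ dist x X := div_le_self h0 (one_le_pow₀ (by norm_num))
    have h2 := hX (s + k) (cp G s k x) (by linarith)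
    have h3 : dist x X / 2 ^ (k + 1) = dist x X / 2 ^ k / 2 := by
      rw [pow_succ]; field_simp
    rw [h3]
    linarith

open Classical in
theorem segA {S : Type} [MetricSpace S]
    {L r ρL ρ : ℝ} (hL : 1 ≤ L) (hr : 0 < r) (hρL : 0 < ρL) (hρ : 0 < ρ) {J a b e lq : ℕ}
    (hJ : 1 ≤ J) (ha : L ^ J ≤ 2 ^ a) (G : ℕ → S → S) (X : S)
    (hlip : ∀ t x y, dist (G t x) (G t y) ≤ L * dist x y)
    (hX : ∀ t x, dist x X ≤ r → dist (G t x) X ≤ dist x X / 2) (s : ℕ)
    (N : Finset S) (hN : ∀ x, ∃ ζ ∈ N, dist ζ x ≤ ρL)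
    (h1 : ρ * 2 ^ ((a + 1) * e) ≤ ρL) (h2 : ρ * 2 ^ ((a + 1) * e) ≤ r / 8)
    (h3 : 7 / 8 * r / 2 ^ lq < ρ) (h4 : (ρL + ρ) * 2 ^ ((a + 1) * e + a * lq) / 2 ^ b < ρ)
    (p : S) (E : ℕ → Prop) (hE : ((Finset.range b).filter E).card ≤ e)
    (hgood : ∀ i < b, ¬ dist (cp G s (i * J) p) X ≤ 3 / 4 * r → ¬ E i →
      ∀ x, dist x (cp G s (i * J) p) ≤ ρL →
      dist (cp G (s + i * J) J x) (cp G (s + i * J) J (cp G s (i * J) p)) ≤
        dist x (cp G s (i * J) p) / 2) :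
    ∃ z, (z = X ∨ ∃ i ≤ b, ∃ ζ ∈ N, z = cp G (s + i * J) (b * J + lq - i * J) ζ) ∧
      ∀ x, dist x p ≤ ρ → dist (cp G s (b * J + lq) x) z < ρ := by
  have hL0 : 0 ≤ L := by linarith
  set g : ℕ → S → S := fun i x => cp G (s + i * J) J x with hg
  have hcp : ∀ i k x, cp g i k x = cp G (s + i * J) (k * J) x := fun i k x =>
    cp_blocksA G s J i k x
  have hcp0 : ∀ k x, cp g 0 k x = cp G s (k * J) x := by
    intro k x
    rw [hcp, Nat.zero_mul, Nat.add_zero]
  have hglip : ∀ i x y, dist (g i x) (g i y) ≤ 2 ^ a * dist x y := by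
    intro i x y
    calc dist (g i x) (g i y) ≤ L ^ J * dist x y := cp_lip hL0 (fun i _ x y => hlip _ x y) x y
      _ ≤ 2 ^ a * dist x y := mul_le_mul_of_nonneg_right ha dist_nonneg
  have hgood' : ∀ i < b, ¬ dist (cp G s (i * J) p) X ≤ 3 / 4 * r → ¬ E i →
      ∀ x, dist x (cp g 0 i p) ≤ ρL →
      dist (g i x) (g i (cp g 0 i p)) ≤ dist x (cp g 0 i p) / 2 := by
    intro i hi hcap hEi x hx
    rw [hcp0] at hx ⊢
    exact hgood i hi hcap hEi x hx
  have h2pos : (0 : ℝ) < 2 ^ ((a + 1) * e) := by positivity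
  have hpow : (2 : ℝ) ^ (a * e) ≤ 2 ^ ((a + 1) * e) :=
    pow_le_pow_right₀ (by norm_num) (Nat.mul_le_mul_right _ (Nat.le_succ a))
  have hxp : ∀ x, dist x p ≤ ρ → dist x p * 2 ^ (a * e) ≤ ρL := by
    intro x hx
    calc dist x p * 2 ^ (a * e) ≤ ρ * 2 ^ ((a + 1) * e) :=
          mul_le_mul hx hpow (by positivity) hρ.le
      _ ≤ ρL := h1
  by_cases hcase : ∃ i ≤ b, dist (cp G s (i * J) p) X ≤ 3 / 4 * r
  · -- case 1
    have hex : ∃ i, i ≤ b ∧ dist (cp G s (i * J) p) X ≤ 3 / 4 * r := hcase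
    set i₀ := Nat.find hex with hi₀
    obtain ⟨hi₀b, hi₀c⟩ := Nat.find_spec hex
    rw [← hi₀] at hi₀b hi₀c
    have hmin : ∀ i < i₀, ¬ dist (cp G s (i * J) p) X ≤ 3 / 4 * r := by
      intro i hi hc
      exact Nat.find_min hex hi ⟨by omega, hc⟩
    have hcard0 : ((Finset.range i₀).filter E).card ≤ e := by
      refine le_trans (Finset.card_le_card ?_) hE
      apply Finset.filter_subset_filter
      intro i hi
      rw [Finset.mem_range] at hi ⊢
      omega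
    obtain ⟨-, hrec⟩ := record g i₀ a e p ρL hρL E (fun i _ _ x => hglip i x _)
      (fun i hi hEi x hx => hgood' i (by omega) (hmin i hi) hEi x hx) (by convert hcard0) N hN
    refine ⟨X, Or.inl rfl, fun x hx => ?_⟩
    have e1 := hrec x (hxp x hx)
    rw [hcp0, hcp0] at e1
    have e2 : dist x p * 2 ^ ((a + 1) * e) / 2 ^ i₀ ≤ r / 8 := by
      have : dist x p * 2 ^ ((a + 1) * e) ≤ ρ * 2 ^ ((a + 1) * e) :=
        mul_le_mul_of_nonneg_right hx h2pos.le
      have h5 : dist x p * 2 ^ ((a + 1) * e) / 2 ^ i₀ ≤ dist x p * 2 ^ ((a + 1) * e) := by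
        apply div_le_self (by positivity)
        exact one_le_pow₀ (by norm_num)
      linarith
    have e3 : dist (cp G s (i₀ * J) x) X ≤ 7 / 8 * r := by
      have := dist_triangle (cp G s (i₀ * J) x) (cp G s (i₀ * J) p) X
      linarith
    have hle : i₀ * J ≤ b * J := Nat.mul_le_mul_right _ hi₀b
    have hsum : b * J + lq = i₀ * J + (b * J - i₀ * J + lq) := by omega
    rw [hsum, cp_add]
    have e4 := half_iter hX (s + i₀ * J) (x := cp G s (i₀ * J) x) (by linarith)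
      (b * J - i₀ * J + lq)
    refine lt_of_le_of_lt (e4.trans ?_) h3
    have e5 : (2 : ℝ) ^ lq ≤ 2 ^ (b * J - i₀ * J + lq) :=
      pow_le_pow_right₀ (by norm_num) (Nat.le_add_left _ _)
    have e6 : (0 : ℝ) < 2 ^ lq := by positivity
    calc dist (cp G s (i₀ * J) x) X / 2 ^ (b * J - i₀ * J + lq)
        ≤ 7 / 8 * r / 2 ^ (b * J - i₀ * J + lq) := by gcongr
      _ ≤ 7 / 8 * r / 2 ^ lq := by gcongr
  · -- case 2
    push Not at hcase
    obtain ⟨⟨i, hi, ζ, hζ, hdist⟩, hrec⟩ := record g b a e p ρL hρL E (fun i _ _ x => hglip i x _)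
      (fun i hi hEi x hx => hgood' i hi (not_le.2 (hcase i hi.le)) hEi x hx) (by convert hE) N hN
    have hiJ : s + i * J + (b - i) * J = s + b * J := by
      rw [Nat.add_assoc, ← Nat.add_mul, Nat.add_sub_cancel' hi]
    have hiJ2 : i * J ≤ b * J := Nat.mul_le_mul_right _ hi
    have hlen : b * J + lq - i * J = (b - i) * J + lq := by
      rw [Nat.sub_mul]
      omega
    refine ⟨cp G (s + i * J) (b * J + lq - i * J) ζ, Or.inr ⟨i, hi, ζ, hζ, rfl⟩, fun x hx => ?_⟩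
    rw [hlen, cp_add, cp_add, hiJ]
    have e1 := hrec x (hxp x hx)
    rw [hcp0, hcp0] at e1
    rw [hcp, hcp0] at hdist
    have e2 : dist (cp G s (b * J) x) (cp G (s + i * J) ((b - i) * J) ζ) ≤
        (ρL + ρ) * 2 ^ ((a + 1) * e) / 2 ^ b := by
      have h5 := dist_triangle (cp G s (b * J) x) (cp G s (b * J) p)
        (cp G (s + i * J) ((b - i) * J) ζ)
      rw [dist_comm (cp G s (b * J) p)] at h5
      have h6 : dist x p * 2 ^ ((a + 1) * e) / 2 ^ b ≤ ρ * 2 ^ ((a + 1) * e) / 2 ^ b := by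
        gcongr
      have h7 : (ρL + ρ) * 2 ^ ((a + 1) * e) / 2 ^ b =
          ρ * 2 ^ ((a + 1) * e) / 2 ^ b + ρL * 2 ^ ((a + 1) * e) / 2 ^ b := by ring
      rw [h7]
      linarith
    have hL2 : L ≤ 2 ^ a := by
      calc L = L ^ 1 := (pow_one L).symm
        _ ≤ L ^ J := pow_le_pow_right₀ hL hJ
        _ ≤ 2 ^ a := ha
    have hLq : L ^ lq ≤ 2 ^ (a * lq) := by
      rw [pow_mul]
      exact pow_le_pow_left₀ hL0 hL2 lq
    calc dist (cp G (s + b * J) lq (cp G s (b * J) x))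
          (cp G (s + b * J) lq (cp G (s + i * J) ((b - i) * J) ζ))
        ≤ L ^ lq * dist (cp G s (b * J) x) (cp G (s + i * J) ((b - i) * J) ζ) :=
          cp_lip hL0 (fun i _ x y => hlip _ x y) _ _
      _ ≤ 2 ^ (a * lq) * ((ρL + ρ) * 2 ^ ((a + 1) * e) / 2 ^ b) :=
          mul_le_mul hLq e2 dist_nonneg (by positivity)
      _ = (ρL + ρ) * 2 ^ ((a + 1) * e + a * lq) / 2 ^ b := by
          rw [pow_add]; ring
      _ < ρ := h4

end Pool.Agent.H35.ME
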