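import Mathlib
import Pool.Agent.H35.ME.Prob
import Pool.Agent.H35.ME.Seg

/-!
# One point, one segment: good noise and its probability
-/

set_option autoImplicit false

open MeasureTheory Filter Topology OnePoint Polynomial
open scoped ENNReal
open Pool.Agent.H44.Fatou
open Pool.Agent.H84.UC

namespace Pool.Agent.H35.ME

/-- the constants and their properties -/
structure Dat (P : ℕ → Polynomial ℂ) (ε R r Λ κ τ L ρL : ℝ) (m a : ℕ) : Prop where
  hε : 0 < ε
  hr : 0 < r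
  hR : 4 / (3 * r) ≤ R - 1
  hΛ : 1 ≤ Λ
  hlip : ∀ t w z, ‖w‖ ≤ R → ‖z - w‖ ≤ 1 → ‖ev P t z - ev P t w‖ ≤ Λ * ‖z - w‖
  hX : ∀ a : ℕ → ℂ, (∀ t, ‖a t‖ < ε) → ∀ t x, dist x (∞ : Sph) ≤ r →
    dist (Gm P a t x) (∞ : Sph) ≤ dist x (∞ : Sph) / 2
  hL : 1 ≤ L
  hGL : ∀ a : ℕ → ℂ, (∀ t, ‖a t‖ < ε) → ∀ t x y,
    dist (Gm P a t x) (Gm P a t y) ≤ L * dist x y
  hκ : 0 < κ
  hκ1 : κ < 1
  hτ : 0 < τ
  hτε : τ ≤ ε
  hJτ : ((1 + m * m : ℕ) : ℝ) * Λ ^ (1 + m * m) * τ ≤ 1
  ha : L ^ (1 + m * m) ≤ 2 ^ a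
  hρL : 0 < ρL
  h1 : 2 * (1 + R) ^ 2 * ρL ≤ 1
  h2 : Λ * (2 * (1 + R) ^ 2 * ρL) ≤ κ * ε / 2
  h3 : 4 * R / (κ * ε) * (Λ * (2 * (1 + R) ^ 2)) ≤ (1 + ε / (8 * R)) ^ m / 2

/-- one block -/
noncomputable def stp {n : ℕ} (P : ℕ → Polynomial ℂ) (ε : ℝ) (J s k : ℕ) (x : Fin n → ℂ) (y : ℂ) :
    ℂ := cp (pl (ev P) (ex ε x)) (s + k * J) J y

open Classical in
noncomputable def ctA {n : ℕ} (P : ℕ → Polynomial ℂ) (ε R r : ℝ) (J s k : ℕ) (_x : Fin n → ℂ)
    (y : ℂ) : ℕ := if y ∉ capt r ∧ y ∈ NS (ev P) ε R J (s + k * J) then 1 else 0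

open Classical in
noncomputable def ctB {n : ℕ} (ε κ : ℝ) (m s k : ℕ) (x : Fin n → ℂ) (_y : Unit) : ℕ :=
  if x ∈ irr ε κ m (s + k * (1 + m * m)) then 1 else 0

theorem tot_orb {n : ℕ} (P : ℕ → Polynomial ℂ) (ε : ℝ) (J s : ℕ)
    (ct : ℕ → (Fin n → ℂ) → ℂ → ℕ) (x : Fin n → ℂ) (b : ℕ) : ∀ (k : ℕ) (y : ℂ),
    tot (stp P ε J s) ct b k x y = ∑ i ∈ Finset.range b,
      ct (k + i) x (cp (pl (ev P) (ex ε x)) (s + k * J) (i * J) y) := by
  induction b with
  | zero => intro k y; rfl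
  | succ b ih =>
    intro k y
    rw [tot, ih, Finset.sum_range_succ', Nat.add_comm]
    congr 1
    · apply Finset.sum_congr rfl
      intro i _
      have e1 : k + 1 + i = k + (i + 1) := by omega
      have e2 : (i + 1) * J = J + i * J := by ring
      have e3 : s + (k + 1) * J = s + k * J + J := by ring
      rw [e1, e2, cp_add, e3]
      rfl
    · rw [Nat.zero_mul, Nat.add_zero]
      rfl

theorem tot_unit {n : ℕ} (ct : ℕ → (Fin n → ℂ) → Unit → ℕ) (x : Fin n → ℂ) (b : ℕ) : ∀ (k : ℕ),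
    tot (fun _ _ y => y) ct b k x () = ∑ i ∈ Finset.range b, ct (k + i) x () := by
  induction b with
  | zero => intro k; rfl
  | succ b ih =>
    intro k
    rw [tot, ih, Finset.sum_range_succ', Nat.add_comm]
    congr 1
    apply Finset.sum_congr rfl
    intro i _
    have e1 : k + 1 + i = k + (i + 1) := by omega
    rw [e1]

/-- quiet kicks of a regular block -/
theorem quiet {n : ℕ} {ε κ : ℝ} {m s : ℕ} {x : Fin n → ℂ} (hx : x ∉ irr ε κ m s) :
    ‖ex ε x s‖ + κ * ε ≤ ε ∧ ∃ Q : Finset ℕ, (∀ k ∈ Q, 1 ≤ k ∧ k < 1 + m * m ∧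
      ‖ex ε x (s + k)‖ ≤ ε / 2) ∧ m ≤ Q.card := by
  classical
  unfold irr at hx
  rw [Set.mem_union, not_or] at hx
  obtain ⟨h1, h2⟩ := hx
  refine ⟨not_lt.1 h1, ?_⟩
  have h3 : ∀ j < m, ∃ i < m, ‖ex ε x (s + 1 + j * m + i)‖ ≤ ε / 2 := by
    intro j hj
    by_contra hc
    push Not at hc
    exact h2 ⟨j, hj, hc⟩
  choose! f hf1 hf2 using h3
  refine ⟨(Finset.range m).image (fun j => 1 + j * m + f j), ?_, ?_⟩
  · intro k hk
    rw [Finset.mem_image] at hk
    obtain ⟨j, hj, rfl⟩ := hk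
    rw [Finset.mem_range] at hj
    have h4 := hf1 j hj
    have h5 : j * m + m ≤ m * m := by
      calc j * m + m = (j + 1) * m := by ring
        _ ≤ m * m := Nat.mul_le_mul_right _ hj
    refine ⟨by omega, by omega, ?_⟩
    have h6 := hf2 j hj
    have e : s + (1 + j * m + f j) = s + 1 + j * m + f j := by omega
    rw [e]
    exact h6
  · rw [Finset.card_image_of_injOn, Finset.card_range]
    intro i hi j hj hij
    rw [Finset.mem_coe, Finset.mem_range] at hi hj
    have h4 := hf1 i hi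
    have h5 := hf1 j hj
    have h6 : 1 + i * m + f i = 1 + j * m + f j := hij
    have h7 : i * m + f i = j * m + f j := by omega
    have hm : 0 < m := by omega
    have h8 : (i * m + f i) / m = i := by
      rw [Nat.add_comm, Nat.add_mul_div_right _ _ hm, Nat.div_eq_of_lt h4, Nat.zero_add]
    have h9 : (j * m + f j) / m = j := by
      rw [Nat.add_comm, Nat.add_mul_div_right _ _ hm, Nat.div_eq_of_lt h5, Nat.zero_add]
    rw [← h8, h7, h9]

theorem seg_good {n : ℕ} {P : ℕ → Polynomial ℂ} {ε R r Λ κ τ L ρL : ℝ} {m a : ℕ}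
    (D : Dat P ε R r Λ κ τ L ρL m a) (N : Finset ℂ)
    (hN : ∀ x : Sph, ∃ ζ ∈ N, dist ((ζ : ℂ) : Sph) x ≤ ρL) {x : Fin n → ℂ} {s b lq q : ℕ} {y : ℂ}
    {ρ : ℝ} (hρ : 0 < ρ)
    (g1 : ρ * 2 ^ ((a + 1) * (2 * q)) ≤ ρL) (g2 : ρ * 2 ^ ((a + 1) * (2 * q)) ≤ r / 8)
    (g3 : 7 / 8 * r / 2 ^ lq < ρ)
    (g4 : (ρL + ρ) * 2 ^ ((a + 1) * (2 * q) + a * lq) / 2 ^ b < ρ)
    (hA : ¬ q + 1 ≤ tot (stp P ε (1 + m * m) s) (ctA P ε R r (1 + m * m) s) b 0 x y)
    (hB : ¬ q ≤ tot (fun _ _ y => y) (ctB ε κ m s) b 0 x ()) :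
    ∃ z : Sph, (z = (∞ : Sph) ∨ ∃ i ≤ b, ∃ ζ ∈ N, z = ((cp (pl (ev P) (ex ε x)) (s + i * (1 + m * m))
      (b * (1 + m * m) + lq - i * (1 + m * m)) ζ : ℂ) : Sph)) ∧
      ∀ x' : Sph, dist x' (y : Sph) ≤ ρ →
        dist (cp (Gm P (ex ε x)) s (b * (1 + m * m) + lq) x') z < ρ := by
  classical
  set J := 1 + m * m with hJ
  have hexl : ∀ t, ‖ex ε x t‖ < ε := fun t => ex_lt D.hε x t
  have hR0 : 0 < R := by
    have : 0 < 4 / (3 * r) := by have := D.hr; positivity
    have := D.hR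
    linarith
  set yi : ℕ → ℂ := fun i => cp (pl (ev P) (ex ε x)) s (i * J) y with hyi
  have hcoe : ∀ i, cp (Gm P (ex ε x)) s (i * J) (y : Sph) = ((yi i : ℂ) : Sph) :=
    fun i => cp_coe P (ex ε x) s (i * J) y
  set E1 : ℕ → Prop := fun i => yi i ∉ capt r ∧ yi i ∈ NS (ev P) ε R J (s + i * J) with hE1
  set E2 : ℕ → Prop := fun i => x ∈ irr ε κ m (s + i * J) with hE2
  have c1 : ((Finset.range b).filter E1).card ≤ q := by
    rw [tot_orb] at hA
    have h1 : ∑ i ∈ Finset.range b, ctA P ε R r J s (0 + i) x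
        (cp (pl (ev P) (ex ε x)) (s + 0 * J) (i * J) y) = ((Finset.range b).filter E1).card := by
      rw [Finset.card_filter]
      apply Finset.sum_congr rfl
      intro i _
      rw [Nat.zero_mul, Nat.add_zero, Nat.zero_add]
      rfl
    rw [h1] at hA
    omega
  have c2 : ((Finset.range b).filter E2).card ≤ q := by
    rw [tot_unit] at hB
    have h1 : ∑ i ∈ Finset.range b, ctB ε κ m s (0 + i) x () =
        ((Finset.range b).filter E2).card := by
      rw [Finset.card_filter]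
      apply Finset.sum_congr rfl
      intro i _
      rw [Nat.zero_add]
      rfl
    rw [h1] at hB
    omega
  have hE : ((Finset.range b).filter (fun i => E1 i ∨ E2 i)).card ≤ 2 * q := by
    rw [Finset.filter_or]
    have := Finset.card_union_le ((Finset.range b).filter E1) ((Finset.range b).filter E2)
    omega
  obtain ⟨z, hz, hzx⟩ := segA D.hL D.hr D.hρL hρ (J := J) (b := b) (lq := lq)
    (by omega : 1 ≤ J) D.ha (Gm P (ex ε x)) (∞ : Sph)
    (D.hGL _ hexl) (D.hX _ hexl) s (N.image (fun ζ : ℂ => (ζ : Sph)))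
    (by
      intro x'
      obtain ⟨ζ, hζ, hd⟩ := hN x'
      exact ⟨(ζ : Sph), Finset.mem_image_of_mem _ hζ, hd⟩)
    g1 g2 g3 g4 (y : Sph) (fun i => E1 i ∨ E2 i) (by convert hE) (by
      intro i _ hcap hEi x' hx'
      rw [hcoe] at hcap hx' ⊢
      have hEi' := not_or.1 hEi
      have hyc : yi i ∉ capt r := hcap
      have hyN : yi i ∉ NS (ev P) ε R J (s + i * J) := fun h => hEi'.1 ⟨hyc, h⟩
      obtain ⟨hk, Q, hQ1, hQ2⟩ := quiet (x := x) hEi'.2
      exact blk_contr D.hε hR0 (mul_pos D.hκ D.hε) D.hΛ D.hlip (by omega : 1 ≤ J) hexl hk Q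
        hQ1 hQ2 D.h1 D.h2 D.h3 (norm_of_not_capt D.hr D.hR hyc) hyN x' hx')
  refine ⟨z, ?_, hzx⟩
  rcases hz with hz | ⟨i, hi, ζ, hζ, hz⟩
  · exact Or.inl hz
  · right
    rw [Finset.mem_image] at hζ
    obtain ⟨ζ', hζ', rfl⟩ := hζ
    exact ⟨i, hi, ζ', hζ', by rw [hz, cp_coe]⟩

section prob
variable {n : ℕ} {P : ℕ → Polynomial ℂ} {ε R r Λ κ τ L ρL : ℝ} {m a : ℕ}

theorem stp_meas (P : ℕ → Polynomial ℂ) (ε : ℝ) (J s k : ℕ) :
    Measurable (fun p : (Fin n → ℂ) × ℂ => stp P ε J s k p.1 p.2) :=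
  cp_meas (fun t => (ev_diff P t).continuous.measurable) (s + k * J) J

theorem ctA_meas (P : ℕ → Polynomial ℂ) (ε R r : ℝ) (J s k : ℕ) :
    Measurable (fun p : (Fin n → ℂ) × ℂ => ctA P ε R r J s k p.1 p.2) := by
  classical
  unfold ctA
  refine Measurable.ite ?_ measurable_const measurable_const
  have h1 : MeasurableSet {y : ℂ | y ∉ capt r ∧ y ∈ NS (ev P) ε R J (s + k * J)} :=
    (capt_meas r).compl.inter
      (NS_open (fun t => (ev_diff P t).continuous) ε R J (s + k * J)).measurableSet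
  exact measurable_snd h1

theorem probA (D : Dat P ε R r Λ κ τ L ρL m a) {s b q : ℕ}
    (hn : s + b * (1 + m * m) ≤ n) {p : (Fin n → ℂ) → ℂ} (hp : Measurable p)
    (hp' : ∀ x x' : Fin n → ℂ, (∀ i ∉ bk n s (s + b * (1 + m * m)), x i = x' i) → p x = p x') :
    Measure.pi (fun _ => nu ε) {x : Fin n → ℂ | q + 1 ≤ tot (stp P ε (1 + m * m) s)
      (ctA P ε R r (1 + m * m) s) b 0 x (p x)} ≤
      (1 - ENNReal.ofReal ((τ / 2 / ε) ^ 2) ^ (1 + m * m)) ^ q := by
  have hpr := nu_prob D.hε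
  set J := 1 + m * m with hJ
  set A : Set (Fin n → ℂ) := {x : Fin n → ℂ | q + 1 ≤ tot (stp P ε J s)
      (ctA P ε R r J s) b 0 x (p x)} with hA
  set σ : ℝ≥0∞ := 1 - ENNReal.ofReal ((τ / 2 / ε) ^ 2) ^ J with hσ
  have htm := tot_meas (X := Fin n → ℂ) (S := ℂ) (st := stp P ε J s) (ct := ctA P ε R r J s)
    (fun k => stp_meas P ε J s k) (fun k => ctA_meas P ε R r J s k) b 0
  have hAm : MeasurableSet A :=
    measurableSet_le measurable_const (htm.comp (measurable_id.prodMk hp))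
  rw [← lintegral_indicator_one hAm]
  have h1 : ∫⁻ x, A.indicator 1 x ∂Measure.pi (fun _ => nu ε) ≤
      ∫⁻ _x : Fin n → ℂ, σ ^ q ∂Measure.pi (fun _ => nu ε) := by
    apply lintegral_le_of_lmarginal_le (bk n (s + 0 * J) (s + (0 + b) * J))
      (measurable_one.indicator hAm) measurable_const
    intro x
    rw [lm_const]
    have h2 := smA (ν := nu ε) (stp P ε J s) (ctA P ε R r J s) s J
      (fun k => stp_meas P ε J s k) (fun k => ctA_meas P ε R r J s k)
      (by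
        intro k x x' y h
        apply cp_ex_congr
        have e : s + (k + 1) * J = s + k * J + J := by ring
        rw [e] at h
        exact h)
      (fun k x x' y _ => rfl) (fun _ => capt r) (fun k => NS (ev P) ε R J (s + k * J))
      (by
        intro k x y h1 h2
        unfold ctA
        rw [if_pos ⟨h1, h2⟩])
      (by
        intro k x y h
        unfold ctA
        rw [if_neg]
        rintro ⟨h1, h2⟩
        rcases h with h | h
        · exact h1 h
        · exact h h2)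
      (fun k x y hy => capt_stay D.hr (D.hX _ (fun t => ex_lt D.hε x t)) _ hy J)
      σ tsub_le_self
      (by
        intro k x y hkn h1 h2
        have e : s + (k + 1) * J = s + k * J + J := by ring
        rw [e] at hkn ⊢
        exact capture_prob D.hε D.hr D.hR D.hΛ D.hlip D.hX D.hτ D.hτε D.hJτ hkn h1 h2 x)
      b 0 (by rw [Nat.zero_add]; exact hn) (p x) q x
    refine le_trans (lm_mono_at (fun x' hx' => ?_)) h2
    have h3 : p x' = p x := by
      apply hp'
      intro i hi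
      apply hx'
      rw [Nat.zero_mul, Nat.add_zero, Nat.zero_add]
      exact hi
    by_cases h4 : x' ∈ A
    · have h5 : x' ∈ {x' | q + 1 ≤ tot (stp P ε J s) (ctA P ε R r J s) b 0 x' (p x)} := by
        have h6 : q + 1 ≤ tot (stp P ε J s) (ctA P ε R r J s) b 0 x' (p x') := h4
        rw [h3] at h6
        exact h6
      rw [Set.indicator_of_mem h4, Set.indicator_of_mem h5]
    · rw [Set.indicator_of_notMem h4]
      exact zero_le
  refine h1.trans ?_
  rw [lintegral_const, measure_univ, mul_one]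

theorem probB (D : Dat P ε R r Λ κ τ L ρL m a) {s b q : ℕ}
    (hn : s + b * (1 + m * m) ≤ n) :
    Measure.pi (fun _ => nu ε) {x : Fin n → ℂ | q ≤ tot (fun _ _ y => y) (ctB ε κ m s) b 0 x ()} ≤
      (1 + (ENNReal.ofReal (2 * κ) + m * ENNReal.ofReal (3 / 4) ^ m)) ^ b * 2⁻¹ ^ q := by
  classical
  have hpr := nu_prob D.hε
  set J := 1 + m * m with hJ
  set A : Set (Fin n → ℂ) := {x : Fin n → ℂ | q ≤ tot (fun _ _ y => y) (ctB ε κ m s) b 0 x ()}
    with hA
  set η : ℝ≥0∞ := ENNReal.ofReal (2 * κ) + m * ENNReal.ofReal (3 / 4) ^ m with hη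
  have hct : ∀ k, Measurable (fun p : (Fin n → ℂ) × Unit => ctB ε κ m s k p.1 p.2) := by
    intro k
    unfold ctB
    refine Measurable.ite ?_ measurable_const measurable_const
    exact measurable_fst (irr_meas ε κ m (s + k * J))
  have htm := tot_meas (X := Fin n → ℂ) (S := Unit) (st := fun _ _ y => y) (ct := ctB ε κ m s)
    (fun k => measurable_snd) hct b 0
  have hAm : MeasurableSet A :=
    measurableSet_le measurable_const (htm.comp (measurable_id.prodMk measurable_const))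
  rw [← lintegral_indicator_one hAm]
  have h1 : ∫⁻ x, A.indicator 1 x ∂Measure.pi (fun _ => nu ε) ≤
      ∫⁻ _x : Fin n → ℂ, (1 + η) ^ b * 2⁻¹ ^ q ∂Measure.pi (fun _ => nu ε) := by
    apply lintegral_le_of_lmarginal_le (bk n (s + 0 * J) (s + (0 + b) * J))
      (measurable_one.indicator hAm) measurable_const
    intro x
    rw [lm_const]
    exact smB (ν := nu ε) (fun k => irr ε κ m (s + k * J)) (ctB ε κ m s) s J
      (fun k => irr_meas ε κ m (s + k * J))
      (by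
        intro k x x' h
        apply irr_congr
        have e : s + (k + 1) * J = s + k * J + (1 + m * m) := by rw [hJ]; ring
        rw [e] at h
        exact h)
      (by
        intro k x y h
        unfold ctB
        rw [if_pos h])
      (by
        intro k x y h
        unfold ctB
        rw [if_neg h])
      η
      (by
        intro k x hkn
        have e : s + (k + 1) * J = s + k * J + (1 + m * m) := by rw [hJ]; ring
        rw [e] at hkn ⊢
        exact irr_prob D.hε D.hκ D.hκ1 hkn x)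
      b 0 (by rw [Nat.zero_add]; exact hn) q x
  refine h1.trans ?_
  rw [lintegral_const, measure_univ, mul_one]

end prob

end Pool.Agent.H35.ME
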