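import Mathlib
import Pool.Agent.H35.ME.Pt

/-!
# Two segments: the exceptional set and hyperbolicity outside it
-/

set_option autoImplicit false

open MeasureTheory Filter Topology OnePoint Polynomial
open scoped ENNReal
open Pool.Agent.H44.Fatou
open Pool.Agent.H84.UC
open Pool.Agent.H35.NA (Attr)
open Pool.Agent.H76.Fatou (Lift)

namespace Pool.Agent.H35.ME

/-- position at time `T` of the orbit that starts at `u` at time `t` -/
noncomputable def fl {n : ℕ} (P : ℕ → Polynomial ℂ) (ε : ℝ) (t T : ℕ) (u : ℂ) (x : Fin n → ℂ) : ℂ :=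
  cp (pl (ev P) (ex ε x)) t (T - t) u

theorem fl_meas {n : ℕ} (P : ℕ → Polynomial ℂ) (ε : ℝ) (t T : ℕ) (u : ℂ) :
    Measurable (fl (n := n) P ε t T u) :=
  (cp_meas (fun t => (ev_diff P t).continuous.measurable) t (T - t)).comp
    (measurable_id.prodMk measurable_const)

theorem fl_congr {n : ℕ} {P : ℕ → Polynomial ℂ} {ε : ℝ} {t T : ℕ} (htT : t ≤ T) {u : ℂ}
    {x x' : Fin n → ℂ} (h : ∀ i ∈ bk n t T, x i = x' i) : fl P ε t T u x = fl P ε t T u x' := by
  unfold fl
  apply cp_ex_congr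
  rw [Nat.add_sub_cancel' htT]
  exact h

/-- critical points of a polynomial -/
noncomputable def crt (Q : Polynomial ℂ) : Finset ℂ := (derivative Q).roots.toFinset

theorem crt_card {Q : Polynomial ℂ} {d : ℕ} (hQ : Q.natDegree ≤ d) : (crt Q).card ≤ d := by
  refine (Multiset.toFinset_card_le _).trans ((card_roots' _).trans ?_)
  exact (natDegree_derivative_le Q).trans (by omega)

theorem mem_crt {Q : Polynomial ℂ} (hQ : 2 ≤ Q.natDegree) {a w : ℂ}
    (h : ¬ ∃ U ∈ 𝓝 ((w : ℂ) : Sph), Set.InjOn (rat (Q + C a) 1) U) : w ∈ crt Q := by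
  have h1 := crit_coe h
  have h2 : Wr (Q + C a) 1 = derivative Q := by
    unfold Wr
    simp
  rw [h2] at h1
  unfold crt
  rw [Multiset.mem_toFinset, mem_roots]
  · exact h1
  · intro h3
    have := natDegree_eq_zero_of_derivative_eq_zero h3
    omega

section two
variable {n : ℕ} {P : ℕ → Polynomial ℂ} {ε R r Λ κ τ L ρL : ℝ} {m a : ℕ}

/-- exceptional set for the segment that starts at `s` with the point `p` -/
def exA (n : ℕ) (P : ℕ → Polynomial ℂ) (ε R r : ℝ) (m b q s : ℕ) (p : (Fin n → ℂ) → ℂ) :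
    Set (Fin n → ℂ) :=
  {x | q + 1 ≤ tot (stp P ε (1 + m * m) s) (ctA P ε R r (1 + m * m) s) b 0 x (p x)}

def exB (n : ℕ) (ε κ : ℝ) (m b q s : ℕ) : Set (Fin n → ℂ) :=
  {x | q ≤ tot (fun _ _ y => y) (ctB ε κ m s) b 0 x ()}

/-- the exceptional set -/
def exc (n : ℕ) (P : ℕ → Polynomial ℂ) (ε R r κ : ℝ) (m b q T : ℕ) (N : Finset ℂ) :
    Set (Fin n → ℂ) :=
  (exB n ε κ m b q 0 ∪ exB n ε κ m b q T) ∪
  ((⋃ t ∈ Finset.range (T + 1), ⋃ u ∈ N ∪ crt (P t), exA n P ε R r m b q T (fl P ε t T u)) ∪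
  (⋃ t ∈ Finset.Icc T n, ⋃ u ∈ N ∪ crt (P t), exA n P ε R r m b q 0 (fl P ε t n u)))

theorem exc_prob (D : Dat P ε R r Λ κ τ L ρL m a) {d : ℕ} (hd : ∀ t, (P t).natDegree ≤ d)
    (N : Finset ℂ) {b q T : ℕ} (hT : b * (1 + m * m) ≤ T) (hn : T + b * (1 + m * m) ≤ n) :
    Measure.pi (fun _ => nu ε) (exc n P ε R r κ m b q T N) ≤
      2 * ((1 + (ENNReal.ofReal (2 * κ) + m * ENNReal.ofReal (3 / 4) ^ m)) ^ b * 2⁻¹ ^ q) +
      ((n + 2) * (N.card + d) : ℕ) *
        (1 - ENNReal.ofReal ((τ / 2 / ε) ^ 2) ^ (1 + m * m)) ^ q := by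
  classical
  set β1 := (1 + (ENNReal.ofReal (2 * κ) + m * ENNReal.ofReal (3 / 4) ^ m)) ^ b *
    (2⁻¹ : ℝ≥0∞) ^ q with hβ1
  set β2 := (1 - ENNReal.ofReal ((τ / 2 / ε) ^ 2) ^ (1 + m * m)) ^ q with hβ2
  have hV : ∀ t, (N ∪ crt (P t)).card ≤ N.card + d := fun t =>
    (Finset.card_union_le _ _).trans (Nat.add_le_add_left (crt_card (hd t)) _)
  have h1 : Measure.pi (fun _ => nu ε) (⋃ t ∈ Finset.range (T + 1), ⋃ u ∈ N ∪ crt (P t),
      exA n P ε R r m b q T (fl P ε t T u)) ≤ ((T + 1) * (N.card + d) : ℕ) * β2 := by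
    refine (measure_biUnion_finset_le _ _).trans ?_
    calc _ ≤ ∑ _t ∈ Finset.range (T + 1), ((N.card + d : ℕ) : ℝ≥0∞) * β2 := by
          apply Finset.sum_le_sum
          intro t ht
          refine (measure_biUnion_finset_le _ _).trans ?_
          calc _ ≤ ∑ _u ∈ N ∪ crt (P t), β2 := by
                apply Finset.sum_le_sum
                intro u _
                apply probA D hn (fl_meas P ε t T u)
                intro x x' hxx
                apply fl_congr (by have := Finset.mem_range.1 ht; omega)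
                intro i hi
                apply hxx
                rw [mem_bk] at hi ⊢
                omega
            _ = ((N ∪ crt (P t)).card : ℝ≥0∞) * β2 := by rw [Finset.sum_const, nsmul_eq_mul]
            _ ≤ _ := by
                gcongr
                exact hV t
      _ = _ := by
          rw [Finset.sum_const, Finset.card_range, nsmul_eq_mul]
          push_cast
          ring
  have h2 : Measure.pi (fun _ => nu ε) (⋃ t ∈ Finset.Icc T n, ⋃ u ∈ N ∪ crt (P t),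
      exA n P ε R r m b q 0 (fl P ε t n u)) ≤ ((n + 1 - T) * (N.card + d) : ℕ) * β2 := by
    refine (measure_biUnion_finset_le _ _).trans ?_
    calc _ ≤ ∑ _t ∈ Finset.Icc T n, ((N.card + d : ℕ) : ℝ≥0∞) * β2 := by
          apply Finset.sum_le_sum
          intro t ht
          rw [Finset.mem_Icc] at ht
          refine (measure_biUnion_finset_le _ _).trans ?_
          calc _ ≤ ∑ _u ∈ N ∪ crt (P t), β2 := by
                apply Finset.sum_le_sum
                intro u _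
                apply probA D (by omega) (fl_meas P ε t n u)
                intro x x' hxx
                apply fl_congr ht.2
                intro i hi
                apply hxx
                rw [mem_bk] at hi ⊢
                omega
            _ = ((N ∪ crt (P t)).card : ℝ≥0∞) * β2 := by rw [Finset.sum_const, nsmul_eq_mul]
            _ ≤ _ := by
                gcongr
                exact hV t
      _ = _ := by
          rw [Finset.sum_const, Nat.card_Icc, nsmul_eq_mul]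
          push_cast
          ring
  have h3 : ((T + 1) * (N.card + d) : ℕ) * β2 + ((n + 1 - T) * (N.card + d) : ℕ) * β2 ≤
      ((n + 2) * (N.card + d) : ℕ) * β2 := by
    rw [← add_mul]
    gcongr
    have h4 : (T + 1) * (N.card + d) + (n + 1 - T) * (N.card + d) = (n + 2) * (N.card + d) := by
      rw [← Nat.add_mul]
      congr 1
      omega
    exact_mod_cast h4.le
  unfold exc
  refine (measure_union_le _ _).trans ?_
  refine add_le_add ?_ ?_
  · refine (measure_union_le _ _).trans ?_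
    rw [two_mul]
    exact add_le_add (probB D (by omega)) (probB D hn)
  · exact (measure_union_le _ _).trans ((add_le_add h1 h2).trans h3)

theorem inf_or (z : Sph) : z = (∞ : Sph) ∨ ∃ w : ℂ, z = (w : Sph) := by
  induction z using OnePoint.rec with
  | infty => exact Or.inl rfl
  | coe w => exact Or.inr ⟨w, rfl⟩

theorem gm_lift (P : ℕ → Polynomial ℂ) (a : ℕ → ℂ) (t : ℕ) : Lift (Gm P a t) :=
  Pool.Agent.H76.Fatou.lift_rat isCoprime_one_right

theorem hyp_off (D : Dat P ε R r Λ κ τ L ρL m a) (hdeg : ∀ t, 2 ≤ (P t).natDegree)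
    (N : Finset ℂ) (hN : ∀ x : Sph, ∃ ζ ∈ N, dist ((ζ : ℂ) : Sph) x ≤ ρL)
    {b lq u q T : ℕ} (hb : 1 ≤ b) (hT : T = b * (1 + m * m) + lq)
    (hn : n = T + (b * (1 + m * m) + (lq + u))) {ρ : ℝ} (hρ : 0 < ρ) (hρ2 : ρ ≤ 1 / 2)
    (g1 : ρ * 2 ^ ((a + 1) * (2 * q)) ≤ ρL) (g2 : ρ * 2 ^ ((a + 1) * (2 * q)) ≤ r / 8)
    (g3 : 7 / 8 * r / 2 ^ lq < ρ)
    (g4 : (ρL + ρ) * 2 ^ ((a + 1) * (2 * q) + a * (lq + u)) / 2 ^ b < ρ)
    {x : Fin n → ℂ} (hx : x ∉ exc n P ε R r κ m b q T N) {c : Sph}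
    (hc : ¬ ∃ U ∈ 𝓝 c, Set.InjOn (cp (Gm P (ex ε x)) 0 n) U) :
    Attr (cp (Gm P (ex ε x)) 0 n) c := by
  classical
  set J := 1 + m * m with hJ
  have hJ1 : 1 ≤ J := by omega
  set G := Gm P (ex ε x) with hG
  have hexl : ∀ t, ‖ex ε x t‖ < ε := fun t => ex_lt D.hε x t
  have hbJ : b ≤ b * J := Nat.le_mul_of_pos_right _ hJ1
  unfold exc at hx
  rw [Set.mem_union, not_or, Set.mem_union, not_or, Set.mem_union, not_or] at hx
  obtain ⟨⟨hB0, hBT⟩, hA1, hA2⟩ := hx
  have hA1' : ∀ t ≤ T, ∀ u ∈ N ∪ crt (P t), x ∉ exA n P ε R r m b q T (fl P ε t T u) := by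
    intro t ht u hu hxx
    exact hA1 (Set.mem_iUnion₂.2 ⟨t, Finset.mem_range.2 (by omega),
      Set.mem_iUnion₂.2 ⟨u, hu, hxx⟩⟩)
  have hA2' : ∀ t, T ≤ t → t ≤ n → ∀ u ∈ N ∪ crt (P t),
      x ∉ exA n P ε R r m b q 0 (fl P ε t n u) := by
    intro t ht1 ht2 u hu hxx
    exact hA2 (Set.mem_iUnion₂.2 ⟨t, Finset.mem_Icc.2 ⟨ht1, ht2⟩,
      Set.mem_iUnion₂.2 ⟨u, hu, hxx⟩⟩)
  have g3' : 7 / 8 * r / 2 ^ (lq + u) < ρ := by
    refine lt_of_le_of_lt ?_ g3
    have h5 : (2 : ℝ) ^ lq ≤ 2 ^ (lq + u) := pow_le_pow_right₀ (by norm_num) (Nat.le_add_right _ _)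
    have h6 : (0 : ℝ) < 2 ^ lq := by positivity
    have h7 : 0 ≤ 7 / 8 * r := by have := D.hr; positivity
    gcongr
  have g4' : (ρL + ρ) * 2 ^ ((a + 1) * (2 * q) + a * lq) / 2 ^ b < ρ := by
    refine lt_of_le_of_lt ?_ g4
    have h5 : (2 : ℝ) ^ ((a + 1) * (2 * q) + a * lq) ≤ 2 ^ ((a + 1) * (2 * q) + a * (lq + u)) := by
      apply pow_le_pow_right₀ (by norm_num)
      have : a * lq ≤ a * (lq + u) := Nat.mul_le_mul_left _ (Nat.le_add_right _ _)
      omega
    have h7 : 0 ≤ ρL + ρ := by have := D.hρL; positivity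
    gcongr
  -- the two nets
  set Z1 : Finset Sph := insert (∞ : Sph) ((Finset.range (b + 1) ×ˢ N).image
    (fun i => ((fl P ε (0 + i.1 * J) T i.2 x : ℂ) : Sph))) with hZ1
  set Z2 : Finset Sph := insert (∞ : Sph) ((Finset.range (b + 1) ×ˢ N).image
    (fun i => ((fl P ε (T + i.1 * J) n i.2 x : ℂ) : Sph))) with hZ2
  have good1 : ∀ t, T ≤ t → t ≤ n → ∀ u ∈ N ∪ crt (P t), ∃ z ∈ Z1, ∀ x' : Sph,
      dist x' ((fl P ε t n u x : ℂ) : Sph) ≤ ρ → dist (cp G 0 T x') z < ρ := by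
    intro t ht1 ht2 u hu
    obtain ⟨z, hz, hzx⟩ := seg_good D N hN (s := 0) (b := b) (lq := lq) (q := q) hρ g1 g2 g3 g4'
      (hA2' t ht1 ht2 u hu) hB0
    rw [← hJ, ← hT] at hzx
    refine ⟨z, ?_, hzx⟩
    rcases hz with hz | ⟨i, hi, ζ, hζ, hz⟩
    · rw [hz]; exact Finset.mem_insert_self _ _
    · apply Finset.mem_insert_of_mem
      rw [Finset.mem_image]
      refine ⟨(i, ζ), Finset.mem_product.2 ⟨Finset.mem_range.2 (by show i < b + 1; omega), hζ⟩, ?_⟩
      rw [hz, ← hJ, ← hT]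
      unfold fl
      have e : T - i * J = T - (0 + i * J) := by omega
      rw [e]
  have good2 : ∀ t ≤ T, ∀ v ∈ N ∪ crt (P t), ∃ z ∈ Z2, ∀ x' : Sph,
      dist x' ((fl P ε t T v x : ℂ) : Sph) ≤ ρ → dist (cp G T (b * J + (lq + u)) x') z < ρ := by
    intro t ht v hv
    obtain ⟨z, hz, hzx⟩ := seg_good D N hN (s := T) (b := b) (lq := lq + u) (q := q) hρ g1 g2 g3' g4
      (hA1' t ht v hv) hBT
    rw [← hJ] at hzx
    refine ⟨z, ?_, hzx⟩
    rcases hz with hz | ⟨i, hi, ζ, hζ, hz⟩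
    · rw [hz]; exact Finset.mem_insert_self _ _
    · apply Finset.mem_insert_of_mem
      rw [Finset.mem_image]
      refine ⟨(i, ζ), Finset.mem_product.2 ⟨Finset.mem_range.2 (by show i < b + 1; omega), hζ⟩, ?_⟩
      rw [hz, ← hJ]
      unfold fl
      have hiJ : i * J ≤ b * J := Nat.mul_le_mul_right _ hi
      have e : b * J + (lq + u) - i * J = n - (T + i * J) := by omega
      rw [e]
  have hsplit : ∀ x' : Sph, cp G 0 n x' = cp G T (b * J + (lq + u)) (cp G 0 T x') := by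
    intro x'
    rw [hn, cp_add, Nat.zero_add]
  have step1 : ∀ z ∈ Z1, ∃ z' ∈ Z2, ∀ x' : Sph, dist x' z ≤ ρ →
      dist (cp G T (b * J + (lq + u)) x') z' < ρ := by
    intro z hz
    rw [hZ1, Finset.mem_insert, Finset.mem_image] at hz
    rcases hz with hz | ⟨⟨i, ζ⟩, hi, hz⟩
    · refine ⟨(∞ : Sph), Finset.mem_insert_self _ _, fun x' hx' => ?_⟩
      rw [hz] at hx'
      have hρr : ρ ≤ r := by
        have h5 : ρ ≤ ρ * 2 ^ ((a + 1) * (2 * q)) := by
          apply le_mul_of_one_le_right hρ.le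
          exact one_le_pow₀ (by norm_num)
        have := D.hr
        linarith
      have h6 := half_iter (D.hX _ hexl) T (x := x') (hx'.trans hρr) (b * J + (lq + u))
      have h7 : (2 : ℝ) ≤ 2 ^ (b * J + (lq + u)) := by
        calc (2 : ℝ) = 2 ^ 1 := by norm_num
          _ ≤ 2 ^ (b * J + (lq + u)) := pow_le_pow_right₀ (by norm_num) (by omega)
      have h8 : dist x' (∞ : Sph) / 2 ^ (b * J + (lq + u)) ≤ ρ / 2 := by
        have h9 : 0 ≤ dist x' (∞ : Sph) := dist_nonneg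
        gcongr
      linarith
    · rw [Finset.mem_product, Finset.mem_range] at hi
      have hi1 : i < b + 1 := hi.1
      have hζ : ζ ∈ N := hi.2
      have hiJ : i * J ≤ b * J := Nat.mul_le_mul_right _ (by omega)
      obtain ⟨z', hz', h5⟩ := good2 (0 + i * J) (by omega) ζ (Finset.mem_union_left _ hζ)
      refine ⟨z', hz', fun x' hx' => h5 x' ?_⟩
      rw [← hz] at hx'
      exact hx'
  have step2 : ∀ z ∈ Z2, ∃ z' ∈ Z2, ∀ x' : Sph, dist x' z ≤ ρ → dist (cp G 0 n x') z' < ρ := by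
    intro z hz
    rw [hZ2, Finset.mem_insert, Finset.mem_image] at hz
    rcases hz with hz | ⟨⟨i, ζ⟩, hi, hz⟩
    · refine ⟨(∞ : Sph), Finset.mem_insert_self _ _, fun x' hx' => ?_⟩
      rw [hz] at hx'
      have hρr : ρ ≤ r := by
        have h5 : ρ ≤ ρ * 2 ^ ((a + 1) * (2 * q)) := by
          apply le_mul_of_one_le_right hρ.le
          exact one_le_pow₀ (by norm_num)
        have := D.hr
        linarith
      have h6 := half_iter (D.hX _ hexl) 0 (x := x') (hx'.trans hρr) n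
      have h7 : (2 : ℝ) ≤ 2 ^ n := by
        calc (2 : ℝ) = 2 ^ 1 := by norm_num
          _ ≤ 2 ^ n := pow_le_pow_right₀ (by norm_num) (by omega)
      have h8 : dist x' (∞ : Sph) / 2 ^ n ≤ ρ / 2 := by
        have h9 : 0 ≤ dist x' (∞ : Sph) := dist_nonneg
        gcongr
      linarith
    · rw [Finset.mem_product, Finset.mem_range] at hi
      have hi1 : i < b + 1 := hi.1
      have hζ : ζ ∈ N := hi.2
      have hiJ : i * J ≤ b * J := Nat.mul_le_mul_right _ (by omega)
      obtain ⟨z1, hz1, h5⟩ := good1 (T + i * J) (by omega) (by omega) ζ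
        (Finset.mem_union_left _ hζ)
      obtain ⟨z', hz', h6⟩ := step1 z1 hz1
      refine ⟨z', hz', fun x' hx' => ?_⟩
      rw [hsplit]
      rw [← hz] at hx'
      exact h6 _ (h5 x' hx').le
  have hlift : ∀ k, Lift (cp G 0 k) := fun k => Pool.Agent.H35.UP.cp_lift (gm_lift P (ex ε x)) 0 k
  -- the critical point
  obtain ⟨t, htn, ht⟩ := crit_cp (fun t => (gm_lift P (ex ε x) t).continuous) hc
  rcases inf_or (cp G 0 t c) with hw | ⟨w, hw⟩
  · have hinf : ∀ i, G i (∞ : Sph) = (∞ : Sph) := by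
      intro i
      have h5 := D.hX _ hexl i (∞ : Sph) (by rw [dist_self]; exact D.hr.le)
      rw [dist_self, zero_div] at h5
      exact dist_le_zero.1 h5
    apply sink (hlift n) hρ hρ2 step2 (k := 1)
    refine ⟨(∞ : Sph), Finset.mem_insert_self _ _, ?_⟩
    have h5 : cp G 0 n c = (∞ : Sph) := by
      have h6 := cp_add G 0 t (n - t) c
      rw [Nat.add_sub_cancel' htn.le, hw, Pool.Agent.H35.UP.cp_fix hinf] at h6
      exact h6
    rw [Function.iterate_one, h5, dist_self]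
    exact hρ
  · rw [hw] at ht
    have hwc : w ∈ N ∪ crt (P t) := Finset.mem_union_right _ (mem_crt (hdeg t) ht)
    rcases Nat.lt_or_ge t T with htT | htT
    · obtain ⟨z, hz, h5⟩ := good2 t htT.le w hwc
      apply sink (hlift n) hρ hρ2 step2 (k := 1)
      refine ⟨z, hz, ?_⟩
      rw [Function.iterate_one, hsplit]
      have h6 : cp G 0 T c = ((fl P ε t T w x : ℂ) : Sph) := by
        have h7 := cp_add G 0 t (T - t) c
        rw [Nat.add_sub_cancel' htT.le, hw, Nat.zero_add] at h7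
        rw [h7]
        exact cp_coe P (ex ε x) t (T - t) w
      rw [h6]
      exact h5 _ (by rw [dist_self]; exact hρ.le)
    · obtain ⟨z1, hz1, h5⟩ := good1 t htT htn.le w hwc
      obtain ⟨z, hz, h6⟩ := step1 z1 hz1
      apply sink (hlift n) hρ hρ2 step2 (k := 2)
      refine ⟨z, hz, ?_⟩
      have h7 : cp G 0 n c = ((fl P ε t n w x : ℂ) : Sph) := by
        have h8 := cp_add G 0 t (n - t) c
        rw [Nat.add_sub_cancel' htn.le, hw, Nat.zero_add] at h8
        rw [h8]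
        exact cp_coe P (ex ε x) t (n - t) w
      have h8 : (cp G 0 n)^[2] c = cp G 0 n (cp G 0 n c) := rfl
      rw [h8, hsplit, h7]
      exact h6 _ (h5 _ (by rw [dist_self]; exact hρ.le)).le

end two

end Pool.Agent.H35.ME
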