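import Mathlib
import Pool.Agent.H35.ME.Two
import Pool.Agent.H35.ME.Const
import Pool.Agent.H84.UC.Segment

/-!
# Random constant terms: the exceptional set is exponentially small
-/

set_option autoImplicit false

open MeasureTheory Filter Topology OnePoint Polynomial
open scoped ENNReal
open Pool.Agent.H44.Fatou
open Pool.Agent.H84.UC
open Pool.Agent.H35.NA (Attr)
open Pool.Agent.H35.UP (Adm rat_one_infty half lip_all)

namespace Pool.Agent.H35.ME

/-- a finite net of the sphere consisting of finite points -/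
theorem fin_net {δ : ℝ} (hδ : 0 < δ) : ∃ N : Finset ℂ, ∀ x : Sph, ∃ ζ ∈ N,
    dist ((ζ : ℂ) : Sph) x ≤ δ := by
  classical
  have hcov : (Set.univ : Set Sph) ⊆ ⋃ z : ℂ, Metric.ball ((z : ℂ) : Sph) δ := by
    intro x _
    have h1 : x ∈ closure (Set.range ((↑) : ℂ → Sph)) := by
      rw [OnePoint.denseRange_coe.closure_range]
      exact Set.mem_univ x
    obtain ⟨y, ⟨z, rfl⟩, hy⟩ := Metric.mem_closure_iff.1 h1 δ hδ
    exact Set.mem_iUnion.2 ⟨z, hy⟩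
  obtain ⟨N, hN⟩ := isCompact_univ.elim_finite_subcover (fun z : ℂ => Metric.ball ((z : ℂ) : Sph) δ)
    (fun z => Metric.isOpen_ball) hcov
  refine ⟨N, fun x => ?_⟩
  obtain ⟨ζ, hζ, hx⟩ := Set.mem_iUnion₂.1 (hN (Set.mem_univ x))
  refine ⟨ζ, hζ, ?_⟩
  rw [dist_comm]
  exact (Metric.mem_ball.1 hx).le

theorem main (d : ℕ) (B : ℝ) (hB : 1 ≤ B) (ε : ℝ) (hε : 0 < ε) :
    ∃ C θ : ℝ, 0 < C ∧ 0 < θ ∧ θ < 1 ∧ ∀ (n : ℕ) (P : ℕ → Polynomial ℂ), (∀ j, Adm d B (P j)) →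
      ∃ bad : Set (Fin n → ℂ), Measure.pi (fun _ => nu ε) bad ≤ ENNReal.ofReal (C * θ ^ n) ∧
        ∀ x ∉ bad, ∀ c : Sph, (¬ ∃ U ∈ 𝓝 c, Set.InjOn (cp (Gm P (ex ε x)) 0 n) U) →
          Attr (cp (Gm P (ex ε x)) 0 n) c := by
  classical
  set B' : ℝ := B + ε with hB'
  have hB'1 : 1 ≤ B' := by linarith
  set r : ℝ := 1 / (B' * (B' * d + 4) + 1) with hr
  have hr0 : 0 < r := by positivity
  set R : ℝ := 4 / (3 * r) + 1 with hR
  have hR0 : 0 < R := by positivity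
  obtain ⟨Λ, hΛ, hlip⟩ := poly_lip d (B := B) (R := R) (by linarith) hR0.le
  obtain ⟨L, hL1, hL⟩ := lip_all d hB'1
  obtain ⟨l, hl⟩ := pow_unbounded_of_one_lt L (one_lt_two)
  set K : ℝ := 2 * (1 + R) ^ 2 with hK
  have hK0 : 0 < K := by positivity
  set θ₀ : ℝ := ε / (8 * R) with hθ₀
  obtain ⟨m, hm1, hm2, hm3⟩ := consts l (c := 2 * (4 * R * 32 / ε * (Λ * K))) (θ := θ₀)
    (by positivity) (by positivity)
  set a : ℕ := (1 + m * m) * l with ha
  set J : ℕ := 1 + m * m with hJ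
  have hJ1 : 1 ≤ J := by omega
  set κ : ℝ := 1 / (32 * ((a : ℝ) + 1) * (a + 2)) with hκ
  have ha0 : (0 : ℝ) ≤ a := Nat.cast_nonneg a
  have hκ0 : 0 < κ := by positivity
  have hκ1 : κ < 1 := by
    rw [hκ, div_lt_one (by positivity)]
    nlinarith
  set ρL : ℝ := min (1 / K) (κ * ε / (2 * Λ * K)) with hρL
  have hΛ0 : 0 < Λ := by linarith
  have hρL0 : 0 < ρL := lt_min (by positivity) (by positivity)
  set τ : ℝ := min ε (1 / (J * Λ ^ J)) with hτ
  have hJpos : (0 : ℝ) < J := by exact_mod_cast hJ1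
  have hτ0 : 0 < τ := lt_min hε (by positivity)
  have hD : ∀ P : ℕ → Polynomial ℂ, (∀ j, Adm d B (P j)) → Dat P ε R r Λ κ τ L ρL m a := by
    intro P hP
    refine ⟨hε, hr0, by rw [hR]; linarith, hΛ, ?_, ?_, hL1, ?_, hκ0, hκ1, hτ0, min_le_left _ _,
      ?_, ?_, hρL0, ?_, ?_, ?_⟩
    · intro t w z hw hz
      exact hlip (P t) (hP t).2.1 (hP t).2.2.1 w z hw hz
    · intro b hb t x hx
      exact half hB'1 (adm_add hB hε (hP t) (hb t).le) hx
    · intro b hb t x y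
      exact hL _ (adm_add hB hε (hP t) (hb t).le) x y
    · calc ((J : ℕ) : ℝ) * Λ ^ J * τ ≤ (J : ℝ) * Λ ^ J * (1 / (J * Λ ^ J)) := by
            gcongr
            exact min_le_right _ _
        _ = 1 := by field_simp
    · rw [ha, ← hJ, Nat.mul_comm J l, pow_mul]
      gcongr
    · calc K * ρL ≤ K * (1 / K) := by
            gcongr
            exact min_le_left _ _
        _ = 1 := by field_simp
    · calc Λ * (K * ρL) ≤ Λ * (K * (κ * ε / (2 * Λ * K))) := by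
            gcongr
            exact min_le_right _ _
        _ = κ * ε / 2 := by field_simp
    · have h1 : 4 * R / (κ * ε) * (Λ * K) =
          (2 * (4 * R * 32 / ε * (Λ * K)) * ((a : ℝ) + 1) * (a + 2)) / 2 := by
        rw [hκ]
        field_simp
      rw [h1]
      gcongr
  obtain ⟨N, hN⟩ := fin_net hρL0
  set ρm : ℝ := min (min ρL (r / 8)) (1 / 2) with hρm
  have hρm0 : 0 < ρm := lt_min (lt_min hρL0 (by positivity)) (by norm_num)
  have hρmL : ρm ≤ ρL := (min_le_left _ _).trans (min_le_left _ _)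
  have hρmr : ρm ≤ r / 8 := (min_le_left _ _).trans (min_le_right _ _)
  have hρm2 : ρm ≤ 1 / 2 := min_le_right _ _
  obtain ⟨c1, hc1⟩ := seg_exists_pow (x := r) hρm0
  obtain ⟨c2, hc2⟩ := seg_exists_pow (x := ρL) hρm0
  obtain ⟨A, hA⟩ : ∃ A : ℕ, A = 2 * (a + 1) * (a + 2) := ⟨_, rfl⟩
  have hA1 : 1 ≤ A := by
    rw [hA]
    exact Nat.mul_pos (Nat.mul_pos (by norm_num) (Nat.succ_pos a)) (Nat.succ_pos _)
  obtain ⟨Dn, hDn⟩ : ∃ Dn : ℕ, Dn = A * J + 2 * (a + 1) := ⟨_, rfl⟩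
  have hDn1 : 1 ≤ Dn := by omega
  obtain ⟨cb, hcb⟩ : ∃ cb : ℕ, cb = a * (c1 + 2 * Dn) + c2 + 2 := ⟨_, rfl⟩
  obtain ⟨En, hEn⟩ : ∃ En : ℕ, En = cb * J + c1 := ⟨_, rfl⟩
  set η : ℝ := 2 * κ + m * (3 / 4) ^ m with hη
  have hη0 : 0 ≤ η := by positivity
  have hηA : η * (4 * A) ≤ 1 := by
    have h1 : ((A : ℕ) : ℝ) = 2 * ((a : ℝ) + 1) * (a + 2) := by rw [hA]; push_cast; ring
    rw [h1, hη]
    have h2 : 2 * κ * (4 * (2 * ((a : ℝ) + 1) * (a + 2))) = 1 / 2 := by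
      rw [hκ]
      field_simp
      norm_num
    have h3 : (m : ℝ) * (3 / 4) ^ m * (4 * (2 * ((a : ℝ) + 1) * (a + 2))) ≤ 1 / 2 := by
      have h4 : (m : ℝ) * (3 / 4) ^ m * (16 * ((a : ℝ) + 1) * (a + 2)) ≤ 1 := hm2
      nlinarith
    nlinarith
  set p : ℝ := ((τ / 2 / ε) ^ 2) ^ J with hp
  have hp0 : 0 < p := by positivity
  have hp1 : p ≤ 1 := by
    apply pow_le_one₀ (by positivity)
    apply pow_le_one₀ (by positivity)
    rw [div_div, div_le_one (by positivity)]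
    have : τ ≤ ε := min_le_left _ _
    linarith
  obtain ⟨C, θ, hC, hθ0, hθ1, hnum⟩ := num2 A cb (N.card + d) (2 * (Dn + En)) hA1 (by omega) hp0
    hp1 hη0 hηA
  refine ⟨max C (1 / θ ^ (2 * En)), θ, lt_max_of_lt_left hC, hθ0, hθ1, fun n P hP => ?_⟩
  have hprob := nu_prob hε
  by_cases hn : n < 2 * En
  · refine ⟨Set.univ, ?_, fun x hx => absurd (Set.mem_univ x) hx⟩
    rw [measure_univ, ← ENNReal.ofReal_one]
    apply ENNReal.ofReal_le_ofReal
    have h1 : θ ^ (2 * En) ≤ θ ^ n := pow_le_pow_of_le_one hθ0.le hθ1.le hn.le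
    have h2 : 0 < θ ^ (2 * En) := by positivity
    calc (1 : ℝ) = 1 / θ ^ (2 * En) * θ ^ (2 * En) := by field_simp
      _ ≤ max C (1 / θ ^ (2 * En)) * θ ^ n := by
          gcongr
          exact le_max_right _ _
  push Not at hn
  obtain ⟨q, hq⟩ : ∃ q : ℕ, q = (n - 2 * En) / (2 * Dn) := ⟨_, rfl⟩
  obtain ⟨u, hu⟩ : ∃ u : ℕ, u = (n - 2 * En) % (2 * Dn) := ⟨_, rfl⟩
  have hu1 : u < 2 * Dn := by
    rw [hu]
    exact Nat.mod_lt _ (by omega)
  have hn2 : n = 2 * Dn * q + u + 2 * En := by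
    have := Nat.div_add_mod (n - 2 * En) (2 * Dn)
    rw [← hq, ← hu] at this
    omega
  obtain ⟨b, hb⟩ : ∃ b : ℕ, b = A * q + cb := ⟨_, rfl⟩
  obtain ⟨lq, hlq⟩ : ∃ lq : ℕ, lq = (a + 1) * (2 * q) + c1 := ⟨_, rfl⟩
  obtain ⟨T, hT⟩ : ∃ T : ℕ, T = b * J + lq := ⟨_, rfl⟩
  have hTq : T = Dn * q + En := by
    rw [hT, hb, hlq, hDn, hEn]
    ring
  have hnT : n = T + (b * J + (lq + u)) := by
    have h1 : b * J + (lq + u) = T + u := by rw [hT]; ring
    rw [h1, hTq, hn2]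
    ring
  have hDat := hD P hP
  refine ⟨exc n P ε R r κ m b q T N, ?_, ?_⟩
  · have hpr := exc_prob hDat (d := d) (fun t => (hP t).2.1) N (n := n) (b := b) (q := q) (T := T)
      (by rw [← hJ]; omega) (by rw [← hJ]; omega)
    refine hpr.trans ?_
    have e1 : (1 : ℝ≥0∞) + (ENNReal.ofReal (2 * κ) + m * ENNReal.ofReal (3 / 4) ^ m) =
        ENNReal.ofReal (1 + η) := by
      have f1 : ENNReal.ofReal ((m : ℝ) * (3 / 4) ^ m) =
          (m : ℝ≥0∞) * ENNReal.ofReal (3 / 4) ^ m := by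
        rw [ENNReal.ofReal_mul (Nat.cast_nonneg m), ENNReal.ofReal_natCast,
          ENNReal.ofReal_pow (by norm_num)]
      have f2 : ENNReal.ofReal (2 * κ + (m : ℝ) * (3 / 4) ^ m) =
          ENNReal.ofReal (2 * κ) + ENNReal.ofReal ((m : ℝ) * (3 / 4) ^ m) :=
        ENNReal.ofReal_add (by positivity) (by positivity)
      rw [hη, ENNReal.ofReal_add zero_le_one (by positivity), ENNReal.ofReal_one, f2, f1]
    have e2 : (1 : ℝ≥0∞) - ENNReal.ofReal ((τ / 2 / ε) ^ 2) ^ (1 + m * m) =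
        ENNReal.ofReal (1 - p) := by
      have f1 : ENNReal.ofReal (((τ / 2 / ε) ^ 2) ^ J) = ENNReal.ofReal ((τ / 2 / ε) ^ 2) ^ J :=
        ENNReal.ofReal_pow (by positivity) J
      rw [ENNReal.ofReal_sub _ hp0.le, ENNReal.ofReal_one, hp, f1]
    have e3 : (2⁻¹ : ℝ≥0∞) = ENNReal.ofReal (1 / 2) := by
      rw [one_div, ENNReal.ofReal_inv_of_pos two_pos, ENNReal.ofReal_ofNat]
    have h1p : 0 ≤ 1 - p := by linarith
    rw [e1, e2, e3, ← ENNReal.ofReal_pow (by positivity), ← ENNReal.ofReal_pow (by norm_num),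
      ← ENNReal.ofReal_mul (by positivity), ← ENNReal.ofReal_pow h1p]
    have e4 : (2 : ℝ≥0∞) = ENNReal.ofReal 2 := (ENNReal.ofReal_ofNat 2).symm
    have e5 : (((n + 2) * (N.card + d) : ℕ) : ℝ≥0∞) =
        ENNReal.ofReal (((n : ℝ) + 2) * ((N.card + d : ℕ) : ℝ)) := by
      rw [← ENNReal.ofReal_natCast]
      congr 1
      push_cast
      ring
    have hn0 : (0 : ℝ) ≤ n := Nat.cast_nonneg n
    have hX1 : (0 : ℝ) ≤ ((n : ℝ) + 2) * ((N.card + d : ℕ) : ℝ) :=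
      mul_nonneg (by linarith) (Nat.cast_nonneg _)
    have hX2 : (0 : ℝ) ≤ (1 - p) ^ q := pow_nonneg h1p q
    have hX3 : (0 : ℝ) ≤ 2 * ((1 + η) ^ b * (1 / 2) ^ q) := by positivity
    rw [e4, e5, ← ENNReal.ofReal_mul zero_le_two, ← ENNReal.ofReal_mul hX1,
      ← ENNReal.ofReal_add hX3 (mul_nonneg hX1 hX2)]
    apply ENNReal.ofReal_le_ofReal
    have h2 := hnum n q (by
      rw [hn2]
      have h3 : 2 * (Dn + En) * (q + 1) = 2 * Dn * q + 2 * Dn + 2 * En * q + 2 * En := by ring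
      rw [h3]
      omega)
    rw [← hb] at h2
    refine h2.trans ?_
    gcongr
    exact le_max_left _ _
  · intro x hx c hc
    have hρ0 : 0 < ρm / 2 ^ ((a + 1) * (2 * q)) := by positivity
    have hρle : ρm / 2 ^ ((a + 1) * (2 * q)) ≤ ρm :=
      div_le_self hρm0.le (one_le_pow₀ (by norm_num))
    have hmul : ρm / 2 ^ ((a + 1) * (2 * q)) * 2 ^ ((a + 1) * (2 * q)) = ρm :=
      div_mul_cancel₀ _ (by positivity)
    refine hyp_off hDat (fun t => (hP t).1) N hN (b := b) (lq := lq) (u := u) (q := q) (T := T)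
      (by rw [hb, hcb]; omega) (by rw [← hJ]; exact hT) (by rw [← hJ]; exact hnT) hρ0
      (hρle.trans hρm2) (by rw [hmul]; exact hρmL) (by rw [hmul]; exact hρmr) ?_ ?_ hx hc
    · rw [hlq]
      exact seg_h3 hr0 hc1
    · have h4 := seg_h4 (a := a) (q := q) (c1 := c1 + 2 * Dn) hρm0 hc2
      refine lt_of_le_of_lt ?_ h4
      rw [hb, hA, hcb]
      have h5 : (2 : ℝ) ^ ((a + 1) * (2 * q) + a * (lq + u)) ≤
          2 ^ ((a + 1) * (2 * q) + a * ((a + 1) * (2 * q) + (c1 + 2 * Dn))) := by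
        apply pow_le_pow_right₀ (by norm_num)
        have h6 : a * (lq + u) ≤ a * ((a + 1) * (2 * q) + (c1 + 2 * Dn)) := by
          apply Nat.mul_le_mul_left
          omega
        omega
      have h7 : 0 ≤ ρL + ρm / 2 ^ ((a + 1) * (2 * q)) := by positivity
      gcongr

end Pool.Agent.H35.ME
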