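import Mathlib
import Pool.Agent.H35.ME.Main
import Pool.Agent.H35.ME.Comp
import Pool.Agent.H35.ME.Cyc
import Pool.Agent.H32.BT.Crit

/-!
# Random changes of every `M`-th constant term
-/

set_option autoImplicit false

open MeasureTheory Filter Topology OnePoint Polynomial
open scoped ENNReal
open Pool.Agent.H44.Fatou
open Pool.Agent.H84.UC
open Pool.Agent.H35.NA (Attr rat_surjective)
open Pool.Agent.H35.UP (Adm rat_one_infty rat_one)

namespace Pool.Agent.H35.ME

/-- the changes: `a i` at time `i M + M - 1` -/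
def kk {k : ℕ} (M : ℕ) (a : Fin k → ℂ) (t : ℕ) : ℂ :=
  if h : M ∣ t + 1 ∧ t / M < k then a ⟨t / M, h.2⟩ else 0

theorem kk_zero {k M i j : ℕ} (a : Fin k → ℂ) (hj : j + 1 < M) : kk M a (i * M + j) = 0 := by
  unfold kk
  rw [dif_neg]
  rintro ⟨h, -⟩
  have h1 : M ∣ j + 1 := by
    have h2 : i * M + j + 1 = M * i + (j + 1) := by ring
    rw [h2] at h
    exact (Nat.dvd_add_right (Dvd.intro i rfl)).1 h
  have := Nat.le_of_dvd (Nat.succ_pos j) h1
  omega

theorem kk_last {k M i : ℕ} (hM : 1 ≤ M) (a : Fin k → ℂ) (hi : i < k) :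
    kk M a (i * M + (M - 1)) = a ⟨i, hi⟩ := by
  have h1 : (i * M + (M - 1)) / M = i := by
    rw [Nat.add_comm, Nat.add_mul_div_right _ _ hM, Nat.div_eq_of_lt (by omega), Nat.zero_add]
  have h2 : M ∣ i * M + (M - 1) + 1 := by
    have h3 : i * M + (M - 1) + 1 = (i + 1) * M := by
      have : (i + 1) * M = i * M + M := by ring
      omega
    rw [h3]
    exact Dvd.intro_left (i + 1) rfl
  unfold kk
  rw [dif_pos ⟨h2, by rw [h1]; exact hi⟩]
  congr 1
  exact Fin.ext h1

theorem main_mth (d : ℕ) (B : ℝ) (hB : 1 ≤ B) (ε : ℝ) (hε : 0 < ε) (M : ℕ) (hM : 1 ≤ M) :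
    ∃ K θ : ℝ, 0 < θ ∧ θ < 1 ∧ ∀ (n : ℕ) (P : ℕ → Polynomial ℂ), (∀ j, Adm d B (P j)) →
      ∃ bad : Set (Fin (n / M) → ℂ),
        Measure.pi (fun _ => nu ε) bad ≤ ENNReal.ofReal (K * θ ^ (n / M)) ∧
        ∀ x ∉ bad, ∀ c : Sph,
          (¬ ∃ U ∈ 𝓝 c, Set.InjOn (cp (Gm P (kk M (fun i => clip ε (x i)))) 0 n) U) →
          Attr (cp (Gm P (kk M (fun i => clip ε (x i)))) 0 n) c := by
  classical
  obtain ⟨D, B', hB', hD⟩ := adm_wd (d := d) hB M
  set B2 : ℝ := ((D : ℝ) + 1) * B' * (((D : ℝ) + 1) * B') ^ D with hB2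
  have hD1 : (1 : ℝ) ≤ (D : ℝ) + 1 := by
    have : (0 : ℝ) ≤ D := Nat.cast_nonneg D
    linarith
  have hmain := main (max D (D * D)) (max B' B2) (le_max_of_le_left hB') ε hε
  obtain ⟨K, θ, hK, hθ0, hθ1, hm⟩ := hmain
  refine ⟨max K 1, θ, hθ0, hθ1, fun n P hP => ?_⟩
  have hprob := nu_prob hε
  obtain ⟨k, hk⟩ : ∃ k, k = n / M := ⟨_, rfl⟩
  obtain ⟨u, hu⟩ : ∃ u, u = n % M := ⟨_, rfl⟩
  have hn : n = k * M + u := by
    rw [hk, hu, Nat.mul_comm]
    exact (Nat.div_add_mod n M).symm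
  have huM : u < M := by
    rw [hu]
    exact Nat.mod_lt _ hM
  rw [← hk]
  rcases Nat.eq_zero_or_pos k with hk0 | hk0
  · refine ⟨Set.univ, ?_, fun x hx => absurd (Set.mem_univ x) hx⟩
    rw [measure_univ, hk0, pow_zero, mul_one, ← ENNReal.ofReal_one]
    exact ENNReal.ofReal_le_ofReal (le_max_right _ _)
  have hdegP : ∀ j, 2 ≤ (P j).natDegree := fun j => (hP j).1
  set P' : ℕ → Polynomial ℂ := fun i => if i = 0 then (wd P 0 M).comp (wd P (k * M) u)
    else wd P (i * M) M with hP'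
  have hP'adm : ∀ i, Adm (max D (D * D)) (max B' B2) (P' i) := by
    intro i
    simp only [hP']
    have hw := hD P hP
    split_ifs with hi
    · rcases Nat.eq_zero_or_pos u with hu0 | hu0
      · have : wd P (k * M) u = X := by rw [hu0]; rfl
        rw [this, comp_X]
        exact adm_mono hB' (le_max_left _ _) (le_max_left _ _) (hw 0 M hM le_rfl)
      · have h1 := adm_comp hB' hB' (hw 0 M hM le_rfl) (hw (k * M) u hu0 huM.le)
        refine adm_mono ?_ (le_max_right _ _) (le_max_right _ _) h1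
        have e3 : (1 : ℝ) ≤ (((D : ℝ) + 1) * B') ^ D := one_le_pow₀ (by nlinarith)
        have e4 : (1 : ℝ) ≤ ((D : ℝ) + 1) * B' := by nlinarith
        nlinarith
    · exact adm_mono hB' (le_max_left _ _) (le_max_left _ _) (hw (i * M) M hM le_rfl)
  obtain ⟨bad, hbad1, hbad2⟩ := hm k P' hP'adm
  refine ⟨bad, ?_, fun x hx => ?_⟩
  · refine hbad1.trans (ENNReal.ofReal_le_ofReal ?_)
    apply mul_le_mul_of_nonneg_right (le_max_left _ _)
    positivity
  set b : ℕ → ℂ := kk M (fun i => clip ε (x i)) with hb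
  have hb0 : ∀ i j, j + 1 < M → b (i * M + j) = 0 := fun i j hj => kk_zero _ hj
  have hblast : ∀ i, i < k → b (i * M + (M - 1)) = ex ε x i := by
    intro i hi
    rw [hb, kk_last hM _ hi]
    unfold ex
    rw [dif_pos hi]
  set G : Sph → Sph := cp (Gm P b) 0 (k * M) with hG
  set T : Sph → Sph := cp (Gm P b) (k * M) u with hT
  have hTr : ∀ y, T y = rat (wd P (k * M) u) 1 y := fun y =>
    (cp_wd hdegP b (k * M) u (fun i hi => hb0 k i (by omega)) y).2
  have hTdeg : 1 ≤ (wd P (k * M) u).natDegree :=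
    (cp_wd hdegP b (k * M) u (fun i hi => hb0 k i (by omega)) ∞).1
  have hblk : ∀ i, i < k → ∀ y, cp (Gm P b) (i * M) M y =
      rat (wd P (i * M) M + C (ex ε x i)) 1 y := by
    intro i hi y
    obtain ⟨M', hM'⟩ : ∃ M', M = M' + 1 := ⟨M - 1, by omega⟩
    have h1 := cp_wd_kick hdegP b (i * M) M' (fun j hj => hb0 i j (by omega)) y
    have h2 : b (i * M + M') = ex ε x i := by
      have := hblast i hi
      have e : M - 1 = M' := by omega
      rwa [e] at this
    rw [h2, ← hM'] at h1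
    exact h1
  have hGT : ∀ i, i ≤ k → 1 ≤ i → ∀ y, cp (Gm P' (ex ε x)) 0 i y = cp (Gm P b) 0 (i * M) (T y) := by
    intro i
    induction i with
    | zero => intro _ h; omega
    | succ i ih =>
      intro hi _ y
      rcases Nat.eq_zero_or_pos i with hi0 | hi0
      · subst hi0
        have h1 := hblk 0 (by omega) (T y)
        rw [Nat.zero_mul] at h1
        rw [cp_succ, cp_zero, Nat.zero_add, Nat.one_mul, h1]
        show rat (P' 0 + C (ex ε x (0 + 0))) 1 y = _
        have h2 : P' 0 = (wd P 0 M).comp (wd P (k * M) u) := if_pos rfl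
        have h3 : (wd P 0 M).comp (wd P (k * M) u) + C (ex ε x (0 + 0)) =
            (wd P 0 M + C (ex ε x 0)).comp (wd P (k * M) u) := by
          rw [add_comp, C_comp]
        have h4 : 1 ≤ (wd P 0 M + C (ex ε x 0)).natDegree := by
          rw [natDegree_add_C]
          have := (hD P hP 0 M hM le_rfl).1
          omega
        rw [h2, h3, rat_comp h4 hTdeg, hTr]
      · have h1 := ih (by omega) hi0 y
        rw [cp_succ, h1, Nat.zero_add]
        have h2 : (i + 1) * M = i * M + M := by ring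
        rw [h2, cp_add, Nat.zero_add, hblk i (by omega)]
        show rat (P' i + C (ex ε x i)) 1 _ = _
        have h3 : P' i = wd P (i * M) M := if_neg (by omega)
        rw [h3]
  have hF : (cp (Gm P b) 0 n) = fun y => T (G y) := by
    funext y
    rw [hn, cp_add, Nat.zero_add]
  have hGT' : (cp (Gm P' (ex ε x)) 0 k) = fun y => G (T y) := by
    funext y
    exact hGT k le_rfl hk0 y
  have hGc : Continuous G := (Pool.Agent.H35.UP.cp_lift (gm_lift P b) 0 (k * M)).continuous
  have hTc : Continuous T := (Pool.Agent.H35.UP.cp_lift (gm_lift P b) (k * M) u).continuous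
  have hTeq : T = rat (wd P (k * M) u) 1 := funext hTr
  have hTo : IsOpenMap T := by
    rw [hTeq]
    exact Pool.Agent.H32.BT.rat_open isCoprime_one_right (hTdeg.trans (le_max_left _ _))
  have hTs : Function.Surjective T := by
    rw [hTeq]
    exact rat_surjective isCoprime_one_right (hTdeg.trans (le_max_left _ _))
  have hall : ∀ y : Sph, (¬ ∃ U ∈ 𝓝 y, Set.InjOn (fun x => G (T x)) U) →
      Attr (fun x => G (T x)) y := by
    intro y hy
    have h1 := hbad2 x hx y
    rw [hGT'] at h1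
    exact h1 hy
  intro c hc
  rw [hF] at hc ⊢
  exact crit_cyc hGc hTc hTo hTs hall hc

end Pool.Agent.H35.ME
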