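import Mathlib
import Pool.Agent.H35.ME.Mth

/-!
# From the uniform distribution to Lebesgue measure
-/

set_option autoImplicit false

open MeasureTheory OnePoint Polynomial Filter Topology
open scoped ENNReal
open Pool.Agent.H44.Fatou
open Pool.Agent.H84.UC
open Pool.Agent.H35.NA (Attr)
open Pool.Agent.H35.UP (Adm rat_one)

namespace Pool.Agent.H35.ME

theorem pi_nu {k : ℕ} {ε : ℝ} (hε : 0 < ε) :
    Measure.pi (fun _ : Fin k => nu ε) =
      (volume (Set.univ.pi (fun _ : Fin k => Metric.ball (0 : ℂ) ε)))⁻¹ •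
        volume.restrict (Set.univ.pi (fun _ : Fin k => Metric.ball (0 : ℂ) ε)) := by
  have := nu_prob hε
  apply Measure.pi_eq
  intro s hs
  have hE : MeasurableSet (Set.univ.pi (fun _ : Fin k => Metric.ball (0 : ℂ) ε)) :=
    MeasurableSet.univ_pi (fun _ => Metric.isOpen_ball.measurableSet)
  rw [Measure.smul_apply, Measure.restrict_apply' hE, ← Set.pi_inter_distrib, volume_pi_pi,
    volume_pi_pi, Finset.prod_const, Finset.card_univ, Fintype.card_fin, smul_eq_mul,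
    ENNReal.inv_pow]
  have h1 : ∀ i, nu ε (s i) = (volume (Metric.ball (0 : ℂ) ε))⁻¹ *
      volume (s i ∩ Metric.ball (0 : ℂ) ε) := by
    intro i
    unfold nu
    rw [Measure.smul_apply, Measure.restrict_apply (hs i), smul_eq_mul]
  rw [Finset.prod_congr rfl (fun i _ => h1 i), Finset.prod_mul_distrib, Finset.prod_const,
    Finset.card_univ, Fintype.card_fin]

theorem vol_eq {k : ℕ} {ε : ℝ} (hε : 0 < ε) {A : Set (Fin k → ℂ)}
    (hA : ∀ a ∈ A, ∀ i, ‖a i‖ < ε) : volume A =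
      Measure.pi (fun _ => nu ε) A * volume {a : Fin k → ℂ | ∀ i, ‖a i‖ < ε} := by
  set E : Set (Fin k → ℂ) := Set.univ.pi (fun _ : Fin k => Metric.ball (0 : ℂ) ε) with hE
  have hE' : {a : Fin k → ℂ | ∀ i, ‖a i‖ < ε} = E := by
    ext a
    simp [hE]
  have hEm : MeasurableSet E :=
    MeasurableSet.univ_pi (fun _ => Metric.isOpen_ball.measurableSet)
  have hE0 : volume E ≠ 0 := by
    rw [hE, volume_pi_pi, Finset.prod_const]
    exact pow_ne_zero _ (vol_pos hε)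
  have hEt : volume E ≠ ⊤ := by
    rw [hE, volume_pi_pi, Finset.prod_const]
    exact ENNReal.pow_ne_top vol_top
  have hAE : A ∩ E = A := by
    apply Set.inter_eq_self_of_subset_left
    intro a ha
    rw [← hE']
    exact hA a ha
  rw [hE', pi_nu hε, Measure.smul_apply, Measure.restrict_apply' hEm, hAE, smul_eq_mul, mul_comm,
    ← mul_assoc, ENNReal.mul_inv_cancel hE0 hEt, one_mul]

/-- composition of the kicked polynomials -/
noncomputable def cpo (P : ℕ → Polynomial ℂ) (a : ℕ → ℂ) : ℕ → Polynomial ℂ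
  | 0 => X
  | n + 1 => (P n + C (a n)).comp (cpo P a n)

theorem cpo_eval (P : ℕ → Polynomial ℂ) (a : ℕ → ℂ) (n : ℕ) (z : ℂ) :
    cp (Gm P a) 0 n (z : Sph) = (((cpo P a n).eval z : ℂ) : Sph) := by
  induction n with
  | zero => simp [cpo]
  | succ n ih =>
    rw [cp_succ, ih, Nat.zero_add]
    show rat (P n + C (a n)) 1 _ = _
    rw [rat_one]
    congr 1
    simp [cpo]

theorem main_vol (d : ℕ) (B : ℝ) (hB : 1 ≤ B) (ε : ℝ) (hε : 0 < ε) (M : ℕ) (hM : 1 ≤ M) :
    ∃ K θ : ℝ, 0 < θ ∧ θ < 1 ∧ ∀ (n : ℕ) (P : ℕ → Polynomial ℂ), (∀ j, Adm d B (P j)) →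
      volume {a : Fin (n / M) → ℂ | (∀ i, ‖a i‖ < ε) ∧
        ¬ ∃ f : OnePoint ℂ → OnePoint ℂ, Continuous f ∧
          (∀ z : ℂ, f (OnePoint.some z) = OnePoint.some ((cpo P (kk M a) n).eval z)) ∧
          ∀ x : Sph, (¬ ∃ U ∈ 𝓝 x, Set.InjOn f U) → Attr f x} ≤
      ENNReal.ofReal (K * θ ^ (n / M)) * volume {a : Fin (n / M) → ℂ | ∀ i, ‖a i‖ < ε} := by
  obtain ⟨K, θ, hθ0, hθ1, h⟩ := main_mth d B hB ε hε M hM
  refine ⟨K, θ, hθ0, hθ1, fun n P hP => ?_⟩
  obtain ⟨bad, h1, h2⟩ := h n P hP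
  rw [vol_eq hε (fun a ha => ha.1)]
  gcongr
  refine le_trans (measure_mono ?_) h1
  rintro a ⟨ha1, ha2⟩
  by_contra hab
  apply ha2
  have hclip : (fun i => clip ε (a i)) = a := by
    funext i
    exact clip_of_lt (ha1 i)
  have h3 := h2 a hab
  rw [hclip] at h3
  exact ⟨cp (Gm P (kk M a)) 0 n,
    (Pool.Agent.H35.UP.cp_lift (gm_lift P (kk M a)) 0 n).continuous,
    fun z => cpo_eval P (kk M a) n z, h3⟩

end Pool.Agent.H35.ME
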